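import Pool.Agent.MP_c71a08_an.H32.Seq

namespace Pool.Agent.MP_c71a08_an.H32

theorem avg0 (s : Multiset ℂ) {z w : ℂ} {p : ℝ} (h : ∀ x ∈ s, ‖z - x * w‖ ≤ p) :
    ‖(s.card : ℂ) * z - s.sum * w‖ ≤ s.card * p := by
  induction s using Multiset.induction_on with
  | empty => simp
  | cons x s ih =>
    have h1 := ih fun y hy => h y (Multiset.mem_cons_of_mem hy)
    have h2 := h x (Multiset.mem_cons_self _ _)
    rw [Multiset.card_cons, Multiset.sum_cons]
    push_cast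
    exact le_of_eq_of_le (congrArg _ (by ring))
      (((norm_add_le _ _).trans (add_le_add h1 h2)).trans_eq (by ring))

theorem avg {s : Multiset ℂ} (hs : 0 < s.card) {z w : ℂ} {p q σ : ℝ} (hσ : ‖s.sum‖ = s.card * σ)
    (h : ∀ x ∈ s, ‖z - x * w‖ ≤ p) (hw : ‖w‖ ≤ q) : ‖z‖ ≤ p + σ * q := by
  have h1 := lin (norm_nonneg _) le_rfl (avg0 s h) hw
  rw [norm_mul, hσ, Complex.norm_natCast, mul_assoc, ← mul_add] at h1
  exact le_of_mul_le_mul_left h1 (by exact_mod_cast hs)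

noncomputable def V (r : ℝ) (m k : ℕ) : ℝ := G r m k + E r m k

theorem ub {r : ℝ} (hr : 0 < r) (m k : ℕ) (s : Multiset ℂ) (hs : s.card = m + 2)
    (hx : ∀ x ∈ s, ‖x‖ ≤ r) (u : ℕ → ℂ) (hu : Rec s u) (hc : ∀ j, ‖u j‖ ≤ 1)
    (I0 : (m + 2) * A r (m + 1) (k + 3) ≤ (m + 2) * r * A r (m + 1) (k + 2) + V r (m + 1) (k + 2))
    (I1 : (m + 2) * A r (m + 1) (k + 3) ≤ V r (m + 1) (k + 2) + r * V r (m + 1) (k + 1)) :
    (m + 2) * r * ‖u (m + 1 + (k + 3))‖ ≤ V r (m + 1) (k + 3) := by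
  have hB := bd hr.le (m + 1) s hs hx u 1 hu hc
  have hE := hh_le hr.le (m + 1) s hs hx
  have hst : ∀ x ∈ s, ∀ k,
      ‖u (m + 1 + (k + 1)) - x * u (m + 1 + k)‖ ≤ A r (m + 1) (k + 1) - r * A r (m + 1) k ∧
      ‖(s.sum * u (m + 1 + (k + 1)) - hh (k + 1) s * u (m + 1 + 1)) -
        x * (s.sum * u (m + 1 + k) - hh k s * u (m + 1 + 1))‖ ≤
        G r (m + 1) (k + 1) - r * G r (m + 1) k ∧
      ‖hh (k + 1) s - x * hh k s‖ ≤ E r (m + 1) (k + 1) - r * E r (m + 1) k := by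
    intro x hxs k
    obtain ⟨t, rfl⟩ := Multiset.exists_cons_of_mem hxs
    have ht : ∀ y ∈ t, ‖y‖ ≤ r := fun y hy => hx y (Multiset.mem_cons_of_mem hy)
    have hct : t.card = m + 1 := by simpa using hs
    have h := step hr.le (hx x hxs) (hh_le hr.le m t hct ht) hc
      (bd hr.le m t hct ht _ _ hu.cons fun j => by
        have := lin hr.le (z := u (j + 1) - x * u j) (x := -x) (w := u j) (p := 1) (q := 1)
          (by simpa using hx x hxs) (by simpa using hc _) (hc _)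
        linarith) k
    refine ⟨by simpa using h.1, by simpa using h.2.2, ?_⟩
    rw [hh_cons, E_succ, add_sub_cancel_left, add_sub_cancel_left]
    exact hh_le hr.le m t hct ht _
  have hn : (0 : ℝ) < m + 2 := by positivity
  obtain ⟨σ, hσ⟩ : ∃ σ : ℝ, ‖s.sum‖ = s.card * σ :=
    ⟨‖s.sum‖ / (m + 2), by rw [hs]; push_cast; field_simp⟩
  have hσ' : ‖s.sum‖ = (m + 2) * σ := by rw [hσ, hs]; push_cast; ring
  have hσ0 : 0 ≤ σ := by
    have := norm_nonneg s.sum
    rw [hσ'] at this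
    exact nonneg_of_mul_nonneg_right this hn |> fun h => by nlinarith
  have hσr : σ ≤ r := by
    have := hE 1
    rw [hh_one, E_one, hσ'] at this
    push_cast at this
    nlinarith
  have h0 : 0 < s.card := by omega
  have a1 := avg h0 hσ (fun x h => (hst x h (k + 2)).1) (hB (k + 2)).1
  have g1 := avg h0 hσ (fun x h => (hst x h (k + 1)).2.1) (hB k).2.2
  have g2 := avg h0 hσ (fun x h => (hst x h (k + 2)).2.1) g1
  have e1 := avg h0 hσ (fun x h => (hst x h (k + 1)).2.2) (hE _)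
  have e2 := avg h0 hσ (fun x h => (hst x h (k + 2)).2.2) e1
  have n1 : (m + 2) * σ * ‖u (m + 1 + (k + 3))‖ ≤
      ‖s.sum * u (m + 1 + (k + 3)) - hh (k + 3) s * u (m + 1 + 1)‖ + ‖hh (k + 3) s‖ := by
    have := lin (norm_nonneg _) le_rfl (le_refl ‖s.sum * u (m + 1 + (k + 3)) -
      hh (k + 3) s * u (m + 1 + 1)‖) (hc _)
    rwa [norm_mul, hσ', mul_one] at this
  have I : (m + 2) * A r (m + 1) (k + 3) ≤ (m + 2) * (r - σ) * A r (m + 1) (k + 2) +
      V r (m + 1) (k + 2) + σ * V r (m + 1) (k + 1) := by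
    have j0 := mul_le_mul_of_nonneg_left I0 (sub_nonneg.2 hσr)
    have j1 := mul_le_mul_of_nonneg_left I1 hσ0
    refine le_of_mul_le_mul_left ?_ hr
    nlinarith
  have a2 := mul_le_mul_of_nonneg_left a1 (mul_nonneg hn.le (sub_nonneg.2 hσr))
  have I2 := mul_le_mul_of_nonneg_left I (sub_nonneg.2 hσr)
  simp only [V, add_assoc, Nat.reduceAdd] at *
  nlinarith

end Pool.Agent.MP_c71a08_an.H32
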