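import Pool.Agent.MP_c71a08_an.H32.Ineq

namespace Pool.Agent.MP_c71a08_an.H32

open Polynomial Matrix

theorem aeval_shift {n : ℕ} (T : Matrix (Fin n) (Fin n) ℂ) (x : Fin n → ℂ) (i : Fin n) (f : ℂ[X]) :
    aeval (LinearMap.funLeft ℂ ℂ Nat.succ : Module.End ℂ (ℕ → ℂ)) f (fun j => (T ^ j *ᵥ x) i) =
      fun j => ((T ^ j * aeval T f) *ᵥ x) i := by
  have hp : ∀ (l : ℕ) (u : ℕ → ℂ) (j : ℕ),
      ((LinearMap.funLeft ℂ ℂ Nat.succ : Module.End ℂ (ℕ → ℂ)) ^ l) u j = u (j + l) := by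
    intro l
    induction l with
    | zero => simp
    | succ l ih => intro u j; rw [pow_succ, Module.End.mul_apply, ih]; rfl
  induction f using Polynomial.induction_on' with
  | add p q hp hq => ext j; simp [hp, hq, mul_add, add_mulVec]
  | monomial l c =>
    ext j
    rw [aeval_monomial, aeval_monomial, Module.End.mul_apply, Module.algebraMap_end_apply,
      Pi.smul_apply, hp, Algebra.algebraMap_eq_smul_one, smul_mul_assoc, one_mul, mul_smul_comm,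
      ← pow_add, smul_mulVec, Pi.smul_apply]

theorem pow_le {n : ℕ} (T : Matrix (Fin n) (Fin n) ℂ) (hT : ∀ i, ∑ j, ‖T i j‖ ≤ 1)
    (x : Fin n → ℂ) (hx : ∀ l, ‖x l‖ ≤ 1) (j : ℕ) : ∀ i, ‖(T ^ j *ᵥ x) i‖ ≤ 1 := by
  induction j with
  | zero => simpa using hx
  | succ j ih =>
    intro i
    rw [pow_succ', ← mulVec_mulVec]
    refine (norm_sum_le _ _).trans ((Finset.sum_le_sum fun l _ => ?_).trans (hT i))
    rw [norm_mul]
    exact mul_le_of_le_one_right (norm_nonneg _) (ih l)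

theorem upper {r : ℝ} (hr : 0 < r) (h1 : r ≤ 1) (m k : ℕ) (hk : k + 2 = (m + 1) ^ 2)
    (h2 : 2 ≤ (1 + r) ^ (m + 2)) (h : (1 - r) ^ (m + 2) + 2 * (m + 2 : ℕ) * r ≤ 2)
    (T : Matrix (Fin (m + 2)) (Fin (m + 2)) ℂ) (hT : ∀ i, ∑ j, ‖T i j‖ ≤ 1)
    (hs : ∀ μ ∈ spectrum ℂ T, ‖μ‖ ≤ r) (i : Fin (m + 2)) :
    (m + 2) * r * ∑ j, ‖(T ^ (m + 1 + (k + 3))) i j‖ ≤ V r (m + 1) (k + 3) := by
  obtain ⟨I0, I1⟩ := ineqs hr h1 m k hk h2 h
  choose x hx1 hx2 using fun j => Complex.exists_norm_eq_mul_self ((T ^ (m + 1 + (k + 3))) i j)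
  have hu := ub hr m k T.charpoly.roots
    (by rw [IsAlgClosed.card_roots_eq_natDegree, charpoly_natDegree_eq_dim, Fintype.card_fin])
    (fun a ha => hs a (mem_spectrum_iff_isRoot_charpoly.2 (isRoot_of_mem_roots ha)))
    (fun j => (T ^ j *ᵥ x) i)
    (by
      unfold Rec
      rw [aeval_shift, ← (IsAlgClosed.splits T.charpoly).eq_prod_roots_of_monic T.charpoly_monic,
        aeval_self_charpoly]
      ext j; simp)
    (fun j => pow_le T hT x (fun l => (hx1 l).le) j i) I0 I1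
  refine le_trans (le_of_eq ?_) hu
  congr 1
  have : (T ^ (m + 1 + (k + 3)) *ᵥ x) i = ((∑ j, ‖(T ^ (m + 1 + (k + 3))) i j‖ : ℝ) : ℂ) := by
    simp only [mulVec, dotProduct, Complex.ofReal_sum, hx2, mul_comm]
  rw [this, Complex.norm_real, Real.norm_of_nonneg (by positivity)]

end Pool.Agent.MP_c71a08_an.H32
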