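import Pool.Agent.MP_c71a08_an.H32.Simple
import Pool.Agent.MP_c71a08_an.H32.Up
import Pool.Agent.MP_c71a08_an.H38.Coef

namespace Pool.Agent.MP_c71a08_an.H32

open Polynomial Matrix Finset

theorem base2 {r0 ρ : ℝ} (h0 : 0 ≤ r0) (h1 : r0 < ρ) (hρ : ρ < 1) : ∃ s m0 : ℕ, ∀ m ≥ m0,
    ∀ r1 d : ℝ, 0 ≤ r1 → r1 ≤ r0 → 0 ≤ d → d ≤ 1 →
    ∃ T : Matrix (Fin (s + m + 1)) (Fin (s + m + 1)) ℂ, (∀ a, ∑ b, ‖T a b‖ ≤ 1) ∧
      (∀ z ∈ spectrum ℂ T, ‖z‖ ≤ 1 - d + d * r1) ∧ ∃ i, ∀ k,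
      (ρ ^ (m + 1))⁻¹ * |H38.cc (1 - d + d * r1) d (ρ ^ 2 - r1 ^ 2) r1 m k| ≤
        2 * ∑ j, ‖(T ^ k) i j‖ := by
  have ρ0 : 0 < ρ := h0.trans_lt h1
  obtain ⟨s, m0, H⟩ := base h0 h1 hρ
  refine ⟨s + 1, m0, fun m hm r1 d a1 a2 d0 d1 => ?_⟩
  rw [show s + 1 + m + 1 = s + (m + 1) + 1 by omega]
  obtain ⟨T, t1, t2, i, j, L, -, l2, t3⟩ := H (m + 1) (by omega) r1 a1 a2
  refine ⟨aeval T (C (d : ℂ) * X + C ((1 - d : ℝ) : ℂ)), fun a => ?_, fun z hz => ?_, i,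
    fun k => ?_⟩
  · have : ∀ b, ‖aeval T (C (d : ℂ) * X + C ((1 - d : ℝ) : ℂ)) a b‖ ≤
        d * ‖T a b‖ + if a = b then 1 - d else 0 := fun b => by
      simp only [map_add, map_mul, aeval_C, aeval_X, Algebra.algebraMap_eq_smul_one, smul_mul_assoc,
        one_mul, Matrix.add_apply, Matrix.smul_apply, smul_eq_mul, Matrix.one_apply]
      refine (norm_add_le _ _).trans (le_of_eq ?_)
      rw [norm_mul, norm_mul, Complex.norm_real, Complex.norm_real, Real.norm_of_nonneg d0,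
        Real.norm_of_nonneg (by linarith)]
      split_ifs <;> simp
    refine (sum_le_sum fun b _ => this b).trans ?_
    rw [sum_add_distrib, ← mul_sum, sum_ite_eq, if_pos (mem_univ _)]
    linarith [mul_le_of_le_one_right d0 (t1 a)]
  · rw [spectrum.map_polynomial_aeval_of_nonempty _ _
      (spectrum.nonempty_of_isAlgClosed_of_finiteDimensional ℂ T)] at hz
    obtain ⟨w, hw, rfl⟩ := hz
    have hw1 : ‖w‖ ≤ r1 := by
      rcases t2 w hw with rfl | rfl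
      · simpa using a1
      · rw [Complex.norm_real, Real.norm_of_nonneg a1]
    simp only [eval_add, eval_mul, eval_C, eval_X]
    refine (norm_add_le _ _).trans ?_
    rw [norm_mul, Complex.norm_real, Complex.norm_real, Real.norm_of_nonneg d0,
      Real.norm_of_nonneg (by linarith)]
    linarith [mul_le_mul_of_nonneg_left hw1 d0]
  · have h := t3 ((C (d : ℂ) * X + C ((1 - d : ℝ) : ℂ)) ^ k)
    have hρ' : (ρ : ℂ) ≠ 0 := by exact_mod_cast ρ0.ne'
    have e : C (-r1 / ρ : ℂ) * X + C (-r1 / ρ * r1 + ρ : ℂ) =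
        C (ρ : ℂ)⁻¹ * (C ((ρ ^ 2 - r1 ^ 2 : ℝ) : ℂ) - C (r1 : ℂ) * X) := by
      rw [mul_sub, ← mul_assoc, ← C_mul, ← C_mul, sub_eq_neg_add, ← neg_mul, ← map_neg]
      congr 2
      · congr 1; ring
      · push_cast; field_simp; ring
    have e2 : ((H38.cc (1 - d + d * r1) d (ρ ^ 2 - r1 ^ 2) r1 m k : ℝ) : ℂ) =
        ((C (d : ℂ) * X + C (d * r1 + ((1 - d : ℝ) : ℂ))) ^ k *
          (C ((ρ ^ 2 - r1 ^ 2 : ℝ) : ℂ) - C (r1 : ℂ) * X) ^ (m + 1)).coeff m := by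
      rw [H38.cc, ← Complex.coe_algebraMap, ← coeff_map]
      simp only [Polynomial.map_mul, Polynomial.map_pow, Polynomial.map_add, Polynomial.map_sub,
        map_C, map_X, Complex.coe_algebraMap]
      rw [add_comm (C _) (C (d : ℂ) * X), Complex.ofReal_add, Complex.ofReal_mul,
        add_comm _ ((d : ℂ) * r1)]
    rw [taylor_mul, taylor_pow, taylor_pow, taylor_lin, taylor_lin, e, mul_pow, mul_left_comm,
      ← C_pow, coeff_C_mul, Nat.add_sub_cancel, ← e2, mul_comm (X ^ (s + 1)), map_mul, map_pow,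
      map_pow, aeval_X] at h
    have h2 := congrArg norm h
    rw [norm_neg, norm_mul, norm_mul, norm_pow, norm_inv, Complex.norm_real, Complex.norm_real,
      Real.norm_of_nonneg ρ0.le, Real.norm_eq_abs, inv_pow] at h2
    rw [← h2, Matrix.mul_apply]
    refine mul_le_mul l2 ((norm_sum_le _ _).trans (sum_le_sum fun l _ => ?_)) (norm_nonneg _)
      two_pos.le
    rw [norm_mul]
    refine mul_le_of_le_one_right (norm_nonneg _) ?_
    simpa using pow_le T t1 (Pi.single j 1)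
      (fun l => by rw [Pi.single_apply]; split_ifs <;> simp) (s + 1) l

end Pool.Agent.MP_c71a08_an.H32
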