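import Pool.Agent.MP_c71a08_an.H32.Big7

namespace Pool.Agent.MP_c71a08_an.H32

open Filter

theorem stage2 {r : ℝ} (h0 : 0 < r) (h1 : r < 1) {L K n : ℕ} {η0 c : ℝ}
    (hK : 4 * (4 * (L + 1)) ≤ K * (1 - r ^ 2))
    (H : ∀ (s m q : ℕ) (η δ : ℝ), L * (s + 1) ≤ m → 0 < η → η ≤ η0 →
      8 * (1 - η) ^ (s + 1) ≤ η → 2 * (s + m) ≤ q → 0 ≤ δ →
      δ * (q - (s + m : ℕ) + 1) = r * (s + m : ℕ) → δ ≤ η0 →
      (s + 1 + m : ℕ) * δ ≤ 2 → (1 / 2 : ℝ) ^ (s + 1) ≤ c / 4 → 4 / c ^ 2 ≤ (s + m : ℕ) →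
      ∃ T : Matrix (Fin (s + m + 1)) (Fin (s + m + 1)) ℂ, (∀ a, ∑ b, ‖T a b‖ ≤ 1) ∧
        (∀ z ∈ spectrum ℂ T, z = r) ∧ ∃ i, aa r q (s + m) 0 *
          (((1 - η) ^ 2 - r ^ 2) ^ (s + 1 + m) * (c / 4)) ≤ 2 * ∑ b, ‖(T ^ q) i b‖)
    (hc : 0 < c) (n1 : 8 ≤ n) (n2 : L + 1 ≤ n) (n3 : (1 / 2 : ℝ) ^ (n / (L + 1)) ≤ c / 4)
    (n4 : 4 * (L + 1) * (Real.log n / n) ≤ min η0 ((1 - r ^ 2) / 4)) (n5 : 2 / η0 ≤ n)
    (e0 : 0 < η0) (n6 : 4 / c ^ 2 + 1 ≤ n) (n7 : 8 / (c * (1 - r ^ 2)) ≤ n) :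
    ∃ T : Matrix (Fin n) (Fin n) ℂ, (∀ i, ∑ j, ‖T i j‖ ≤ 1) ∧ (∀ μ ∈ spectrum ℂ T, ‖μ‖ ≤ r) ∧
      ∃ i, ((n ^ 2 - n + 1).choose (n - 1) : ℝ) * r ^ (n ^ 2 - n + 1 - (n - 1)) *
        (1 - r ^ 2) ^ (n - 1) ≤ (n : ℝ) ^ (K + 1) * ∑ j, ‖(T ^ (n ^ 2 - n + 1)) i j‖ := by
  have D0 : 0 < 1 - r ^ 2 := by nlinarith
  obtain ⟨s, hs⟩ : ∃ s, n / (L + 1) = s + 1 :=
    Nat.exists_eq_succ_of_ne_zero (Nat.div_pos n2 (by omega)).ne'
  have d1 : (L + 1) * (s + 1) ≤ n := hs ▸ Nat.mul_div_le n (L + 1)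
  have d2 : n < (L + 1) * (s + 1 + 1) := hs ▸ Nat.lt_mul_div_succ n (by omega)
  obtain ⟨m, rfl⟩ : ∃ m, n = s + m + 1 := ⟨n - (s + 1), by
    have : s + 1 ≤ n := le_trans (Nat.le_mul_of_pos_left _ (by omega)) d1
    omega⟩
  obtain ⟨N, hN⟩ : ∃ N, N = s + m := ⟨_, rfl⟩
  have hq : (s + m + 1) ^ 2 - (s + m + 1) + 1 = N * N + N + 1 := by
    have : (s + m + 1) ^ 2 = s + m + 1 + (N * N + N) := by rw [hN]; ring
    omega
  have N7 : (7 : ℝ) ≤ N := by exact_mod_cast (show 7 ≤ N by omega)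
  have hn : ((s + m + 1 : ℕ) : ℝ) = N + 1 := by rw [hN]; push_cast; ring
  rw [hs] at n3
  rw [hn] at n4 n5 n6 n7
  have lg : 1 ≤ Real.log (N + 1) := by
    rw [Real.le_log_iff_exp_le (by linarith)]
    linarith [Real.exp_one_lt_d9]
  have L0 : (0 : ℝ) ≤ L := by positivity
  obtain ⟨η, hη⟩ : ∃ η, η = 4 * (L + 1) * (Real.log (N + 1) / (N + 1)) := ⟨_, rfl⟩
  rw [← hη] at n4
  have η1 : η * (N + 1) = 4 * (L + 1) * Real.log (N + 1) := by rw [hη]; field_simp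
  have η2 : 1 ≤ η * (N + 1) := by nlinarith
  have η3 : 0 < η := by rw [hη]; positivity
  have η4 := n4.trans (min_le_right _ _)
  have ex : ∀ k : ℕ, Real.exp (-(k * Real.log (N + 1))) * (N + 1) ^ k = 1 := fun k => by
    rw [Real.exp_neg, Real.exp_nat_mul, Real.exp_log (by linarith)]; field_simp
  obtain ⟨T, q1, q2, i, q3⟩ := H s m (N * N + N + 1) η (r * N / (N * N + 2))
    (by nlinarith) η3 (n4.trans (min_le_left _ _))
    (by
      have a1 : (1 - η) ^ (s + 1) ≤ Real.exp (-η) ^ (s + 1) :=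
        pow_le_pow_left₀ (by nlinarith) (by linarith [Real.add_one_le_exp (-η)]) _
      have a2 : (N + 1 : ℝ) ≤ (L + 1) * (2 * (s + 1)) := by
        rw [← hn]
        exact_mod_cast d2.le.trans (Nat.mul_le_mul_left _ (by omega))
      have a3 : Real.exp (-η) ^ (s + 1) ≤ Real.exp (-((2 : ℕ) * Real.log (N + 1))) := by
        rw [← Real.exp_nat_mul]
        refine Real.exp_le_exp.2 (le_of_mul_le_mul_left ?_ (show (0 : ℝ) < 2 * (L + 1) by linarith))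
        push_cast
        nlinarith [mul_le_mul_of_nonneg_left a2 η3.le]
      have a4 := ex 2
      have a5 := mul_le_mul_of_nonneg_right (a1.trans a3) (show 0 ≤ (N + 1 : ℝ) ^ 2 by positivity)
      refine le_of_mul_le_mul_right ?_ (show 0 < (N + 1 : ℝ) ^ 2 by positivity)
      nlinarith)
    (by rw [← hN]; nlinarith) (by positivity)
    (by rw [← hN]; push_cast; field_simp; ring)
    (by
      rw [div_le_iff₀ e0] at n5
      rw [div_le_iff₀ (by positivity)]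
      nlinarith [mul_le_mul_of_nonneg_left n5 (show (0 : ℝ) ≤ N - 1 by linarith)])
    (by
      rw [show s + 1 + m = s + m + 1 by omega, hn, ← mul_div_assoc, div_le_iff₀ (by positivity)]
      nlinarith [mul_nonneg (sub_pos.2 h1).le (show (0 : ℝ) ≤ (N + 1) * N by positivity)])
    n3 (by rw [← hN]; linarith)
  refine ⟨T, q1, fun μ hμ => by rw [q2 μ hμ, Complex.norm_real, Real.norm_of_nonneg h0.le], i, ?_⟩
  rw [hq, hn, Nat.add_sub_cancel]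
  rw [aa, if_pos (Nat.zero_le _), Nat.sub_zero, show s + 1 + m = s + m + 1 by omega] at q3
  have b1 : (1 - r ^ 2) * Real.exp (-(2 * (2 * η / (1 - r ^ 2)))) ≤ (1 - η) ^ 2 - r ^ 2 := by
    have := mul_le_mul_of_nonneg_left (exp_le_one_sub (x := 2 * η / (1 - r ^ 2)) (by positivity)
      (by rw [div_le_iff₀ D0]; linarith)) D0.le
    rw [mul_sub, mul_div_cancel₀ _ D0.ne'] at this
    nlinarith
  have b2 : Real.exp (-(K * Real.log (N + 1))) ≤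
      Real.exp (-(2 * (2 * η / (1 - r ^ 2)))) ^ (s + m + 1) := by
    rw [← Real.exp_nat_mul, hn]
    refine Real.exp_le_exp.2 (le_of_mul_le_mul_left ?_ D0)
    have : (1 - r ^ 2) * ((N + 1) * -(2 * (2 * η / (1 - r ^ 2)))) = -(4 * (η * (N + 1))) := by
      field_simp; ring
    rw [this, η1]
    nlinarith [mul_le_mul_of_nonneg_right hK (zero_le_one.trans lg)]
  have b3 := pow_le_pow_left₀ (by positivity) b1 (s + m + 1)
  rw [mul_pow] at b3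
  have b4 := (mul_le_mul_of_nonneg_left b2 (pow_pos D0 (s + m + 1)).le).trans b3
  have b5 := (mul_le_mul_of_nonneg_left (mul_le_mul_of_nonneg_right b4 (show 0 ≤ c / 4 by positivity))
    (show 0 ≤ r ^ (N * N + N + 1 - (s + m)) * ((N * N + N + 1).choose (s + m) : ℝ) by
      positivity)).trans q3
  have b6 := mul_le_mul_of_nonneg_left b5 (show 0 ≤ (N + 1 : ℝ) ^ K by positivity)
  rw [div_le_iff₀ (by positivity)] at n7
  have S0 : 0 ≤ ∑ j, ‖(T ^ (N * N + N + 1)) i j‖ := by positivity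
  have b7 := mul_le_mul_of_nonneg_right n7
    (show 0 ≤ (N + 1 : ℝ) ^ K * ∑ j, ‖(T ^ (N * N + N + 1)) i j‖ by positivity)
  refine le_of_mul_le_mul_left ?_ (show 0 < c * (1 - r ^ 2) by positivity)
  have e := ex K
  generalize Real.exp (-(K * Real.log (N + 1))) = E at *
  calc _ = 4 * ((N + 1 : ℝ) ^ K * (r ^ (N * N + N + 1 - (s + m)) *
        ((N * N + N + 1).choose (s + m) : ℝ) * ((1 - r ^ 2) ^ (s + m + 1) * E * (c / 4)))) := by
        linear_combination (-(c * (1 - r ^ 2) ^ (s + m + 1) * r ^ (N * N + N + 1 - (s + m)) *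
          ((N * N + N + 1).choose (s + m) : ℝ))) * e
    _ ≤ _ := by rw [pow_succ (N + 1 : ℝ) K]; linarith

theorem big_lower {r : ℝ} (h0 : 0 < r) (h1 : r < 1) : ∃ K n0 : ℕ, ∀ n ≥ n0,
    ∃ T : Matrix (Fin n) (Fin n) ℂ, (∀ i, ∑ j, ‖T i j‖ ≤ 1) ∧ (∀ μ ∈ spectrum ℂ T, ‖μ‖ ≤ r) ∧
      ∃ i, ((n ^ 2 - n + 1).choose (n - 1) : ℝ) * r ^ (n ^ 2 - n + 1 - (n - 1)) *
        (1 - r ^ 2) ^ (n - 1) ≤ (n : ℝ) ^ K * ∑ j, ‖(T ^ (n ^ 2 - n + 1)) i j‖ := by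
  have D0 : 0 < 1 - r ^ 2 := by nlinarith
  obtain ⟨L, η0, e0, H⟩ := stage1 h0 h1
  obtain ⟨K, hK⟩ := exists_nat_ge (4 * (4 * (L + 1)) / (1 - r ^ 2))
  rw [div_le_iff₀ D0] at hK
  have hc := Real.exp_pos (-(2 * (4 / (1 - r ^ 2))))
  obtain ⟨k0, hk0⟩ := exists_pow_lt_of_lt_one
    (show 0 < Real.exp (-(2 * (4 / (1 - r ^ 2)))) / 4 by positivity) (show (1 / 2 : ℝ) < 1 by norm_num)
  have t1 : Tendsto (fun n : ℕ => 4 * (L + 1 : ℝ) * (Real.log n / n)) atTop (nhds 0) := by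
    simpa using ((Real.isLittleO_log_id_atTop.tendsto_div_nhds_zero.comp
      tendsto_natCast_atTop_atTop).const_mul (4 * (L + 1 : ℝ)))
  have t2 := fun x : ℝ => (tendsto_natCast_atTop_atTop (R := ℝ)).eventually_ge_atTop x
  refine ⟨K + 1, eventually_atTop.1 ?_⟩
  filter_upwards [eventually_ge_atTop 8, eventually_ge_atTop (L + 1),
    eventually_ge_atTop (k0 * (L + 1)), t1.eventually_le_const
      (lt_min e0 (show 0 < (1 - r ^ 2) / 4 by positivity)), t2 _, t2 _, t2 _]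
    with n n1 n2 n3 n4 n5 n6 n7
  refine stage2 h0 h1 hK (fun s m q η δ a1 a2 a3 a4 a5 a6 a7 a8 a9 a10 a11 =>
    H s m q η δ (4 / (1 - r ^ 2)) a1 a2 a3 a4 a5 a6 a7 a8 (a9.trans_eq (by field_simp; ring))
      (by positivity) a10 (le_of_eq_of_le ?_ a11)) hc n1 n2
    ((pow_le_pow_of_le_one (by norm_num) (by norm_num)
      ((Nat.le_div_iff_mul_le (by omega)).2 n3)).trans hk0.le) n4 n5 e0 n6 n7
  rw [← Real.exp_nat_mul, div_eq_mul_inv 4 (Real.exp _), ← Real.exp_neg]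
  congr 2; push_cast; ring

end Pool.Agent.MP_c71a08_an.H32
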