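import Mathlib

namespace Pool.Agent.MP_c71a08_an.H32

open Polynomial Matrix Finset

/-- residue of `f / (z - r) ^ (N + 1)` at `r` -/
noncomputable def Lam (r : ℂ) (N : ℕ) : ℂ[X] →ₗ[ℂ] ℂ := (lcoeff ℂ N).comp (taylor r)

theorem Lam_apply (r : ℂ) (N : ℕ) (f : ℂ[X]) : Lam r N f = (taylor r f).coeff N := rfl

theorem Lam_kill (r : ℂ) (N : ℕ) (f : ℂ[X]) : Lam r N (f * (X - C r) ^ (N + 1)) = 0 := by
  rw [Lam_apply, taylor_mul, taylor_pow, map_sub, taylor_X, taylor_C, add_sub_cancel_right,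
    coeff_mul_X_pow', if_neg (by omega)]

theorem Lam_C (r : ℂ) (N : ℕ) (c : ℂ) (f : ℂ[X]) : Lam r N (C c * f) = c * Lam r N f := by
  rw [← smul_eq_C_mul, map_smul, smul_eq_mul]

theorem Lam_monic (r : ℂ) {N : ℕ} {f : ℂ[X]} (hf : f.Monic) (h : f.natDegree ≤ N) :
    ‖Lam r N f‖ ≤ 1 := by
  rw [Lam_apply]
  rcases h.lt_or_eq with h | rfl
  · rw [coeff_eq_zero_of_natDegree_lt (by rwa [natDegree_taylor])]; simp
  · rw [coeff_taylor_natDegree, hf.leadingCoeff]; simp

theorem abs_lemma {V : Type} [Fintype V] [DecidableEq V] (r : ℂ) (N : ℕ) (φ : V → ℂ[X])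
    (T : Matrix V V ℂ) (e : V → ℂ)
    (h : ∀ a, X * φ a = ∑ b, C (T a b) * φ b + C (e a) * (X - C r) ^ (N + 1))
    (hind : ∀ c : V → ℂ, ∑ a, C (c a) * φ a = 0 → c = 0) (hφ : ∀ a, ‖Lam r N (φ a)‖ ≤ 1) :
    (∀ μ ∈ spectrum ℂ T, μ = r) ∧ ∀ q a, ‖Lam r N (X ^ q * φ a)‖ ≤ ∑ b, ‖(T ^ q) a b‖ := by
  constructor
  · intro μ hμ
    rw [spectrum.mem_iff, isUnit_iff_isUnit_det, isUnit_iff_ne_zero, not_not,
      ← exists_vecMul_eq_zero_iff] at hμ
    obtain ⟨c, hc0, hc⟩ := hμ
    rw [vecMul_sub, Algebra.algebraMap_eq_smul_one, vecMul_smul, vecMul_one, sub_eq_zero] at hc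
    have h1 : (X - C μ) * ∑ a, C (c a) * φ a = C (∑ a, c a * e a) * (X - C r) ^ (N + 1) := by
      have h2 : ∀ b, C μ * (C (c b) * φ b) = ∑ a, C (c a) * (C (T a b) * φ b) := fun b => by
        have := congrFun hc b
        simp only [Pi.smul_apply, smul_eq_mul, vecMul, dotProduct] at this
        rw [← mul_assoc, ← C_mul, this, map_sum, sum_mul]
        simp only [C_mul, mul_assoc]
      rw [sub_mul, mul_sum, mul_sum, sum_congr rfl fun b _ => h2 b, sum_comm, ← sum_sub_distrib,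
        map_sum, sum_mul]
      refine sum_congr rfl fun a _ => ?_
      rw [mul_left_comm, h, ← mul_sum, C_mul]; ring
    by_contra hne
    have h3 := congrArg (eval μ) h1
    simp only [eval_mul, eval_sub, eval_X, eval_C, sub_self, zero_mul, eval_pow] at h3
    rw [(mul_eq_zero.1 h3.symm).resolve_right (pow_ne_zero _ (sub_ne_zero.2 hne)), C_0,
      zero_mul] at h1
    exact hc0 (hind c ((mul_eq_zero.1 h1).resolve_left (X_sub_C_ne_zero μ)))
  · have key : ∀ q, T ^ q *ᵥ (fun a => Lam r N (φ a)) = fun a => Lam r N (X ^ q * φ a) := by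
      intro q
      induction q with
      | zero => simp
      | succ q ih =>
        rw [pow_succ', ← mulVec_mulVec, ih]
        ext a
        rw [pow_succ, mul_assoc, h, mul_add, map_add, ← mul_assoc, Lam_kill, add_zero, mul_sum,
          map_sum]
        exact sum_congr rfl fun b _ => by rw [mul_left_comm, Lam_C]
    intro q a
    rw [← congrFun (key q) a]
    refine (norm_sum_le _ _).trans (sum_le_sum fun b _ => ?_)
    rw [norm_mul]
    exact mul_le_of_le_one_right (norm_nonneg _) (hφ b)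

open Lagrange in
theorem gl {ι : Type} [Fintype ι] [DecidableEq ι] (r : ℂ) (s : ℕ) {ρ : ℝ} (hρ : ρ < 1) (hρ0 : 0 ≤ ρ)
    (μ : ι → ℂ) (hμ : Function.Injective μ) (hn : ∀ k, ‖μ k‖ = ρ) (g : ℂ[X])
    (hg : g.natDegree ≤ s) (b : ι → ℂ)
    (hP : (X - C r) ^ (s + Fintype.card ι + 1) = (X ^ (s + 1) - g) * nodal univ μ -
      ∑ k, C (b k * (1 - ρ : ℝ)) * nodal (univ.erase k) μ)
    (hb : ∑ j ∈ range (s + 1), ‖g.coeff j‖ + ∑ k, ‖b k‖ ≤ 1) :
    ∃ T : Matrix (Fin (s + 1) ⊕ ι) (Fin (s + 1) ⊕ ι) ℂ, (∀ a, ∑ b, ‖T a b‖ ≤ 1) ∧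
      (∀ z ∈ spectrum ℂ T, z = r) ∧ ∀ q,
      ‖Lam r (s + Fintype.card ι) (X ^ q * nodal univ μ)‖ ≤ ∑ b, ‖(T ^ q) (Sum.inl 0) b‖ := by
  have hc : ((1 - ρ : ℝ) : ℂ) ≠ 0 := by exact_mod_cast (sub_pos.2 hρ).ne'
  let T : Matrix (Fin (s + 1) ⊕ ι) (Fin (s + 1) ⊕ ι) ℂ := fromBlocks
    (of fun j j' => if (j : ℕ) = s then g.coeff j' else if (j' : ℕ) = j + 1 then 1 else 0)
    (of fun j k => if (j : ℕ) = s then b k else 0)
    (of fun _ j' => if j' = 0 then ((1 - ρ : ℝ) : ℂ) else 0) (diagonal μ)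
  have H := abs_lemma r (s + Fintype.card ι)
    (Sum.elim (fun j : Fin (s + 1) => X ^ (j : ℕ) * nodal univ μ)
      fun k => C ((1 - ρ : ℝ) : ℂ) * nodal (univ.erase k) μ) T
    (Sum.elim (fun j => if (j : ℕ) = s then 1 else 0) fun _ => 0) ?_ ?_ ?_
  · refine ⟨T, ?_, H.1, fun q => by simpa using H.2 q (Sum.inl 0)⟩
    rintro (j | k)
    · simp only [T, Fintype.sum_sum_type, fromBlocks_apply₁₁, fromBlocks_apply₁₂, of_apply]
      split_ifs with h
      · rwa [Fin.sum_univ_eq_sum_range (fun j => ‖g.coeff j‖)]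
      · rw [sum_eq_single ⟨j + 1, by omega⟩ (fun b _ hb => by
          rw [if_neg fun h => hb (Fin.ext h), norm_zero]) (by simp)]
        simp
    · simp only [T, Fintype.sum_sum_type, fromBlocks_apply₂₁, fromBlocks_apply₂₂, of_apply,
        diagonal_apply, apply_ite norm, norm_zero, sum_ite_eq, sum_ite_eq', mem_univ, if_true, hn,
        Complex.norm_real]
      rw [Real.norm_of_nonneg (by linarith)]; linarith
  · rintro (j | k)
    · simp only [T, Fintype.sum_sum_type, fromBlocks_apply₁₁, fromBlocks_apply₁₂, of_apply,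
        Sum.elim_inl, Sum.elim_inr]
      split_ifs with h
      · rw [hP, Fin.sum_univ_eq_sum_range (fun j => C (g.coeff j) * (X ^ j * nodal univ μ)), h]
        simp only [← mul_assoc, ← C_mul, ← sum_mul]
        rw [← as_sum_range_C_mul_X_pow' g (by omega), C_1]
        ring
      · rw [sum_eq_single ⟨j + 1, by omega⟩ (fun b _ hb => by
          rw [if_neg fun h => hb (Fin.ext h), C_0, zero_mul]) (by simp)]
        simp; ring
    · simp only [T, Fintype.sum_sum_type, fromBlocks_apply₂₁, fromBlocks_apply₂₂, of_apply,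
        Sum.elim_inl, Sum.elim_inr, diagonal_apply, apply_ite C, C_0, ite_mul, zero_mul,
        sum_ite_eq, sum_ite_eq', mem_univ, if_true]
      rw [nodal_eq_mul_nodal_erase (mem_univ k)]
      simp; ring
  · intro c h
    rw [Fintype.sum_sum_type] at h
    simp only [Sum.elim_inl, Sum.elim_inr] at h
    have h1 : ∀ k, c (Sum.inr k) = 0 := fun k => by
      have := congrArg (eval (μ k)) h
      simp only [eval_add, eval_finsetSum, eval_mul, eval_C, eval_nodal_at_node (mem_univ k),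
        mul_zero, sum_const_zero, zero_add, eval_zero] at this
      rw [sum_eq_single k (fun l _ hl => by
        rw [eval_nodal_at_node (mem_erase.2 ⟨hl.symm, mem_univ _⟩), mul_zero, mul_zero])
        (by simp)] at this
      exact (mul_eq_zero.1 this).resolve_right (mul_ne_zero hc (eval_nodal_not_at_node
        fun l hl h => (mem_erase.1 hl).1 (hμ h).symm))
    simp only [h1, C_0, zero_mul, sum_const_zero, add_zero, ← mul_assoc, ← sum_mul] at h
    have h2 := (mul_eq_zero.1 h).resolve_right nodal_ne_zero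
    ext (j | k)
    · have := congrArg (coeff · j) h2
      simpa [finsetSum_coeff, coeff_X_pow, Fin.val_inj] using this
    · exact h1 k
  · rintro (j | k)
    · refine Lam_monic _ ((monic_X_pow _).mul nodal_monic) ?_
      rw [Sum.elim_inl, (monic_X_pow _).natDegree_mul nodal_monic, natDegree_X_pow, natDegree_nodal,
        card_univ]
      omega
    · rw [Sum.elim_inr, Lam_C, norm_mul, Complex.norm_real, Real.norm_of_nonneg (by linarith)]
      refine mul_le_one₀ (by linarith) (norm_nonneg _) (Lam_monic _ nodal_monic ?_)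
      rw [natDegree_nodal]
      exact (card_le_univ _).trans (by omega)

end Pool.Agent.MP_c71a08_an.H32
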