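import Pool.Agent.MP_c71a08_an.H32.Big1

namespace Pool.Agent.MP_c71a08_an.H32

open Polynomial Finset

/-- weighted `ℓ¹` norm of the coefficients -/
noncomputable def Nt (t : ℝ) (f : ℂ[X]) : ℝ := ∑ j ∈ f.support, ‖f.coeff j‖ * t ^ j

variable {t : ℝ}

theorem Nt_nonneg (ht : 0 ≤ t) (f : ℂ[X]) : 0 ≤ Nt t f := sum_nonneg fun _ _ => by positivity

theorem sum_le_Nt (ht : 0 ≤ t) (f : ℂ[X]) (A : Finset ℕ) :
    ∑ j ∈ A, ‖f.coeff j‖ * t ^ j ≤ Nt t f := by
  rw [Nt, sum_subset (subset_union_left (s₁ := f.support) (s₂ := A)) fun j _ hj => by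
    simp [notMem_support_iff.1 hj]]
  exact sum_le_sum_of_subset_of_nonneg subset_union_right fun _ _ _ => by positivity

theorem Nt_range {f : ℂ[X]} {N : ℕ} (h : f.natDegree < N) :
    Nt t f = ∑ j ∈ range N, ‖f.coeff j‖ * t ^ j :=
  sum_subset (supp_subset_range h) fun j _ hj => by simp [notMem_support_iff.1 hj]

theorem Nt_add (ht : 0 ≤ t) (f g : ℂ[X]) : Nt t (f + g) ≤ Nt t f + Nt t g := by
  refine le_trans ?_ (add_le_add (sum_le_Nt ht f (f + g).support) (sum_le_Nt ht g (f + g).support))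
  rw [← sum_add_distrib]
  refine sum_le_sum fun j _ => ?_
  rw [← add_mul, coeff_add]
  exact mul_le_mul_of_nonneg_right (norm_add_le _ _) (by positivity)

theorem Nt_C_mul (ht : 0 ≤ t) (a : ℂ) (f : ℂ[X]) : Nt t (C a * f) ≤ ‖a‖ * Nt t f := by
  refine le_trans (le_of_eq ?_)
    (mul_le_mul_of_nonneg_left (sum_le_Nt ht f (C a * f).support) (norm_nonneg a))
  rw [mul_sum]
  exact sum_congr rfl fun j _ => by rw [coeff_C_mul, norm_mul, mul_assoc]

theorem Nt_sub (ht : 0 ≤ t) (f g : ℂ[X]) : Nt t (f - g) ≤ Nt t f + Nt t g := by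
  have := Nt_C_mul ht (-1) g
  simp only [map_neg, map_one, neg_mul, one_mul, norm_neg, norm_one] at this
  rw [sub_eq_add_neg]
  linarith [Nt_add ht f (-g)]

theorem Nt_one : Nt t 1 = 1 := by rw [Nt_range (N := 1) (by simp)]; simp

theorem Nt_X_mul (ht : 0 ≤ t) (f : ℂ[X]) : Nt t (X * f) ≤ t * Nt t f := by
  rw [Nt_range (N := (X * f).natDegree + 1) (by omega), sum_range_succ']
  simp only [coeff_X_mul, mul_coeff_zero, coeff_X_zero, zero_mul, norm_zero, add_zero, pow_succ',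
    mul_left_comm _ t, ← mul_sum]
  exact mul_le_mul_of_nonneg_left (sum_le_Nt ht f _) ht

theorem Nt_X_pow_mul (ht : 0 ≤ t) (i : ℕ) (f : ℂ[X]) : Nt t (X ^ i * f) ≤ t ^ i * Nt t f := by
  induction i with
  | zero => simp
  | succ i ih =>
    rw [pow_succ', pow_succ', mul_assoc, mul_assoc]
    exact (Nt_X_mul ht _).trans (mul_le_mul_of_nonneg_left ih ht)

theorem Nt_sum (ht : 0 ≤ t) {ι : Type} (A : Finset ι) (f : ι → ℂ[X]) :
    Nt t (∑ i ∈ A, f i) ≤ ∑ i ∈ A, Nt t (f i) :=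
  le_sum_of_subadditive _ (by simp [Nt]) (Nt_add ht) A f

theorem Nt_mul (ht : 0 ≤ t) (f g : ℂ[X]) : Nt t (f * g) ≤ Nt t f * Nt t g := by
  conv_lhs => rw [f.as_sum_support_C_mul_X_pow, sum_mul]
  refine (Nt_sum ht _ _).trans ?_
  rw [Nt, sum_mul]
  refine sum_le_sum fun j _ => ?_
  rw [mul_assoc, mul_assoc]
  exact (Nt_C_mul ht _ _).trans (mul_le_mul_of_nonneg_left (Nt_X_pow_mul ht _ _) (norm_nonneg _))

theorem Nt_mul_le (ht : 0 ≤ t) {f g : ℂ[X]} {a b : ℝ} (ha : Nt t f ≤ a) (hb : Nt t g ≤ b) :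
    Nt t (f * g) ≤ a * b :=
  (Nt_mul ht f g).trans (mul_le_mul ha hb (Nt_nonneg ht _) ((Nt_nonneg ht _).trans ha))

theorem Nt_pow_le (ht : 0 ≤ t) {f : ℂ[X]} {a : ℝ} (ha : Nt t f ≤ a) (n : ℕ) :
    Nt t (f ^ n) ≤ a ^ n := by
  induction n with
  | zero => simp [Nt_one]
  | succ n ih => rw [pow_succ, pow_succ]; exact Nt_mul_le ht ih ha

theorem Nt_prod_le (ht : 0 ≤ t) {a : ℝ} (s : Multiset ℂ) (f : ℂ → ℂ[X])
    (h : ∀ u ∈ s, Nt t (f u) ≤ a) : Nt t (s.map f).prod ≤ a ^ s.card := by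
  induction s using Multiset.induction_on with
  | empty => simp [Nt_one]
  | cons x s ih =>
    rw [Multiset.map_cons, Multiset.prod_cons, Multiset.card_cons, pow_succ']
    exact Nt_mul_le ht (h x (Multiset.mem_cons_self _ _))
      (ih fun y hy => h y (Multiset.mem_cons_of_mem hy))

theorem Nt_lin (ht : 0 ≤ t) (a b : ℂ) : Nt t (C a * X + C b) ≤ ‖a‖ * t + ‖b‖ := by
  have h1 := Nt_X_mul ht 1
  have h2 := Nt_C_mul ht b 1
  rw [mul_one, Nt_one, mul_one] at h1 h2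
  exact (Nt_add ht _ _).trans (add_le_add ((Nt_C_mul ht _ _).trans
    (mul_le_mul_of_nonneg_left h1 (norm_nonneg _))) h2)

theorem eval_le_Nt {z : ℂ} (hz : ‖z‖ ≤ t) (f : ℂ[X]) : ‖f.eval z‖ ≤ Nt t f := by
  rw [eval_eq_sum, Polynomial.sum]
  refine (norm_sum_le _ _).trans (sum_le_sum fun j _ => ?_)
  rw [norm_mul, norm_pow]
  exact mul_le_mul_of_nonneg_left (pow_le_pow_left₀ (norm_nonneg _) hz j) (norm_nonneg _)

theorem Nt_up (ht : 1 ≤ t) {f : ℂ[X]} {s : ℕ} (h : f.natDegree ≤ s) : Nt t f ≤ t ^ s * Nt 1 f := by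
  rw [Nt, Nt, mul_sum]
  refine sum_le_sum fun j hj => ?_
  rw [one_pow, mul_one, mul_comm]
  exact mul_le_mul_of_nonneg_right
    (pow_le_pow_right₀ ht ((le_natDegree_of_mem_supp j hj).trans h)) (norm_nonneg _)

theorem Nt_down (h0 : 0 ≤ t) (ht : t ≤ 1) {f : ℂ[X]} {s : ℕ} (h : f.natDegree ≤ s) :
    t ^ s * Nt 1 f ≤ Nt t f := by
  rw [Nt, Nt, mul_sum]
  refine sum_le_sum fun j hj => ?_
  rw [one_pow, mul_one, mul_comm]
  exact mul_le_mul_of_nonneg_left
    (pow_le_pow_of_le_one h0 ht ((le_natDegree_of_mem_supp j hj).trans h)) (norm_nonneg _)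

theorem Nt_mono (h0 : 0 ≤ t) {t' : ℝ} (h : t ≤ t') (f : ℂ[X]) : Nt t f ≤ Nt t' f :=
  sum_le_sum fun j _ => mul_le_mul_of_nonneg_left (pow_le_pow_left₀ h0 h j) (norm_nonneg _)

theorem Nt_div1 (ht : 0 ≤ t) {μ a : ℂ} (hμ : ‖μ‖ ≤ 1) (q : ℂ[X]) :
    (t - 1) * Nt t q ≤ Nt t ((X - C μ) * q + C a) := by
  set f := (X - C μ) * q + C a with hf
  have h1 : ∀ g : ℂ[X], ∑ j ∈ range (q.natDegree + 1), ‖g.coeff (j + 1)‖ * t ^ (j + 1) ≤ Nt t g :=
    fun g => le_trans (by rw [sum_range_succ' _ (q.natDegree + 1)]; simp)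
      (sum_le_Nt ht g (range (q.natDegree + 1 + 1)))
  have h2 : t * Nt t q ≤ Nt t f + Nt t q := by
    refine le_trans ?_ (add_le_add (h1 f) (h1 q))
    rw [Nt_range (N := q.natDegree + 1) (by omega), mul_sum, ← sum_add_distrib]
    refine sum_le_sum fun j _ => ?_
    have e : q.coeff j = f.coeff (j + 1) + μ * q.coeff (j + 1) := by
      simp [hf, sub_mul, coeff_X_mul, coeff_C_succ]
    rw [← add_mul, mul_left_comm, ← pow_succ']
    refine mul_le_mul_of_nonneg_right ?_ (by positivity)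
    rw [e]
    refine (norm_add_le _ _).trans (add_le_add le_rfl ?_)
    rw [norm_mul]
    exact mul_le_of_le_one_left (norm_nonneg _) hμ
  linarith

theorem Nt_div (ht : 1 ≤ t) {ι : Type} [DecidableEq ι] (μ : ι → ℂ) (hμ : ∀ k, ‖μ k‖ ≤ 1)
    (f : ℂ[X]) (A : Finset ι) : ∃ q R : ℂ[X], f = q * Lagrange.nodal A μ + R ∧
    R.degree < A.card ∧ (t - 1) ^ A.card * Nt t q ≤ Nt t f := by
  induction A using Finset.induction_on with
  | empty => exact ⟨f, 0, by simp, by simp, by simp⟩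
  | insert i A hi ih =>
    obtain ⟨q, R, h1, h2, h3⟩ := ih
    have e : q = (X - C (μ i)) * (q /ₘ (X - C (μ i))) + C (q.eval (μ i)) := by
      rw [← modByMonic_X_sub_C_eq_C_eval, add_comm, modByMonic_add_div]
    refine ⟨q /ₘ (X - C (μ i)), C (q.eval (μ i)) * Lagrange.nodal A μ + R, ?_, ?_, ?_⟩
    · rw [Lagrange.nodal_insert_eq_nodal hi, h1]
      linear_combination Lagrange.nodal A μ * e
    · rw [card_insert_of_notMem hi]
      refine (degree_add_le _ _).trans_lt (max_lt ?_ (h2.trans (by exact_mod_cast lt_add_one _)))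
      rw [← smul_eq_C_mul]
      exact (degree_smul_le _ _).trans_lt (by
        rw [Lagrange.degree_nodal]; exact_mod_cast lt_add_one _)
    · have := Nt_div1 (by linarith : 0 ≤ t) (a := q.eval (μ i)) (hμ i) (q /ₘ (X - C (μ i)))
      rw [← e] at this
      rw [card_insert_of_notMem hi, pow_succ, mul_assoc]
      exact (mul_le_mul_of_nonneg_left this (pow_nonneg (by linarith) _)).trans h3

theorem Nt_trunc (ht : 0 ≤ t) (f : ℂ[X]) (s : ℕ) : ∃ h : ℂ[X], h.natDegree ≤ s ∧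
    X ^ (s + 1) ∣ f - h ∧ Nt t h ≤ Nt t f := by
  have hc : ∀ j, (∑ i ∈ range (s + 1), monomial i (f.coeff i)).coeff j =
      if j < s + 1 then f.coeff j else 0 := fun j => by
    simp [finsetSum_coeff, coeff_monomial]
  have hd : (∑ i ∈ range (s + 1), monomial i (f.coeff i)).natDegree ≤ s :=
    natDegree_le_iff_coeff_eq_zero.2 fun j hj => by rw [hc, if_neg (by omega)]
  refine ⟨_, hd, X_pow_dvd_iff.2 fun j hj => by rw [coeff_sub, hc, if_pos hj, sub_self], ?_⟩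
  rw [Nt_range (N := s + 1) (by omega)]
  refine le_trans (le_of_eq (sum_congr rfl fun j hj => ?_)) (sum_le_Nt ht f (range (s + 1)))
  rw [hc, if_pos (mem_range.1 hj)]

end Pool.Agent.MP_c71a08_an.H32
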