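import Pool.Agent.MP_c71a08_an.H32.Big2

namespace Pool.Agent.MP_c71a08_an.H32

open Polynomial Finset Lagrange ComplexConjugate

noncomputable def Uu (u : Multiset ℂ) : ℂ[X] := (u.map fun x => X - C x).prod

noncomputable def Us (ρ : ℝ) (u : Multiset ℂ) : ℂ[X] :=
  (u.map fun x : ℂ => C (-conj x / ρ) * X + C (ρ : ℂ)).prod

theorem Uu_cons (x : ℂ) (u : Multiset ℂ) : Uu (x ::ₘ u) = (X - C x) * Uu u := by simp [Uu]
theorem Us_cons (ρ : ℝ) (x : ℂ) (u : Multiset ℂ) :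
    Us ρ (x ::ₘ u) = (C (-conj x / ρ) * X + C (ρ : ℂ)) * Us ρ u := by simp [Us]

theorem Us_basic {p ρ : ℝ} (hρ : 0 < ρ) (u : Multiset ℂ) (hu : ∀ x ∈ u, ‖x‖ ≤ p) :
    (Us ρ u).natDegree ≤ u.card ∧ ‖(Us ρ u).coeff u.card‖ ≤ (p / ρ) ^ u.card ∧
      ‖(Uu u).eval 0‖ ≤ p ^ u.card := by
  induction u using Multiset.induction_on with
  | empty => simp [Us, Uu]
  | cons x u ih =>
    obtain ⟨h1, h2, h3⟩ := ih fun y hy => hu y (Multiset.mem_cons_of_mem hy)
    have hx := hu x (Multiset.mem_cons_self _ _)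
    have hp := (norm_nonneg _).trans hx
    rw [Us_cons, Uu_cons, Multiset.card_cons, pow_succ', pow_succ', add_comm u.card 1]
    refine ⟨natDegree_mul_le.trans (add_le_add natDegree_linear_le h1), ?_, ?_⟩
    · rw [coeff_mul_add_eq_of_natDegree_le natDegree_linear_le h1, norm_mul]
      refine mul_le_mul ?_ h2 (norm_nonneg _) (by positivity)
      simp only [coeff_add, coeff_C_mul, coeff_X_one, mul_one, coeff_C_succ, add_zero, norm_div,
        norm_neg, Complex.norm_conj, Complex.norm_real, Real.norm_of_nonneg hρ.le]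
      gcongr
    · rw [eval_mul, norm_mul]
      exact mul_le_mul (by simpa using hx) h3 (norm_nonneg _) hp

theorem prod_lt (s : Multiset ℂ) (f g : ℂ → ℂ) (h : ∀ x ∈ s, ‖f x‖ < ‖g x‖) (hs : s ≠ 0) :
    ‖(s.map f).prod‖ < ‖(s.map g).prod‖ := by
  induction s using Multiset.induction_on with
  | empty => exact absurd rfl hs
  | cons x s ih =>
    have hx := h x (Multiset.mem_cons_self _ _)
    rcases eq_or_ne s 0 with rfl | h0
    · simpa using hx
    · simp only [Multiset.map_cons, Multiset.prod_cons, norm_mul]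
      exact mul_lt_mul'' hx (ih (fun y hy => h y (Multiset.mem_cons_of_mem hy)) h0)
        (norm_nonneg _) (norm_nonneg _)

theorem fac_id {ρ : ℝ} (hρ : 0 < ρ) (x z : ℂ) :
    ρ ^ 2 * (‖z - x‖ ^ 2 - ‖-conj x / ρ * z + ρ‖ ^ 2) = (‖z‖ ^ 2 - ρ ^ 2) * (ρ ^ 2 - ‖x‖ ^ 2) := by
  have h : (ρ : ℂ) ≠ 0 := by exact_mod_cast hρ.ne'
  have e : ‖-conj x / ρ * z + ρ‖ = ‖-conj x * z + ρ * ρ‖ / ρ := by
    rw [show -conj x / ρ * z + ρ = (-conj x * z + ρ * ρ) / ρ by field_simp, norm_div,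
      Complex.norm_real, Real.norm_of_nonneg hρ.le]
  rw [e, div_pow, mul_sub, mul_div_cancel₀ _ (by positivity)]
  simp only [Complex.sq_norm, Complex.normSq_apply]
  simp
  ring

theorem root_norm {ρ : ℝ} (hρ : 0 < ρ) {u : Multiset ℂ} (hu : ∀ x ∈ u, ‖x‖ < ρ) (h0 : u ≠ 0) {z : ℂ}
    (h : ‖(Uu u).eval z‖ = ‖(Us ρ u).eval z‖) : ‖z‖ = ρ := by
  simp only [Uu, Us, eval_multiset_prod, Multiset.map_map, Function.comp_def, eval_sub, eval_add,
    eval_mul, eval_X, eval_C] at h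
  have hx : ∀ x ∈ u, 0 < ρ ^ 2 - ‖x‖ ^ 2 := fun x hx =>
    sub_pos.2 (pow_lt_pow_left₀ (hu x hx) (norm_nonneg _) two_ne_zero)
  rcases lt_trichotomy ‖z‖ ρ with hz | hz | hz
  · refine absurd h (prod_lt u _ _ (fun x hxu => ?_) h0).ne
    have := mul_neg_of_neg_of_pos
      (sub_neg.2 (pow_lt_pow_left₀ hz (norm_nonneg _) two_ne_zero)) (hx x hxu)
    rw [← fac_id hρ] at this
    exact lt_of_pow_lt_pow_left₀ 2 (norm_nonneg _) (by nlinarith [pow_pos hρ 2])
  · exact hz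
  · refine absurd h (prod_lt u _ _ (fun x hxu => ?_) h0).ne'
    have := mul_pos (sub_pos.2 (pow_lt_pow_left₀ hz hρ.le two_ne_zero)) (hx x hxu)
    rw [← fac_id hρ] at this
    exact lt_of_pow_lt_pow_left₀ 2 (norm_nonneg _) (by nlinarith [pow_pos hρ 2])

theorem logder {ρ : ℝ} (hρ : 0 < ρ) {z : ℂ} (hz : ‖z‖ = ρ) (u : Multiset ℂ)
    (hu : ∀ x ∈ u, ‖x‖ < ρ) : (Uu u).eval z ≠ 0 ∧ ∃ w : ℝ, 0 ≤ w ∧ (u ≠ 0 → 0 < w) ∧
      z * ((Uu u).derivative.eval z * (Us ρ u).eval z - (Uu u).eval z * (Us ρ u).derivative.eval z)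
        = (Uu u).eval z * (Us ρ u).eval z * w := by
  induction u using Multiset.induction_on with
  | empty => exact ⟨by simp [Uu], 0, le_rfl, fun h => absurd rfl h, by simp [Uu, Us]⟩
  | cons x u ih =>
    obtain ⟨h1, w, w0, -, h2⟩ := ih fun y hy => hu y (Multiset.mem_cons_of_mem hy)
    have hx := hu x (Multiset.mem_cons_self _ _)
    have hzx : z - x ≠ 0 := sub_ne_zero.2 fun h => by rw [← h, hz] at hx; exact lt_irrefl _ hx
    have hp : 0 < (ρ ^ 2 - ‖x‖ ^ 2) / ‖z - x‖ ^ 2 :=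
      div_pos (sub_pos.2 (pow_lt_pow_left₀ hx (norm_nonneg _) two_ne_zero)) (by positivity)
    refine ⟨by simpa [Uu_cons, hzx] using h1, w + (ρ ^ 2 - ‖x‖ ^ 2) / ‖z - x‖ ^ 2, by positivity,
      fun _ => by positivity, ?_⟩
    have h : (ρ : ℂ) ≠ 0 := by exact_mod_cast hρ.ne'
    have e1 : (ρ : ℂ) ^ 2 = z * conj z := by rw [Complex.mul_conj', hz]
    have e2 : (z - x) * (-conj x / ρ * z + ρ) * (((ρ ^ 2 - ‖x‖ ^ 2) / ‖z - x‖ ^ 2 : ℝ) : ℂ) =
        z * ((-conj x / ρ * z + ρ) - (z - x) * (-conj x / ρ)) := by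
      have hc : conj (z - x) ≠ 0 := (_root_.map_ne_zero _).2 hzx
      push_cast
      rw [← Complex.mul_conj', ← Complex.mul_conj' (z - x)]
      rw [map_sub] at hc ⊢
      field_simp
      linear_combination (ρ ^ 2 - x * conj x) * e1
    simp only [Uu_cons, Us_cons, derivative_mul, derivative_sub, derivative_add, derivative_X,
      derivative_C, eval_mul, eval_add, eval_sub, eval_X, eval_C, eval_one, eval_zero,
      Complex.ofReal_add]
    linear_combination (z - x) * (-conj x / ρ * z + ρ) * h2 -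
      (Uu u).eval z * (Us ρ u).eval z * e2

theorem clark {p ρ : ℝ} (hρ : 0 < ρ) (hp : p < ρ) (u : Multiset ℂ) (hu : ∀ x ∈ u, ‖x‖ ≤ p)
    (h0 : u ≠ 0) (hτ : (p / ρ) ^ u.card ≤ 1 / 2) {κ : ℂ} (hκ : ‖κ‖ = 1) :
    ∃ (Z : Finset ℂ) (l : ℂ), Z.card = u.card ∧ (∀ z ∈ Z, ‖z‖ = ρ) ∧
      ‖1 - l‖ ≤ (p / ρ) ^ u.card ∧
      Uu u - C κ * Us ρ u = C l * nodal univ (Subtype.val : Z → ℂ) ∧
      ∑ k : Z, ‖nodalWeight univ (Subtype.val : Z → ℂ) k * (Uu u).eval (k : ℂ)‖ ≤ 2 * ρ := by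
  obtain ⟨b1, b2, b3⟩ := Us_basic hρ u hu
  have hu' : ∀ x ∈ u, ‖x‖ < ρ := fun x hx => (hu x hx).trans_lt hp
  have hUm : (Uu u).Monic := monic_multisetProd_X_sub_C u
  have hUd : (Uu u).natDegree = u.card := natDegree_multiset_prod_X_sub_C_eq_card u
  set F := Uu u - C κ * Us ρ u with hF
  have hl : ‖1 - F.coeff u.card‖ ≤ (p / ρ) ^ u.card := by
    rw [hF, coeff_sub, coeff_C_mul, ← hUd, hUm.coeff_natDegree, hUd, sub_sub_cancel, norm_mul, hκ,
      one_mul]
    exact b2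
  have hl0 : F.coeff u.card ≠ 0 := fun h => by rw [h] at hl; norm_num at hl; linarith
  have hFd : F.natDegree = u.card := natDegree_eq_of_le_of_coeff_ne_zero
    ((natDegree_sub_le _ _).trans (max_le hUd.le ((natDegree_C_mul_le _ _).trans b1))) hl0
  have hF0 : F ≠ 0 := fun h => hl0 (by rw [h, coeff_zero])
  have key : ∀ z ∈ F.roots, ‖z‖ = ρ ∧ ∃ w : ℝ, 0 < w ∧ (Uu u).eval z ≠ 0 ∧
      z * F.derivative.eval z = (Uu u).eval z * w := by
    intro z hz
    have e : (Uu u).eval z = κ * (Us ρ u).eval z := by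
      simpa [hF, sub_eq_zero] using (isRoot_of_mem_roots hz).eq_zero
    have hn := root_norm hρ hu' h0 (z := z) (by rw [e, norm_mul, hκ, one_mul])
    obtain ⟨h1, w, -, w0, h2⟩ := logder hρ hn u hu'
    refine ⟨hn, w, w0 h0, h1, mul_right_cancel₀ (right_ne_zero_of_mul (e ▸ h1)) ?_⟩
    simp only [hF, derivative_sub, derivative_C_mul, eval_sub, eval_mul, eval_C]
    linear_combination h2 + z * (Us ρ u).derivative.eval z * e
  have hnd : F.roots.Nodup := Multiset.nodup_iff_count_le_one.2 fun z => by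
    rw [count_roots]
    by_contra hc
    obtain ⟨r1, r2⟩ := (one_lt_rootMultiplicity_iff_isRoot hF0).1 (not_le.1 hc)
    obtain ⟨-, w, w0, h1, h2⟩ := key z ((mem_roots hF0).2 r1)
    rw [r2.eq_zero, mul_zero] at h2
    exact mul_ne_zero h1 (by exact_mod_cast w0.ne') h2.symm
  let Z : Finset ℂ := ⟨F.roots, hnd⟩
  have hZ : Z.card = u.card := by rw [← hFd, ← IsAlgClosed.card_roots_eq_natDegree]; rfl
  have hN : F = C (F.coeff u.card) * nodal univ (Subtype.val : Z → ℂ) := by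
    rw [nodal, prod_coe_sort Z fun x => X - C x, ← hFd]
    exact (IsAlgClosed.splits F).eq_prod_roots
  refine ⟨Z, F.coeff u.card, hZ, fun z hz => (key z hz).1, hl, hN, ?_⟩
  generalize F.coeff u.card = l at hN hl0
  choose! w w0 w1 w2 using fun z hz => (key z hz).2
  have hz0 : ∀ k : Z, (k : ℂ) ≠ 0 := fun k h => by
    have := (key k k.2).1
    rw [h, norm_zero] at this
    exact hρ.ne this
  have hw : ∀ k : Z, nodalWeight univ (Subtype.val : Z → ℂ) k * (Uu u).eval (k : ℂ) =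
      l * k * ((w k)⁻¹ : ℝ) := fun k => by
    have h2 := w2 k k.2
    have h3 : ((w k : ℝ) : ℂ) ≠ 0 := by exact_mod_cast (w0 k k.2).ne'
    rw [hN, derivative_C_mul, eval_mul, eval_C] at h2
    have h4 : eval (k : ℂ) (derivative (nodal univ (Subtype.val : Z → ℂ))) ≠ 0 := fun h => by
      rw [h, mul_zero, mul_zero] at h2
      exact mul_ne_zero (w1 k k.2) h3 h2.symm
    rw [nodalWeight_eq_eval_derivative_nodal (mem_univ k)]
    push_cast
    field_simp
    linear_combination -h2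
  have hdeg : (Uu u - nodal univ (Subtype.val : Z → ℂ)).degree < (univ : Finset Z).card := by
    have := degree_sub_lt_left (p := Uu u) (q := nodal univ (Subtype.val : Z → ℂ)) (by
      rw [degree_nodal, degree_eq_natDegree hUm.ne_zero, hUd, card_univ, Fintype.card_coe, hZ])
      hUm.ne_zero (by rw [hUm.leadingCoeff, nodal_monic.leadingCoeff])
    rwa [degree_eq_natDegree hUm.ne_zero, hUd, ← hZ, ← Fintype.card_coe, ← card_univ] at this
  have hi := congrArg (eval 0) (eq_interpolate Subtype.val_injective.injOn hdeg)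
  have hk : ∀ k : Z, nodalWeight univ (Subtype.val : Z → ℂ) k * (0 - (k : ℂ))⁻¹ *
      eval (k : ℂ) (Uu u - nodal univ (Subtype.val : Z → ℂ)) = -(l * ((w k)⁻¹ : ℝ)) := fun k => by
    rw [eval_sub, eval_nodal_at_node (mem_univ k), sub_zero, mul_right_comm, hw]
    have := hz0 k
    field_simp
    ring
  rw [eval_interpolate_not_at_node _ fun k _ => (hz0 k).symm, sum_congr rfl fun k _ => hk k,
    sum_neg_distrib, ← mul_sum, ← Complex.ofReal_sum, eval_sub] at hi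
  have hN0 : ‖eval 0 (nodal univ (Subtype.val : Z → ℂ))‖ = ρ ^ u.card := by
    rw [eval_nodal, norm_prod, prod_congr rfl fun k _ => show _ = ρ by simpa using (key k k.2).1]
    simp [hZ]
  have hS : 0 ≤ ∑ k : Z, (w k)⁻¹ := sum_nonneg fun k _ => (inv_pos.2 (w0 k k.2)).le
  have h5 := congrArg norm hi
  rw [norm_mul, norm_neg, norm_mul, hN0, Complex.norm_real, Real.norm_of_nonneg hS] at h5
  have h6 := norm_sub_le (eval 0 (Uu u)) (eval 0 (nodal univ (Subtype.val : Z → ℂ)))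
  have h7 : p ^ u.card ≤ ρ ^ u.card := by
    rw [div_pow, div_le_iff₀ (by positivity)] at hτ
    nlinarith [pow_pos hρ u.card]
  have h8 : ‖l‖ * ∑ k : Z, (w k)⁻¹ ≤ 2 :=
    le_of_mul_le_mul_left (by linarith) (pow_pos hρ u.card)
  refine le_trans (le_of_eq ?_) (mul_le_mul_of_nonneg_right h8 hρ.le)
  rw [mul_sum, sum_mul]
  refine sum_congr rfl fun k _ => ?_
  rw [hw, norm_mul, norm_mul, (key k k.2).1, Complex.norm_real,
    Real.norm_of_nonneg (inv_pos.2 (w0 k k.2)).le]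
  ring

end Pool.Agent.MP_c71a08_an.H32
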