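import Pool.Agent.MP_c71a08_an.H32.Big3

namespace Pool.Agent.MP_c71a08_an.H32

open Polynomial Finset Lagrange

theorem transfer {V : Type} [Fintype V] [DecidableEq V] {n : ℕ} (h : Fintype.card V = n)
    (T : Matrix V V ℂ) : ∃ (T' : Matrix (Fin n) (Fin n) ℂ) (e : V ≃ Fin n),
    spectrum ℂ T' = spectrum ℂ T ∧ ∀ q a, ∑ j, ‖(T' ^ q) (e a) j‖ = ∑ b, ‖(T ^ q) a b‖ := by
  let e := Fintype.equivFinOfCardEq h
  refine ⟨Matrix.reindexAlgEquiv ℂ ℂ e T, e, AlgEquiv.spectrum_eq _ _, fun q a => ?_⟩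
  rw [← map_pow, ← e.sum_comp]
  simp

theorem core {r p ρ R θ : ℝ} {s : ℕ} {u : Multiset ℂ} {W : ℂ[X]} (hp0 : 0 ≤ p) (hp : p < ρ)
    (hρ : ρ < 1) (hR : 1 < R) (hθ : p / ρ ≤ θ) (hu : ∀ x ∈ u, ‖x‖ ≤ p) (h0 : u ≠ 0)
    (hτ : (p / ρ) ^ u.card ≤ 1 / 2)
    (hW : (X - C (r : ℂ)) ^ (s + u.card + 1) = X ^ (s + 1) * Uu u + W)
    (H1 : ∀ z : ℂ, ‖z‖ = ρ → 2 * ‖W.eval z‖ ≤ ‖z - r‖ ^ (s + u.card + 1))
    (H2 : Nt R W + 4 * R ^ (s + 1) * (θ * R + 1) ^ u.card ≤ (R - 1) ^ u.card / 2)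
    (H3 : 8 * ρ ^ (s + 1) ≤ 1 - ρ) {κ : ℂ} (hκ : ‖κ‖ = 1) :
    ∃ T : Matrix (Fin (s + u.card + 1)) (Fin (s + u.card + 1)) ℂ, (∀ a, ∑ b, ‖T a b‖ ≤ 1) ∧
      (∀ z ∈ spectrum ℂ T, z = r) ∧ ∃ i, ∀ q,
      ‖Lam r (s + u.card) (X ^ q * (Uu u - C κ * Us ρ u))‖ ≤ 2 * ∑ b, ‖(T ^ q) i b‖ := by
  have hρ0 : 0 < ρ := hp0.trans_lt hp
  have hR0 : 0 ≤ R := by linarith
  obtain ⟨Z, l, hZ, hn, hl, hN, hS⟩ := clark hρ0 hp u hu h0 hτ hκ
  have hc : Fintype.card Z = u.card := by rw [Fintype.card_coe, hZ]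
  have l1 : ‖l‖ ≤ 2 := by
    have := norm_sub_norm_le l 1
    rw [norm_sub_rev, norm_one] at this; linarith
  have l2 : 1 / 2 ≤ ‖l‖ := by
    have := norm_sub_norm_le 1 l
    rw [norm_one] at this; linarith
  have l0 : l ≠ 0 := fun h => by rw [h] at l2; norm_num at l2
  set N := nodal univ (Subtype.val : Z → ℂ) with hNd
  obtain ⟨g, Rm, e1, e2, e3⟩ := Nt_div hR.le (Subtype.val : Z → ℂ)
    (fun k => (hn k k.2).le.trans hρ.le) ((X - C (r : ℂ)) ^ (s + u.card + 1) - X ^ (s + 1) * N) univ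
  rw [← hNd] at e1
  rw [card_univ, hc] at e3
  have hNm : N.Monic := nodal_monic
  have hNdeg : N.natDegree = u.card := by rw [hNd, natDegree_nodal, card_univ, hc]
  have hg : g.natDegree ≤ s := by
    rcases eq_or_ne g 0 with rfl | g0
    · simp
    have m1 : ((X - C (r : ℂ)) ^ (s + u.card + 1)).Monic := (monic_X_sub_C _).pow _
    have d1 : ((X - C (r : ℂ)) ^ (s + u.card + 1)).degree = ((s + u.card + 1 : ℕ) : WithBot ℕ) := by
      rw [degree_pow, degree_X_sub_C]; simp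
    have d2 := degree_sub_lt_left (q := X ^ (s + 1) * N) (p := (X - C (r : ℂ)) ^ (s + u.card + 1))
      (by rw [d1, degree_mul, degree_X_pow, degree_eq_natDegree hNm.ne_zero, hNdeg]
          norm_cast; omega) m1.ne_zero
      (by rw [m1.leadingCoeff, ((monic_X_pow _).mul hNm).leadingCoeff])
    have d3 : (g * N).degree < ((s + u.card + 1 : ℕ) : WithBot ℕ) := by
      rw [← sub_eq_iff_eq_add.2 e1]
      refine (degree_sub_le _ _).trans_lt (max_lt (d1 ▸ d2) (e2.trans_le ?_))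
      rw [card_univ, hc]; norm_cast; omega
    rw [degree_mul, degree_eq_natDegree g0, degree_eq_natDegree hNm.ne_zero, hNdeg] at d3
    norm_cast at d3; omega
  have n1 : Nt R (Uu u) ≤ (R + p) ^ u.card := Nt_prod_le hR0 u _ fun x hx => by
    have := Nt_lin hR0 1 (-x)
    simp only [map_one, one_mul, map_neg, norm_one, norm_neg, ← sub_eq_add_neg] at this
    linarith [hu x hx]
  have n2 : Nt R (Us ρ u) ≤ (θ * R + 1) ^ u.card := Nt_prod_le hR0 u _ fun x hx => by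
    refine (Nt_lin hR0 _ _).trans (add_le_add (mul_le_mul_of_nonneg_right ?_ hR0) ?_)
    · simp only [norm_div, norm_neg, Complex.norm_conj, Complex.norm_real,
        Real.norm_of_nonneg hρ0.le]
      exact (div_le_div_of_nonneg_right (hu x hx) hρ0.le).trans hθ
    · rw [Complex.norm_real, Real.norm_of_nonneg hρ0.le]; exact hρ.le
  have n3 : (p / ρ) ^ u.card * (R + p) ^ u.card ≤ (θ * R + 1) ^ u.card := by
    rw [← mul_pow]
    refine pow_le_pow_left₀ (by positivity) ?_ _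
    have : p / ρ ≤ 1 := (div_le_one hρ0).2 hp.le
    nlinarith [mul_le_mul_of_nonneg_right hθ hR0, div_nonneg hp0 hρ0.le]
  have n4 : Nt R (Uu u - N) ≤ 4 * (θ * R + 1) ^ u.card := by
    have e : Uu u - N = C l⁻¹ * (C κ * Us ρ u - C (1 - l) * Uu u) := by
      have : C l⁻¹ * C l = (1 : ℂ[X]) := by rw [← C_mul, inv_mul_cancel₀ l0, C_1]
      rw [map_sub, C_1]
      linear_combination C l⁻¹ * hN - (Uu u - N) * this
    have a1 := Nt_C_mul hR0 κ (Us ρ u)
    have a2 := (Nt_C_mul hR0 (1 - l) (Uu u)).trans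
      (mul_le_mul hl n1 (Nt_nonneg hR0 _) (by positivity))
    have a3 := Nt_sub hR0 (C κ * Us ρ u) (C (1 - l) * Uu u)
    have a4 : ‖l⁻¹‖ ≤ 2 := by rw [norm_inv]; exact inv_le_of_inv_le₀ two_pos (by linarith)
    rw [hκ, one_mul] at a1
    rw [e]
    exact (Nt_C_mul hR0 _ _).trans ((mul_le_mul a4 (a3.trans (add_le_add (a1.trans n2)
      (a2.trans n3))) (Nt_nonneg hR0 _) two_pos.le).trans_eq (by ring))
  have n5 : Nt R g ≤ 1 / 2 := by
    rw [hW, show X ^ (s + 1) * Uu u + W - X ^ (s + 1) * N = W + X ^ (s + 1) * (Uu u - N) by ring]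
      at e3
    have a1 := (Nt_X_pow_mul hR0 (s + 1) _).trans
      (mul_le_mul_of_nonneg_left n4 (by positivity))
    have a2 := Nt_add hR0 W (X ^ (s + 1) * (Uu u - N))
    exact le_of_mul_le_mul_left (by linarith) (pow_pos (sub_pos.2 hR) u.card)
  have hcρ : ((1 - ρ : ℝ) : ℂ) ≠ 0 := by exact_mod_cast (sub_pos.2 hρ).ne'
  have ev : ∀ k : Z, Rm.eval (k : ℂ) = ((k : ℂ) - r) ^ (s + u.card + 1) := fun k => by
    have := congrArg (eval (k : ℂ)) e1
    have h0 : N.eval (k : ℂ) = 0 := eval_nodal_at_node (mem_univ k)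
    simpa [h0] using this.symm
  obtain ⟨T, t1, t2, t3⟩ := gl (r : ℂ) s hρ hρ0.le (Subtype.val : Z → ℂ) Subtype.val_injective
    (fun k => hn k k.2) (-g) (by simpa using hg)
    (fun k => -(nodalWeight univ (Subtype.val : Z → ℂ) k * Rm.eval (k : ℂ)) / (1 - ρ : ℝ))
    (by
      have e := eq_interpolate Subtype.val_injective.injOn e2
      rw [interpolate_eq_nodalWeight_mul_nodal_div_X_sub_C] at e
      have e' : ∑ k : Z, C (-(nodalWeight univ (Subtype.val : Z → ℂ) k * Rm.eval (k : ℂ)) /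
          (1 - ρ : ℝ) * (1 - ρ : ℝ)) * nodal (univ.erase k) (Subtype.val : Z → ℂ) = -Rm := by
        rw [e, ← sum_neg_distrib, ← e]
        refine sum_congr rfl fun k _ => ?_
        rw [div_mul_cancel₀ _ hcρ, nodal_erase_eq_nodal_div (mem_univ k), map_neg, C_mul]
        ring
      rw [e', hc, ← hNd]
      linear_combination e1)
    (by
      have a1 : ∑ j ∈ range (s + 1), ‖(-g).coeff j‖ ≤ 1 / 2 := by
        have := sum_le_Nt zero_le_one g (range (s + 1))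
        simp only [one_pow, mul_one] at this
        simpa using (this.trans (Nt_mono zero_le_one hR.le g)).trans n5
      have a2 : ∀ k : Z, ‖-(nodalWeight univ (Subtype.val : Z → ℂ) k * Rm.eval (k : ℂ)) /
          ((1 - ρ : ℝ) : ℂ)‖ ≤
          ‖nodalWeight univ (Subtype.val : Z → ℂ) k * (Uu u).eval (k : ℂ)‖ / 4 := fun k => by
        have b1 := H1 k (hn k k.2)
        have b2 := congrArg (fun f => ‖eval (k : ℂ) f‖) hW
        simp only [eval_pow, eval_sub, eval_X, eval_C, eval_add, eval_mul, norm_pow] at b2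
        have b3 := norm_add_le ((k : ℂ) ^ (s + 1) * (Uu u).eval (k : ℂ)) (W.eval (k : ℂ))
        rw [norm_mul, norm_pow, hn k k.2] at b3
        rw [norm_div, norm_neg, norm_mul, norm_mul, ev, norm_pow, Complex.norm_real,
          Real.norm_of_nonneg (by linarith), div_le_iff₀ (by linarith)]
        have b4 := mul_le_mul_of_nonneg_right H3 (norm_nonneg ((Uu u).eval (k : ℂ)))
        have b5 : ‖(k : ℂ) - r‖ ^ (s + u.card + 1) ≤ ‖(Uu u).eval (k : ℂ)‖ / 4 * (1 - ρ) := by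
          linarith
        exact (mul_le_mul_of_nonneg_left b5 (norm_nonneg _)).trans_eq (by ring)
      have a3 := sum_le_sum fun k (_ : k ∈ univ) => a2 k
      rw [← sum_div] at a3
      linarith)
  obtain ⟨T', e, s1, s2⟩ := transfer (n := s + u.card + 1) (by simp [hZ]; omega) T
  refine ⟨T', fun a => ?_, fun z hz => t2 z (s1 ▸ hz), e (Sum.inl 0), fun q => ?_⟩
  · have := s2 1 (e.symm a)
    rw [pow_one, pow_one, e.apply_symm_apply] at this
    exact this ▸ t1 _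
  · rw [s2, hN, mul_left_comm, Lam_C, norm_mul, ← hc]
    exact mul_le_mul l1 (t3 q) (norm_nonneg _) two_pos.le

end Pool.Agent.MP_c71a08_an.H32
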