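import Pool.Agent.MP_c71a08_an.H32.Big4

namespace Pool.Agent.MP_c71a08_an.H32

open Polynomial Finset ComplexConjugate

noncomputable def aa (r : ℝ) (q N i : ℕ) : ℝ :=
  if i ≤ N then r ^ (q - (N - i)) * (q.choose (N - i) : ℝ) else 0

theorem Lam_eq (r : ℝ) (q N : ℕ) (f : ℂ[X]) : Lam r N (X ^ q * f) =
    ∑ i ∈ (taylor (r : ℂ) f).support, (taylor (r : ℂ) f).coeff i * aa r q N i := by
  rw [Lam_apply, taylor_mul, taylor_X_pow]
  conv_lhs => rw [(taylor (r : ℂ) f).as_sum_support_C_mul_X_pow, mul_sum, finsetSum_coeff]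
  refine sum_congr rfl fun i _ => ?_
  rw [mul_left_comm, coeff_C_mul, coeff_mul_X_pow', coeff_X_add_C_pow, aa]
  split_ifs <;> simp

theorem aa_est {r δ : ℝ} (hr : 0 ≤ r) {q N : ℕ} (hN : 0 < N) (hq : 2 * N ≤ q) (hδ0 : 0 ≤ δ)
    (hδ : δ * (q - N + 1) = r * N) (i : ℕ) :
    0 ≤ aa r q N i ∧ aa r q N i ≤ aa r q N 0 * δ ^ i ∧
      aa r q N 0 * δ ^ i - aa r q N i ≤ aa r q N 0 * (2 / N) * (2 * δ) ^ i := by
  have hN' : (0 : ℝ) < N := by exact_mod_cast hN
  have hq' : (2 * N : ℝ) ≤ q := by exact_mod_cast hq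
  have h0 : ∀ i, 0 ≤ aa r q N i := fun i => by unfold aa; split_ifs <;> positivity
  refine ⟨h0 i, ?_⟩
  induction i with
  | zero => simp only [pow_zero, mul_one, sub_self]; exact ⟨le_rfl, by have := h0 0; positivity⟩
  | succ i ih =>
    have step : aa r q N (i + 1) ≤ δ * aa r q N i ∧
        δ * aa r q N i * (1 - 2 * i / N) ≤ aa r q N (i + 1) := by
      have hi0 : (0 : ℝ) ≤ i := by positivity
      rcases lt_or_ge i N with h | h
      · obtain ⟨d, rfl⟩ := Nat.exists_eq_add_of_lt h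
        have e : aa r q (i + d + 1) (i + 1) * (q - d) = r * aa r q (i + d + 1) i * (d + 1) := by
          have := congrArg (Nat.cast : ℕ → ℝ) (Nat.choose_succ_right_eq q d)
          rw [Nat.cast_mul, Nat.cast_mul, Nat.cast_sub (by omega)] at this
          rw [aa, aa, if_pos (by omega), if_pos (by omega), show i + d + 1 - (i + 1) = d by omega,
            show i + d + 1 - i = d + 1 by omega, show q - d = q - (d + 1) + 1 by omega, pow_succ]
          push_cast at this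
          linear_combination (-(r ^ (q - (d + 1)) * r)) * this
        push_cast at hδ hq' hN' ⊢
        have hd0 : (0 : ℝ) ≤ d := by positivity
        have a0 := mul_nonneg hδ0 (h0 i)
        have e2 : aa r q (i + d + 1) (i + 1) * ((q - d) * (i + d + 1)) =
            δ * aa r q (i + d + 1) i * ((q - (i + d + 1) + 1) * (d + 1)) := by
          linear_combination (i + d + 1) * e - aa r q (i + d + 1) i * (d + 1) * hδ
        have hpos : (0 : ℝ) < (q - d) * (i + d + 1) := mul_pos (by linarith) hN'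
        constructor
        · refine le_of_mul_le_mul_right ?_ hpos
          rw [e2]
          exact mul_le_mul_of_nonneg_left (by nlinarith) a0
        · refine le_of_mul_le_mul_right ?_ hpos
          rw [e2, mul_assoc]
          refine mul_le_mul_of_nonneg_left ?_ a0
          rw [show (1 - 2 * (i : ℝ) / (i + d + 1)) * ((q - d) * (i + d + 1)) =
            (i + d + 1 - 2 * i) * (q - d) by field_simp]
          nlinarith
      · have e : aa r q N (i + 1) = 0 := if_neg (by omega)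
        have a0 := mul_nonneg hδ0 (h0 i)
        rw [e]
        refine ⟨a0, mul_nonpos_of_nonneg_of_nonpos a0 ?_⟩
        have : (N : ℝ) ≤ i := by exact_mod_cast h
        rw [sub_nonpos, le_div_iff₀ hN']; linarith
    have i1 := mul_le_mul_of_nonneg_left ih.1 hδ0
    have i2 := mul_le_mul_of_nonneg_left ih.2 hδ0
    refine ⟨by rw [pow_succ]; linarith [step.1], ?_⟩
    have i3 : (i : ℝ) ≤ 2 ^ i := by exact_mod_cast Nat.lt_two_pow_self.le
    have i4 := mul_le_mul i1 (mul_le_mul_of_nonneg_left i3 (show 0 ≤ 2 / (N : ℝ) by positivity))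
      (by positivity) (by have := h0 0; positivity)
    have := step.2
    simp only [pow_succ, mul_pow] at *
    have e : 2 * (i : ℝ) / N = 2 / N * i := by ring
    rw [e] at this
    nlinarith

theorem lam_est {r δ : ℝ} (hr : 0 ≤ r) {q N : ℕ} (hN : 0 < N) (hq : 2 * N ≤ q) (hδ0 : 0 ≤ δ)
    (hδ : δ * (q - N + 1) = r * N) (f : ℂ[X]) :
    ‖Lam r N (X ^ q * f)‖ ≤ aa r q N 0 * Nt δ (taylor (r : ℂ) f) ∧
    aa r q N 0 * ‖(taylor (r : ℂ) f).eval (δ : ℂ)‖ ≤
      ‖Lam r N (X ^ q * f)‖ + aa r q N 0 * (2 / N) * Nt (2 * δ) (taylor (r : ℂ) f) := by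
  have H := aa_est hr hN hq hδ0 hδ
  rw [Lam_eq]
  generalize taylor (r : ℂ) f = g
  constructor
  · rw [Nt, mul_sum]
    refine (norm_sum_le _ _).trans (sum_le_sum fun i _ => ?_)
    rw [norm_mul, Complex.norm_real, Real.norm_of_nonneg (H i).1, mul_left_comm]
    exact mul_le_mul_of_nonneg_left (H i).2.1 (norm_nonneg _)
  · have e : (aa r q N 0 : ℂ) * g.eval (δ : ℂ) = ∑ i ∈ g.support, g.coeff i * aa r q N i +
        ∑ i ∈ g.support, g.coeff i * ((aa r q N 0 * δ ^ i - aa r q N i : ℝ) : ℂ) := by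
      rw [eval_eq_sum, Polynomial.sum, mul_sum, ← sum_add_distrib]
      exact sum_congr rfl fun i _ => by push_cast; ring
    rw [← Real.norm_of_nonneg (H 0).1, ← Complex.norm_real, ← norm_mul, e, Complex.norm_real,
      Real.norm_of_nonneg (H 0).1, Nt, mul_sum]
    refine (norm_add_le _ _).trans (add_le_add le_rfl
      ((norm_sum_le _ _).trans (sum_le_sum fun i _ => ?_)))
    rw [norm_mul, Complex.norm_real, Real.norm_of_nonneg (sub_nonneg.2 (H i).2.1), mul_left_comm]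
    exact mul_le_mul_of_nonneg_left (H i).2.2 (norm_nonneg _)

theorem construct {r p t : ℝ} (hr : 0 ≤ r) (hp : 0 < p) (ht : 0 ≤ t) (hrt : r * t < p ^ 2)
    (s m : ℕ) : ∃ (u : Multiset ℂ) (h : ℂ[X]), u.card = m ∧ h.natDegree ≤ s ∧
      (X - C (r : ℂ)) ^ (s + m + 1) =
        X ^ (s + 1) * Uu u + (C (-r : ℂ) * X + C ((p : ℂ) ^ 2)) ^ m * h ∧
      Nt t h ≤ (t + r) ^ (s + m + 1) * (1 / (p ^ 2 - r * t)) ^ m := by
  have hp' : (p : ℂ) ^ 2 ≠ 0 := by exact_mod_cast (pow_pos hp 2).ne'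
  set L : ℂ[X] := C (-r : ℂ) * X + C ((p : ℂ) ^ 2) with hL
  set G : ℂ[X] := C ((p : ℂ) ^ 2)⁻¹ * ∑ i ∈ range (s + 1), (C ((r : ℂ) / p ^ 2) * X) ^ i with hG
  have hLG : X ^ (s + 1) ∣ 1 - L * G := by
    have e : L * C ((p : ℂ) ^ 2)⁻¹ = 1 - C ((r : ℂ) / p ^ 2) * X := by
      rw [hL, add_mul, mul_right_comm, ← C_mul, ← C_mul, mul_inv_cancel₀ hp', neg_mul, map_neg,
        div_eq_mul_inv, C_1]; ring
    rw [hG, ← mul_assoc, e, mul_neg_geom_sum, sub_sub_cancel, mul_pow]
    exact dvd_mul_left _ _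
  have nG : Nt t G ≤ 1 / (p ^ 2 - r * t) := by
    have x0 : 0 ≤ r / p ^ 2 * t := by positivity
    have x1 : r / p ^ 2 * t < 1 := by rw [div_mul_eq_mul_div, div_lt_one (by positivity)]; exact hrt
    have a1 : Nt t (C ((r : ℂ) / p ^ 2) * X) ≤ r / p ^ 2 * t := by
      have := Nt_lin ht ((r : ℂ) / p ^ 2) 0
      rwa [C_0, add_zero, norm_zero, add_zero, norm_div, norm_pow, Complex.norm_real,
        Complex.norm_real, Real.norm_of_nonneg hr, Real.norm_of_nonneg hp.le] at this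
    have a2 := (Nt_sum ht _ _).trans
      (sum_le_sum fun i (_ : i ∈ range (s + 1)) => Nt_pow_le ht a1 i)
    have a3 := (summable_geometric_of_lt_one x0 x1).sum_le_tsum (range (s + 1))
      fun i _ => pow_nonneg x0 i
    rw [tsum_geometric_of_lt_one x0 x1] at a3
    refine (Nt_C_mul ht _ _).trans ((mul_le_mul_of_nonneg_left (a2.trans a3)
      (norm_nonneg _)).trans_eq ?_)
    have := (sub_pos.2 hrt).ne'
    simp only [norm_inv, norm_pow, Complex.norm_real, Real.norm_eq_abs, sq_abs]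
    field_simp
  obtain ⟨h, h1, h2, h3⟩ := Nt_trunc ht ((X - C (r : ℂ)) ^ (s + m + 1) * G ^ m) s
  have hd : X ^ (s + 1) ∣ (X - C (r : ℂ)) ^ (s + m + 1) - L ^ m * h := by
    have a1 : X ^ (s + 1) ∣ 1 - (L * G) ^ m :=
      hLG.trans (by simpa using sub_dvd_pow_sub_pow 1 (L * G) m)
    have := (a1.mul_left ((X - C (r : ℂ)) ^ (s + m + 1))).add (h2.mul_left (L ^ m))
    rw [mul_pow] at this
    exact this.trans (dvd_of_eq (by ring))
  obtain ⟨U, hU⟩ := hd
  have m1 : ((X - C (r : ℂ)) ^ (s + m + 1)).Monic := (monic_X_sub_C _).pow _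
  have d1 : ((X - C (r : ℂ)) ^ (s + m + 1)).natDegree = s + m + 1 := by simp [natDegree_pow]
  have d2 : (L ^ m * h).natDegree < ((X - C (r : ℂ)) ^ (s + m + 1)).natDegree := by
    have : (L ^ m * h).natDegree ≤ m * 1 + s := natDegree_mul_le.trans (add_le_add
      (natDegree_pow_le_of_le m (natDegree_linear_le : L.natDegree ≤ 1)) h1)
    omega
  have m2 : (X ^ (s + 1) * U).Monic := hU ▸ m1.sub_of_left (degree_lt_degree d2)
  have m3 : U.Monic := (monic_X_pow _).of_mul_monic_left m2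
  have d3 : U.natDegree = m := by
    have := natDegree_sub_eq_left_of_natDegree_lt d2
    rw [hU, (monic_X_pow _).natDegree_mul m3, natDegree_X_pow, d1] at this
    omega
  refine ⟨U.roots, h, by rw [IsAlgClosed.card_roots_eq_natDegree, d3], h1, ?_,
    h3.trans (Nt_mul_le ht (Nt_pow_le ht ?_ _) (Nt_pow_le ht nG _))⟩
  · rw [Uu, ← (IsAlgClosed.splits U).eq_prod_roots_of_monic m3, ← hU]; ring
  · simpa [abs_of_nonneg hr, sub_eq_add_neg] using Nt_lin ht 1 (-r)

theorem Us_eval {ρ : ℝ} (hρ : 0 < ρ) {z : ℂ} (hz : z ≠ 0) (u : Multiset ℂ) :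
    (ρ : ℂ) ^ u.card * (Us ρ u).eval z = z ^ u.card * conj ((Uu u).eval (ρ ^ 2 / conj z)) := by
  have h : (ρ : ℂ) ≠ 0 := by exact_mod_cast hρ.ne'
  induction u using Multiset.induction_on with
  | empty => simp [Us, Uu]
  | cons x u ih =>
    have e : (ρ : ℂ) * (-conj x / ρ * z + ρ) = z * conj (ρ ^ 2 / conj z - x) := by
      simp only [map_sub, map_div₀, map_pow, Complex.conj_ofReal, Complex.conj_conj]
      field_simp
      ring
    simp only [Us_cons, Uu_cons, Multiset.card_cons, eval_mul, map_mul, pow_succ _ u.card, eval_add,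
      eval_sub, eval_X, eval_C]
    linear_combination (ρ * (-conj x / ρ * z + ρ)) * ih +
      (z ^ u.card * conj ((Uu u).eval (ρ ^ 2 / conj z))) * e

theorem star_id {r p ρ : ℝ} (hρ : 0 < ρ) {s : ℕ} {u : Multiset ℂ} {h : ℂ[X]} (hh : h.natDegree ≤ s)
    (hW : (X - C (r : ℂ)) ^ (s + u.card + 1) =
      X ^ (s + 1) * Uu u + (C (-r : ℂ) * X + C ((p : ℂ) ^ 2)) ^ u.card * h) :
    (C (-r : ℂ) * X + C ((ρ : ℂ) ^ 2)) ^ (s + u.card + 1) =
      C (((ρ : ℂ) ^ 2) ^ (s + 1) * ρ ^ u.card) * Us ρ u +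
      (C ((p : ℂ) ^ 2) * X + C (-r * ρ ^ 2 : ℂ)) ^ u.card *
        ∑ j ∈ range (s + 1), C (conj (h.coeff j) * (ρ ^ 2) ^ j) * X ^ (s + 1 - j) := by
  refine eq_of_infinite_eval_eq _ _ ((Set.finite_singleton (0 : ℂ)).infinite_compl.mono
    fun z (hz : z ≠ 0) => ?_)
  have h1 := congrArg (fun f => conj (eval ((ρ : ℂ) ^ 2 / conj z) f)) hW
  have h2 := Us_eval hρ hz u
  have h3 : z ^ (s + 1) * conj (eval ((ρ : ℂ) ^ 2 / conj z) h) =
      ∑ j ∈ range (s + 1), conj (h.coeff j) * (ρ ^ 2) ^ j * z ^ (s + 1 - j) := by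
    rw [eval_eq_sum_range' (n := s + 1) (by omega), map_sum, mul_sum]
    refine sum_congr rfl fun j hj => ?_
    obtain ⟨d, hd⟩ := Nat.exists_eq_add_of_le (mem_range.1 hj).le
    simp only [hd, map_mul, map_div₀, map_pow, Complex.conj_ofReal, Complex.conj_conj,
      Nat.add_sub_cancel_left, div_pow, pow_add]
    field_simp
  simp only [eval_pow, eval_sub, eval_add, eval_mul, eval_X, eval_C, eval_neg, map_add, map_mul,
    map_pow, map_sub, map_div₀, map_neg, Complex.conj_ofReal, Complex.conj_conj] at h1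
  simp only [Set.mem_ofPred_eq, eval_pow, eval_add, eval_mul, eval_X, eval_C, eval_finsetSum, ← h3]
  rw [show -(r : ℂ) * z + ρ ^ 2 = z * (ρ ^ 2 / z - r) by field_simp; ring,
    show (p : ℂ) ^ 2 * z + -r * ρ ^ 2 = z * (-r * (ρ ^ 2 / z) + p ^ 2) by field_simp; ring,
    mul_pow, h1, mul_assoc, h2, mul_pow, div_pow]
  field_simp
  ring

end Pool.Agent.MP_c71a08_an.H32
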