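import Pool.Agent.MP_c71a08_an.H32.Big5

namespace Pool.Agent.MP_c71a08_an.H32

open Polynomial Finset ComplexConjugate

theorem W_small {r p : ℝ} (hr : 0 ≤ r) (hrp : r < p) (hp1 : p ≤ 1) {s m : ℕ} {h : ℂ[X]}
    (hh : h.natDegree ≤ s) (hJ : 2 * (p ^ m * Nt 1 h) ≤ (p - r) ^ (s + 1)) {z : ℂ} (hz : p ≤ ‖z‖) :
    2 * ‖((C (-r : ℂ) * X + C ((p : ℂ) ^ 2)) ^ m * h).eval z‖ ≤ ‖z - r‖ ^ (s + m + 1) := by
  have hp : 0 < p := hr.trans_lt hrp
  have a1 : ‖-(r : ℂ) * z + p ^ 2‖ ≤ p * ‖z - r‖ := by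
    have := fac_id hp (r : ℂ) z
    have h0 : (p : ℂ) ≠ 0 := by exact_mod_cast hp.ne'
    rw [show -(r : ℂ) * z + p ^ 2 = p * (-conj (r : ℂ) / p * z + p) by
      rw [Complex.conj_ofReal]; field_simp, norm_mul, Complex.norm_real, Real.norm_of_nonneg hp.le]
    rw [Complex.norm_real, Real.norm_of_nonneg hr] at this
    have b := mul_nonneg (sub_nonneg.2 (pow_le_pow_left₀ hp.le hz 2))
      (sub_nonneg.2 (pow_le_pow_left₀ hr hrp.le 2))
    rw [← this] at b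
    exact mul_le_mul_of_nonneg_left ((pow_le_pow_iff_left₀ (norm_nonneg _) (norm_nonneg _)
      two_ne_zero).1 (sub_nonneg.1 ((mul_nonneg_iff_of_pos_left (pow_pos hp 2)).1 b))) hp.le
  have M1 : 1 ≤ max 1 ‖z‖ := le_max_left _ _
  have a2 := (eval_le_Nt (le_max_right 1 ‖z‖) h).trans (Nt_up M1 hh)
  have a3 : (p - r) * max 1 ‖z‖ ≤ ‖z - r‖ := by
    have := norm_sub_norm_le z r
    rw [Complex.norm_real, Real.norm_of_nonneg hr] at this
    rcases le_total 1 ‖z‖ with h | h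
    · rw [max_eq_right h]; nlinarith
    · rw [max_eq_left h]; linarith
  have a4 := pow_le_pow_left₀ (mul_nonneg (by linarith) (by linarith)) a3 (s + 1)
  simp only [eval_mul, eval_pow, eval_add, eval_C, eval_X, norm_mul, norm_pow]
  calc _ ≤ 2 * ((p * ‖z - r‖) ^ m * (max 1 ‖z‖ ^ s * Nt 1 h)) := by gcongr
    _ = ‖z - r‖ ^ m * (2 * (p ^ m * Nt 1 h) * max 1 ‖z‖ ^ s) := by ring
    _ ≤ ‖z - r‖ ^ m * ((p - r) ^ (s + 1) * max 1 ‖z‖ ^ (s + 1)) := by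
      have := sub_pos.2 hrp
      gcongr
      omega
    _ ≤ ‖z - r‖ ^ m * ‖z - r‖ ^ (s + 1) := by rw [← mul_pow]; gcongr
    _ = _ := by ring

theorem taylor_lin (r a b : ℂ) : taylor r (C a * X + C b) = C a * X + C (a * r + b) := by
  simp [taylor_mul]; ring

theorem mid {r p ρ R θ t δ : ℝ} {s m q : ℕ} (hr : 0 < r) (hrp : r < p) (hp : p < ρ) (hρ : ρ < 1)
    (hR : 1 < R) (hθ : p / ρ ≤ θ) (hθ' : r / p ≤ θ) (ht : 0 < t) (ht1 : t ≤ 1)
    (hrt : r * t < p ^ 2) (hm : 0 < m) (hτ : (p / ρ) ^ m ≤ 1 / 2)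
    (Ha : 2 * (p ^ m * ((t + r) ^ (s + m + 1) * (1 / (p ^ 2 - r * t)) ^ m)) ≤
      t ^ s * (p - r) ^ (s + 1))
    (Hb : 10 * R ^ (s + 1) * (θ * R + 1) ^ m ≤ (R - 1) ^ m) (Hc : 8 * ρ ^ (s + 1) ≤ 1 - ρ)
    (hq : 2 * (s + m) ≤ q) (hδ0 : 0 ≤ δ) (hδ : δ * (q - (s + m : ℕ) + 1) = r * (s + m : ℕ))
    (hδ1 : δ + r ≤ 1) (hA : r * δ ≤ ρ ^ 2 - r ^ 2) :
    ∃ T : Matrix (Fin (s + m + 1)) (Fin (s + m + 1)) ℂ, (∀ a, ∑ b, ‖T a b‖ ≤ 1) ∧
      (∀ z ∈ spectrum ℂ T, z = r) ∧ ∃ i, aa r q (s + m) 0 *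
        ((ρ ^ 2 - r ^ 2 - r * δ) ^ (s + m + 1) -
          2 / (s + m : ℕ) * (ρ ^ 2 - r ^ 2 + 2 * (r * δ)) ^ (s + m + 1) -
          ((δ + (1 - p ^ 2) * r) / p) ^ m) ≤ 2 * ∑ b, ‖(T ^ q) i b‖ := by
  have hp0 : 0 < p := hr.trans hrp
  have hρ0 : 0 < ρ := hp0.trans hp
  have hp1 : p < 1 := hp.trans hρ
  have hR0 : 0 ≤ R := by linarith
  obtain ⟨u, h, rfl, hh, hW, hN⟩ := construct hr.le hp0 ht.le hrt s m
  have hJ : 2 * (p ^ u.card * Nt 1 h) ≤ (p - r) ^ (s + 1) := by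
    refine le_of_mul_le_mul_left (le_trans ?_ Ha) (pow_pos ht s)
    have := mul_le_mul_of_nonneg_left ((Nt_down ht.le ht1 hh).trans hN) (pow_pos hp0 u.card).le
    linarith
  have hJ1 : p ^ u.card * Nt 1 h ≤ 1 := by
    have : (p - r) ^ (s + 1) ≤ 1 := pow_le_one₀ (by linarith) (by linarith)
    linarith
  have hu : ∀ x ∈ u, ‖x‖ ≤ p := fun x hx => by
    by_contra hc
    have a1 := W_small hr.le hrp hp1.le hh hJ (not_le.1 hc).le
    have a2 := congrArg (fun f => ‖eval x f‖) hW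
    have a3 : (Uu u).eval x = 0 := by
      rw [Uu, eval_multiset_prod, Multiset.map_map]
      exact Multiset.prod_eq_zero (Multiset.mem_map.2 ⟨x, hx, by simp⟩)
    simp only [eval_add, eval_mul (q := Uu u), a3, mul_zero, zero_add] at a2
    rw [← a2, eval_pow, eval_sub, eval_X, eval_C, norm_pow] at a1
    have a4 : 0 < ‖x - r‖ := by
      have := norm_sub_norm_le x r
      rw [Complex.norm_real, Real.norm_of_nonneg hr.le] at this
      linarith [not_le.1 hc]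
    linarith [pow_pos a4 (s + u.card + 1)]
  have H2 : Nt R ((C (-r : ℂ) * X + C ((p : ℂ) ^ 2)) ^ u.card * h) +
      4 * R ^ (s + 1) * (θ * R + 1) ^ u.card ≤ (R - 1) ^ u.card / 2 := by
    have a1 : Nt R (C (-r : ℂ) * X + C ((p : ℂ) ^ 2)) ≤ p * (θ * R + 1) := by
      refine (Nt_lin hR0 _ _).trans ?_
      rw [norm_neg, norm_pow, Complex.norm_real, Complex.norm_real, Real.norm_of_nonneg hr.le,
        Real.norm_of_nonneg hp0.le]
      rw [div_le_iff₀ hp0] at hθ'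
      nlinarith [mul_le_mul_of_nonneg_right hθ' hR0]
    have a2 := Nt_mul_le hR0 (Nt_pow_le hR0 a1 u.card) (Nt_up hR.le (hh.trans (Nat.le_succ s)))
    have θ0 : 0 ≤ θ := le_trans (by positivity) hθ
    have a3 := mul_le_mul_of_nonneg_left hJ1
      (show 0 ≤ R ^ (s + 1) * (θ * R + 1) ^ u.card by positivity)
    rw [mul_pow, Nat.succ_eq_add_one] at a2
    linarith
  have hc := fun (κ : ℂ) (hκ : ‖κ‖ = 1) => core hp0.le hp hρ hR hθ hu
    (Multiset.card_pos.1 hm) hτ hW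
    (fun z hz => W_small hr.le hrp hp1.le hh hJ (hz ▸ hp.le)) H2 Hc hκ
  have key : aa r q (s + u.card) 0 * ((ρ ^ 2 - r ^ 2 - r * δ) ^ (s + u.card + 1) -
      2 / (s + u.card : ℕ) * (ρ ^ 2 - r ^ 2 + 2 * (r * δ)) ^ (s + u.card + 1) -
      ((δ + (1 - p ^ 2) * r) / p) ^ u.card) ≤ ‖Lam r (s + u.card) (X ^ q * Us ρ u)‖ := by
    have hB := (aa_est hr.le (by omega : 0 < s + u.card) hq hδ0 hδ 0).1
    have est := lam_est hr.le (by omega : 0 < s + u.card) hq hδ0 hδ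
    have b1 := (est ((C (-r : ℂ) * X + C ((ρ : ℂ) ^ 2)) ^ (s + u.card + 1))).2
    have b2 := (est ((C ((p : ℂ) ^ 2) * X + C (-r * ρ ^ 2 : ℂ)) ^ u.card *
        ∑ j ∈ range (s + 1), C (conj (h.coeff j) * (ρ ^ 2) ^ j) * X ^ (s + 1 - j))).1
    have c1 : Nt (2 * δ) (C (-r : ℂ) * X + C (-r * r + (ρ : ℂ) ^ 2)) ≤
        ρ ^ 2 - r ^ 2 + 2 * (r * δ) := by
      refine (Nt_lin (by positivity) _ _).trans (le_of_eq ?_)
      rw [show -(r : ℂ) * r + ρ ^ 2 = ((ρ ^ 2 - r ^ 2 : ℝ) : ℂ) by push_cast; ring, norm_neg,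
        Complex.norm_real, Complex.norm_real, Real.norm_of_nonneg hr.le,
        Real.norm_of_nonneg (le_trans (by positivity) hA)]
      ring
    have c2 : ‖eval (δ : ℂ) ((C (-r : ℂ) * X + C (-r * r + (ρ : ℂ) ^ 2)) ^ (s + u.card + 1))‖ =
        (ρ ^ 2 - r ^ 2 - r * δ) ^ (s + u.card + 1) := by
      rw [eval_pow, norm_pow, eval_add, eval_mul, eval_C, eval_C, eval_X,
        show -(r : ℂ) * δ + (-r * r + ρ ^ 2) = ((ρ ^ 2 - r ^ 2 - r * δ : ℝ) : ℂ) by push_cast; ring,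
        Complex.norm_real, Real.norm_of_nonneg (by linarith)]
    have c3 : Nt δ (C ((p : ℂ) ^ 2) * X + C (p ^ 2 * r + -r * ρ ^ 2 : ℂ)) ≤
        δ + (1 - p ^ 2) * r := by
      refine (Nt_lin hδ0 _ _).trans ?_
      have d1 := pow_le_pow_left₀ hp0.le hp.le 2
      have d2 : ρ ^ 2 ≤ 1 := pow_le_one₀ hρ0.le hρ.le
      rw [show (p : ℂ) ^ 2 * r + -r * ρ ^ 2 = -(((ρ ^ 2 - p ^ 2) * r : ℝ) : ℂ) by push_cast; ring,
        norm_neg, norm_pow, Complex.norm_real, Complex.norm_real, Real.norm_of_nonneg hp0.le,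
        Real.norm_of_nonneg (mul_nonneg (by linarith) hr.le)]
      nlinarith [mul_le_mul_of_nonneg_right (d1.trans d2) hδ0]
    have c4 : Nt δ (taylor (r : ℂ) (∑ j ∈ range (s + 1),
        C (conj (h.coeff j) * (ρ ^ 2) ^ j) * X ^ (s + 1 - j))) ≤ Nt 1 h := by
      rw [map_sum]
      refine (Nt_sum hδ0 _ _).trans (le_trans (sum_le_sum fun j _ => ?_)
        (sum_le_Nt zero_le_one h (range (s + 1))))
      have d1 : Nt δ (X + C (r : ℂ)) ≤ 1 := by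
        have := Nt_lin hδ0 1 r
        rw [C_1, one_mul, norm_one, Complex.norm_real, Real.norm_of_nonneg hr.le] at this
        linarith
      rw [taylor_mul, taylor_C, taylor_X_pow]
      refine (Nt_C_mul hδ0 _ _).trans (mul_le_mul ?_ ((Nt_pow_le hδ0 d1 _).trans_eq (by simp))
        (Nt_nonneg hδ0 _) (norm_nonneg _))
      rw [norm_mul, Complex.norm_conj, norm_pow, norm_pow, Complex.norm_real,
        Real.norm_of_nonneg hρ0.le]
      exact mul_le_of_le_one_right (norm_nonneg _)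
        (pow_le_one₀ (by positivity) (pow_le_one₀ hρ0.le hρ.le))
    rw [taylor_pow, taylor_lin, c2, star_id hρ0 hh hW, mul_add, map_add, mul_left_comm, Lam_C] at b1
    rw [taylor_mul, taylor_pow, taylor_lin] at b2
    have c5 := Nt_mul_le hδ0 (Nt_pow_le hδ0 c3 u.card) c4
    have c6 : (δ + (1 - p ^ 2) * r) ^ u.card * Nt 1 h ≤ ((δ + (1 - p ^ 2) * r) / p) ^ u.card := by
      rw [div_pow, le_div_iff₀ (by positivity), mul_assoc, mul_comm (Nt 1 h)]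
      have : 0 ≤ 1 - p ^ 2 := sub_nonneg.2 (pow_le_one₀ hp0.le hp1.le)
      exact mul_le_of_le_one_right (by positivity) hJ1
    have c7 := mul_le_mul_of_nonneg_left (Nt_pow_le (by positivity) c1 (s + u.card + 1))
      (show 0 ≤ aa r q (s + u.card) 0 * (2 / (s + u.card : ℕ)) by positivity)
    have c8 := mul_le_mul_of_nonneg_left (c5.trans c6) hB
    have c9 : ‖((ρ : ℂ) ^ 2) ^ (s + 1) * ρ ^ u.card * Lam r (s + u.card) (X ^ q * Us ρ u)‖ ≤
        ‖Lam r (s + u.card) (X ^ q * Us ρ u)‖ := by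
      rw [norm_mul, norm_mul, norm_pow, norm_pow, norm_pow, Complex.norm_real,
        Real.norm_of_nonneg hρ0.le, ← pow_mul, ← pow_add]
      exact mul_le_of_le_one_left (norm_nonneg _) (pow_le_one₀ hρ0.le hρ.le)
    have c10 := (norm_add_le _ _).trans (add_le_add c9 (b2.trans c8))
    linarith
  obtain ⟨T1, p1, p2, i1, p3⟩ := hc 1 norm_one
  obtain ⟨T2, q1, q2, i2, q3⟩ := hc (-1) (by simp)
  have p4 := p3 q
  have q4 := q3 q
  rw [mul_sub, map_sub, mul_left_comm, Lam_C] at p4 q4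
  have tri := norm_sub_le
    (Lam r (s + u.card) (X ^ q * Uu u) - -1 * Lam r (s + u.card) (X ^ q * Us ρ u))
    (Lam r (s + u.card) (X ^ q * Uu u) - 1 * Lam r (s + u.card) (X ^ q * Us ρ u))
  rw [sub_sub_sub_cancel_left, ← sub_mul, norm_mul] at tri
  norm_num at tri p4 q4
  by_cases hcase : ‖Lam r (s + u.card) (X ^ q * Us ρ u)‖ ≤ 2 * ∑ b, ‖(T1 ^ q) i1 b‖
  · exact ⟨T1, p1, p2, i1, key.trans hcase⟩
  · exact ⟨T2, q1, q2, i2, key.trans (by linarith)⟩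

end Pool.Agent.MP_c71a08_an.H32
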