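import Pool.Agent.MP_c71a08_an.H32.Big6

namespace Pool.Agent.MP_c71a08_an.H32

open Filter

theorem small {β Γ : ℝ} (h0 : 0 ≤ β) (h1 : β < 1) (hΓ : 0 ≤ Γ) :
    ∃ L : ℕ, ∀ k m : ℕ, L * k ≤ m → β ^ m * Γ ^ k ≤ (1 / 2) ^ k := by
  obtain ⟨L, hL⟩ := exists_pow_lt_of_lt_one (show 0 < 1 / (2 * (Γ + 1)) by positivity) h1
  refine ⟨L, fun k m h => (mul_le_mul_of_nonneg_right (pow_le_pow_of_le_one h0 h1.le h)
    (by positivity)).trans ?_⟩
  rw [pow_mul, ← mul_pow]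
  refine pow_le_pow_left₀ (by positivity) ?_ k
  rw [lt_div_iff₀ (by positivity)] at hL
  nlinarith [pow_nonneg h0 L]

theorem exp_le_one_sub {x : ℝ} (h0 : 0 ≤ x) (h1 : x ≤ 1 / 2) : Real.exp (-(2 * x)) ≤ 1 - x := by
  rw [Real.exp_neg, inv_le_comm₀ (Real.exp_pos _) (by linarith)]
  refine le_trans ?_ (Real.add_one_le_exp _)
  rw [inv_le_iff_one_le_mul₀ (by linarith)]
  nlinarith

theorem bracket {A D x e c0 : ℝ} {k m N : ℕ} (hD : 0 < D) (hA : 7 / 8 * D ≤ A) (hx : 0 ≤ x)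
    (hx1 : x ≤ A / 2) (hx2 : (k + m : ℕ) * x ≤ c0 * A) (he0 : 0 ≤ e) (he : e ≤ 5 / 8 * D)
    (h1 : (5 / 7 : ℝ) ^ m * (8 / (7 * D)) ^ k ≤ Real.exp (-(2 * c0)) / 4) (hN0 : 0 < N)
    (hN : 4 * Real.exp (4 * c0) ≤ N) :
    A ^ (k + m) * (Real.exp (-(2 * c0)) / 4) ≤
      (A - x) ^ (k + m) - 2 / N * (A + 2 * x) ^ (k + m) - e ^ m := by
  have hA0 : 0 < A := by linarith
  obtain ⟨y, rfl⟩ : ∃ y, x = A * y := ⟨x / A, by field_simp⟩
  have y0 : 0 ≤ y := nonneg_of_mul_nonneg_right hx hA0 |> fun _ => by nlinarith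
  have y1 : y ≤ 1 / 2 := by nlinarith
  have y2 : (k + m : ℕ) * y ≤ c0 := le_of_mul_le_mul_left (by linarith) hA0
  have a1 : Real.exp (-(2 * c0)) ≤ (1 - y) ^ (k + m) := by
    refine le_trans ?_ (pow_le_pow_left₀ (Real.exp_pos _).le (exp_le_one_sub y0 y1) _)
    rw [← Real.exp_nat_mul]
    exact Real.exp_le_exp.2 (by linarith)
  have a2 : (1 + 2 * y) ^ (k + m) ≤ Real.exp (2 * c0) := by
    refine (pow_le_pow_left₀ (by linarith) (show _ ≤ Real.exp (2 * y) by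
      linarith [Real.add_one_le_exp (2 * y)]) _).trans ?_
    rw [← Real.exp_nat_mul]
    exact Real.exp_le_exp.2 (by linarith)
  have a3 : 2 / (N : ℝ) * Real.exp (2 * c0) ≤ Real.exp (-(2 * c0)) / 2 := by
    have : Real.exp (4 * c0) * Real.exp (-(2 * c0)) = Real.exp (2 * c0) := by
      rw [← Real.exp_add]; ring_nf
    rw [div_mul_eq_mul_div, div_le_iff₀ (by exact_mod_cast hN0)]
    nlinarith [Real.exp_pos (-(2 * c0))]
  have a4 : e ^ m ≤ A ^ (k + m) * (Real.exp (-(2 * c0)) / 4) := by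
    have b1 : e ^ m ≤ (5 / 7 * A) ^ m := pow_le_pow_left₀ he0 (by linarith) m
    have b2 : 1 ≤ (8 / (7 * D) * A) ^ k := one_le_pow₀ (by
      rw [div_mul_eq_mul_div, le_div_iff₀ (by positivity)]; linarith)
    calc e ^ m ≤ (5 / 7 * A) ^ m * (8 / (7 * D) * A) ^ k :=
          b1.trans (le_mul_of_one_le_right (by positivity) b2)
      _ = A ^ (k + m) * ((5 / 7 : ℝ) ^ m * (8 / (7 * D)) ^ k) := by
          rw [mul_pow, mul_pow]; ring
      _ ≤ _ := mul_le_mul_of_nonneg_left h1 (by positivity)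
  rw [show A - A * y = A * (1 - y) by ring, show A + 2 * (A * y) = A * (1 + 2 * y) by ring,
    mul_pow, mul_pow]
  have p := pow_pos hA0 (k + m)
  have a5 := (mul_le_mul_of_nonneg_left a2 (show 0 ≤ 2 / (N : ℝ) by positivity)).trans a3
  nlinarith [mul_le_mul_of_nonneg_left a1 p.le, mul_le_mul_of_nonneg_left a5 p.le]

theorem stage1 {r : ℝ} (h0 : 0 < r) (h1 : r < 1) : ∃ (L : ℕ) (η0 : ℝ), 0 < η0 ∧
    ∀ (s m q : ℕ) (η δ c0 : ℝ), L * (s + 1) ≤ m → 0 < η → η ≤ η0 →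
    8 * (1 - η) ^ (s + 1) ≤ η → 2 * (s + m) ≤ q → 0 ≤ δ →
    δ * (q - (s + m : ℕ) + 1) = r * (s + m : ℕ) → δ ≤ η0 →
    (s + 1 + m : ℕ) * δ ≤ c0 * ((1 - r ^ 2) / 2) → 0 ≤ c0 →
    (1 / 2 : ℝ) ^ (s + 1) ≤ Real.exp (-(2 * c0)) / 4 → 4 * Real.exp (4 * c0) ≤ (s + m : ℕ) →
    ∃ T : Matrix (Fin (s + m + 1)) (Fin (s + m + 1)) ℂ, (∀ a, ∑ b, ‖T a b‖ ≤ 1) ∧
      (∀ z ∈ spectrum ℂ T, z = r) ∧ ∃ i, aa r q (s + m) 0 *
        (((1 - η) ^ 2 - r ^ 2) ^ (s + 1 + m) * (Real.exp (-(2 * c0)) / 4)) ≤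
        2 * ∑ b, ‖(T ^ q) i b‖ := by
  obtain ⟨p, hp⟩ : ∃ p, p = (1 + r) / 2 := ⟨_, rfl⟩
  have p0 : 0 < p := by linarith
  have p1 : p < 1 := by linarith
  have pr : 0 < p - r := by linarith
  obtain ⟨θ, hθ⟩ : ∃ θ, θ = p / ((1 + p) / 2) := ⟨_, rfl⟩
  have θ0 : 0 ≤ θ := by rw [hθ]; positivity
  have θ1 : θ < 1 := by rw [hθ, div_lt_one (by positivity)]; linarith
  obtain ⟨R, hR⟩ : ∃ R, R = 4 / (1 - θ) := ⟨_, rfl⟩
  have R0 : R * (1 - θ) = 4 := by rw [hR]; exact div_mul_cancel₀ _ (by linarith)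
  have R1 : 4 ≤ R := by rw [hR, le_div_iff₀ (by linarith)]; linarith
  obtain ⟨t, ht⟩ : ∃ t, t = p * (p - r) / 4 := ⟨_, rfl⟩
  have t0 : 0 < t := by rw [ht]; positivity
  have t1 : t ≤ 1 := by nlinarith
  have t2 : p * (t + r) < p ^ 2 - r * t := by nlinarith [mul_pos p0 pr]
  have t3 : 0 < p ^ 2 - r * t := lt_trans (by positivity) t2
  have D0 : 0 < 1 - r ^ 2 := by nlinarith
  obtain ⟨L1, l1⟩ := small θ0 θ1 zero_le_one
  obtain ⟨L2, l2⟩ := small (β := p * (t + r) / (p ^ 2 - r * t)) (Γ := (t + r) / (t * (p - r)))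
    (by positivity) ((div_lt_one t3).2 t2) (by positivity)
  obtain ⟨L3, l3⟩ := small (β := (θ * R + 1) / (R - 1)) (Γ := 10 * R)
    (div_nonneg (by positivity) (by linarith)) ((div_lt_one (by linarith)).2 (by linarith))
    (by positivity)
  obtain ⟨L4, l4⟩ := small (β := 5 / 7) (Γ := 8 / (7 * (1 - r ^ 2))) (by norm_num) (by norm_num)
    (by positivity)
  refine ⟨L1 + L2 + L3 + L4 + 1, (1 - r) / 16, by linarith,
    fun s m q η δ c0 hm η0 η1 Hc hq δ0 hδ δ1 hc0 c00 hs hN => ?_⟩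
  simp only [add_mul _ _ (s + 1)] at hm
  have half : (1 / 2 : ℝ) ^ (s + 1) ≤ 1 / 2 := by
    rw [pow_succ]; exact mul_le_of_le_one_left (by norm_num) (pow_le_one₀ (by norm_num) (by norm_num))
  have θ2 : p / (1 - η) ≤ θ := hθ ▸ div_le_div_of_nonneg_left p0.le (by positivity) (by linarith)
  have hA : 7 / 8 * (1 - r ^ 2) ≤ (1 - η) ^ 2 - r ^ 2 := by nlinarith
  have hrd : r * δ ≤ ((1 - η) ^ 2 - r ^ 2) / 2 := by nlinarith
  obtain ⟨T, q1, q2, i, q3⟩ := mid (ρ := 1 - η) (R := R) (θ := θ) (s := s) (m := m) h0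
    (sub_pos.1 pr) (by linarith) (by linarith) (by linarith) θ2
    (by rw [hθ, div_le_div_iff₀ p0 (by positivity)]; nlinarith [sq_nonneg (1 - r)]) t0 t1
    (sub_pos.1 t3) (by omega)
    ((pow_le_pow_left₀ (div_nonneg p0.le (by linarith)) θ2 m).trans
      (by simpa using (l1 (s + 1) m (by omega)).trans half))
    (by
      have a := (l2 (s + 1) m (by omega)).trans half
      rw [div_pow (t + r), ← mul_div_assoc, div_le_iff₀ (by positivity)] at a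
      have b : (t * (p - r)) ^ (s + 1) ≤ t ^ s * (p - r) ^ (s + 1) := by
        rw [mul_pow]
        exact mul_le_mul_of_nonneg_right (pow_le_pow_of_le_one t0.le t1 (by omega)) (by positivity)
      refine le_of_eq_of_le (b := 2 * ((p * (t + r) / (p ^ 2 - r * t)) ^ m * (t + r) ^ (s + 1))) ?_
        (by linarith)
      rw [div_eq_mul_one_div (p * (t + r)), mul_pow, mul_pow]; ring)
    (by
      have a := (l3 (s + 1) m (by omega)).trans half
      rw [div_pow, div_mul_eq_mul_div, div_le_iff₀ (pow_pos (by linarith) _), mul_pow] at a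
      have b : (10 : ℝ) ≤ 10 ^ (s + 1) := le_self_pow₀ (by norm_num) (by omega)
      have c := mul_le_mul_of_nonneg_right b
        (show 0 ≤ R ^ (s + 1) * (θ * R + 1) ^ m by positivity)
      have d : 0 ≤ (R - 1) ^ m := pow_nonneg (by linarith) _
      linarith)
    (by rwa [sub_sub_cancel]) hq δ0 hδ (by linarith) (by nlinarith)
  refine ⟨T, q1, q2, i, le_trans (mul_le_mul_of_nonneg_left ?_
    (by unfold aa; split_ifs <;> positivity)) q3⟩
  rw [show s + m + 1 = s + 1 + m by omega]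
  have pp : 0 ≤ 1 - p ^ 2 := by nlinarith
  refine bracket D0 hA (by positivity) hrd ?_ (by positivity) ?_
    ((l4 (s + 1) m (by omega)).trans hs) (by omega) hN
  · have a := mul_le_mul_of_nonneg_left (mul_le_of_le_one_left δ0 h1.le)
      (show (0 : ℝ) ≤ (s + 1 + m : ℕ) by positivity)
    have b := mul_le_mul_of_nonneg_left (show (1 - r ^ 2) / 2 ≤ (1 - η) ^ 2 - r ^ 2 by linarith) c00
    linarith
  · rw [div_le_iff₀ p0, hp]
    nlinarith [mul_pos h0 (sub_pos.2 h1), mul_pos (mul_pos h0 h0) (sub_pos.2 h1),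
      mul_nonneg (mul_pos h0 (sub_pos.2 h1)).le (sub_pos.2 h1).le]

end Pool.Agent.MP_c71a08_an.H32
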