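import Mathlib

namespace Pool.Agent.MP_c71a08_an.H32

/-- `z ^ n ≡ ∑_{k<n} cc n r k * z ^ k` modulo `(z - r) ^ n`. -/
noncomputable def cc (n : ℕ) (r : ℝ) (k : ℕ) : ℝ :=
  (-1) ^ (n - 1 - k) * ((n.choose k : ℝ) * r ^ (n - k))

/-- `α = ((1 + r) ^ n - 2) / (2 n r)`. -/
noncomputable def al (n : ℕ) (r : ℝ) : ℝ := ((1 + r) ^ n - 2) / (2 * n * r)

/-- the mass `α` spread proportionally to the positive parts of `cc n r k`, `k < n - 1`. -/
noncomputable def yy (n : ℕ) (r : ℝ) (k : ℕ) : ℝ :=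
  al n r / (∑ l ∈ Finset.range (n - 1), max (cc n r l) 0) * max (cc n r k) 0

/-- entry `(j, k)` (indices from `0`) of the extremal matrix. -/
noncomputable def ent (n : ℕ) (r : ℝ) (j k : ℕ) : ℝ :=
  if j + 2 < n then (if k = j + 1 then 1 else 0)
  else if j + 2 = n then (if k + 1 = n then 1 - al n r else -yy n r k)
  else if k + 1 = n then n * r
  else (cc n r k + (if k = 0 then 0 else yy n r (k - 1)) - n * r * yy n r k) / (1 - al n r)

/-- the extremal matrix: a companion matrix of `(z - r) ^ n` with the last basis vector changed. -/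
noncomputable def Tex (n : ℕ) (r : ℝ) : Matrix (Fin n) (Fin n) ℂ :=
  Matrix.of fun j k => ((ent n r j k : ℝ) : ℂ)

end Pool.Agent.MP_c71a08_an.H32
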