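import Pool.Agent.MP_c71a08_an.Defs
import Pool.Agent.MP_c71a08_an.H32.Big
import Pool.Agent.MP_c71a08_an.H38.Upper

namespace Pool.Agent.MP_c71a08_an.H32

theorem row_le {n : ℕ} (T : Matrix (Fin n) (Fin n) ℂ) (i : Fin n) : ∑ j, ‖T i j‖ ≤ opNorm T :=
  le_ciSup (f := fun i => ∑ j, ‖T i j‖) (Set.finite_range _).bddAbove i

theorem M_le {n : ℕ} {r b : ℝ} (hb : 0 ≤ b) (h : ∀ T : Matrix (Fin n) (Fin n) ℂ,
    (∀ i, ∑ j, ‖T i j‖ ≤ 1) → (∀ μ ∈ spectrum ℂ T, ‖μ‖ ≤ r) →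
    ∀ i, ∑ j, ‖(T ^ (n ^ 2 - n + 1)) i j‖ ≤ b) : M n r ≤ b :=
  Real.sSup_le (by
    rintro t ⟨T, q1, q2, rfl⟩
    exact Real.iSup_le (h T (fun j => (row_le T j).trans q1) q2) hb) hb

theorem row_pow_le {n : ℕ} (T : Matrix (Fin n) (Fin n) ℂ) (hT : ∀ i, ∑ j, ‖T i j‖ ≤ 1) (q : ℕ) :
    ∀ i, ∑ j, ‖(T ^ q) i j‖ ≤ 1 := by
  induction q with
  | zero => intro i; simp [Matrix.one_apply, apply_ite norm]
  | succ q ih =>
    intro i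
    simp only [pow_succ, Matrix.mul_apply]
    refine (Finset.sum_le_sum fun j _ => norm_sum_le _ _).trans ?_
    rw [Finset.sum_comm]
    refine (Finset.sum_le_sum fun l _ => ?_).trans (ih i)
    simp only [norm_mul, ← Finset.mul_sum]
    exact mul_le_of_le_one_right (norm_nonneg _) (hT l)

theorem le_M {n : ℕ} {r : ℝ} (T : Matrix (Fin n) (Fin n) ℂ) (hT : ∀ i, ∑ j, ‖T i j‖ ≤ 1)
    (hs : ∀ μ ∈ spectrum ℂ T, ‖μ‖ ≤ r) (i : Fin n) : ∑ j, ‖(T ^ (n ^ 2 - n + 1)) i j‖ ≤ M n r :=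
  (row_le _ i).trans (le_csSup ⟨1, by
    rintro t ⟨T, q1, -, rfl⟩
    exact Real.iSup_le (row_pow_le T (fun j => (row_le T j).trans q1) _) zero_le_one⟩
    ⟨T, Real.iSup_le hT zero_le_one, hs, rfl⟩)

theorem fixed {r : ℝ} (h0 : 0 < r) (h1 : r < 1) : ∃ K n0 : ℕ, ∀ n ≥ n0,
    ((n ^ 2 - n + 1).choose (n - 1) : ℝ) * r ^ (n ^ 2 - n + 1 - (n - 1)) * (1 - r ^ 2) ^ (n - 1) ≤
      (n : ℝ) ^ K * M n r ∧
    M n r ≤ (n : ℝ) ^ K * (((n ^ 2 - n + 1).choose (n - 1) : ℝ) * r ^ (n ^ 2 - n + 1 - (n - 1)) *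
      (1 - r ^ 2) ^ (n - 1)) := by
  obtain ⟨K, n1, H1⟩ := big_lower h0 h1
  obtain ⟨C, n2, H2⟩ := H38.upper h0 h1
  obtain ⟨n3, h3⟩ := exists_nat_ge C
  have D0 : 0 < 1 - r ^ 2 := by nlinarith
  refine ⟨K + 4, n1 + n2 + n3 + 1, fun n hn => ?_⟩
  have n1' : (1 : ℝ) ≤ n := by exact_mod_cast (show 1 ≤ n by omega)
  constructor
  · obtain ⟨T, t1, t2, i, t3⟩ := H1 n (by omega)
    exact t3.trans (mul_le_mul (pow_le_pow_right₀ n1' (by omega)) (le_M T t1 t2 i) (by positivity)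
      (by positivity))
  · refine M_le (by positivity) fun T t1 t2 i => (H2 n (by omega) T t1 t2 i).trans
      (mul_le_mul_of_nonneg_right ?_ (by positivity))
    have : C ≤ n := h3.trans (by exact_mod_cast (show n3 ≤ n by omega))
    calc C * (n : ℝ) ^ 3 ≤ (n : ℝ) * (n : ℝ) ^ 3 := by gcongr
      _ = (n : ℝ) ^ 4 := by ring
      _ ≤ _ := pow_le_pow_right₀ n1' (by omega)

end Pool.Agent.MP_c71a08_an.H32
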