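import Pool.Agent.MP_c71a08_an.H32.Avg

namespace Pool.Agent.MP_c71a08_an.H32

theorem V_eq (r : ℝ) (m k : ℕ) :
    V r m k = (m + 1) * r * A r m k - E r m k * ((1 + r) ^ (m + 1) - 2) := by
  simp only [V, G]; ring

theorem kap5 {n : ℕ} (hn : 5 ≤ n) {r : ℝ} (h0 : 0 ≤ r) (h1 : r ≤ 1)
    (h : (1 - r) ^ n + 2 * n * r ≤ 2) : (1 + r) ^ n - 2 ≤ 3 / 10 * (n * r) := by
  have hn' : (5 : ℝ) ≤ n := by exact_mod_cast hn
  have b1 := one_add_mul_self_le_rpow_one_add (s := -r) (by linarith) (p := n / 3) (by linarith)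
  have hp : 0 ≤ (1 - r) ^ n := pow_nonneg (by linarith) _
  set x := n * r with hx
  have hx0 : 0 ≤ x := by positivity
  have hx1 : x ≤ 1 := by nlinarith
  have b2 : (1 - x / 3) ^ 3 ≤ (1 - r) ^ n := by
    have e : (1 - r) ^ n = ((1 + -r) ^ ((n : ℝ) / 3)) ^ 3 := by
      rw [← Real.rpow_natCast _ 3, ← Real.rpow_mul (by linarith), ← Real.rpow_natCast]
      congr 1; push_cast; ring
    rw [e]
    exact pow_le_pow_left₀ (by linarith) (le_of_eq_of_le (by rw [hx]; ring) b1) 3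
  have hx2 : x ≤ 0.804 := by
    by_contra hc
    push Not at hc
    have : 2 * n * r = 2 * x := by rw [hx]; ring
    nlinarith [mul_nonneg (sub_nonneg.2 hc.le) (sub_nonneg.2 hx1),
      mul_nonneg (mul_nonneg (sub_nonneg.2 hc.le) (sub_nonneg.2 hx1)) hx0]
  have b3 : (1 + r) ^ n ≤ Real.exp x := by
    rw [hx, Real.exp_nat_mul]
    exact pow_le_pow_left₀ (by linarith) (by linarith [Real.add_one_le_exp r]) n
  have b4 := Real.exp_bound' hx0 hx1 (n := 4) (by norm_num)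
  simp only [Finset.sum_range_succ, Finset.sum_range_zero, Nat.factorial] at b4
  have p2 := pow_le_pow_left₀ hx0 hx2 2
  have p3 := pow_le_pow_left₀ hx0 hx2 3
  have p4 := pow_le_pow_left₀ hx0 hx2 4
  norm_num at b4 p2 p3 p4 hx2 ⊢
  linarith

theorem gen {r κ t t' : ℝ} (hr : 0 < r) (m k : ℕ) (h2 : 2 ≤ (1 + r) ^ (m + 2))
    (hκ : (1 + r) ^ (m + 2) - 2 ≤ κ * ((m + 2) * r)) (hκ1 : κ ≤ 1) (ht' : 0 ≤ t')
    (c1 : t * (m + 1 + (k + 2)) ≤ k + 2) (c2 : t' * (m + 1 + (k + 1)) ≤ k + 1)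
    (c3 : 1 ≤ (2 - κ) * t) (c4 : 1 ≤ (1 - κ) * (t * (1 + t'))) :
    (m + 2) * A r (m + 1) (k + 3) ≤ (m + 2) * r * A r (m + 1) (k + 2) + V r (m + 1) (k + 2) ∧
    (m + 2) * A r (m + 1) (k + 3) ≤ V r (m + 1) (k + 2) + r * V r (m + 1) (k + 1) := by
  have hV : ∀ j, (m + 2) * ((1 - κ) * (r * A r (m + 1) j)) ≤ V r (m + 1) j := by
    intro j
    rw [V_eq]
    have := mul_le_mul (E_le_A hr.le (m + 1) j) hκ (by linarith) (A_nonneg hr.le _ _)
    push_cast
    simp only [add_assoc, Nat.reduceAdd] at *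
    nlinarith
  have r1 := A_ratio hr.le (m + 1) (k + 2)
  have r2 := A_ratio hr.le (m + 1) (k + 1)
  push_cast at r1 r2
  have p3 := A_nonneg hr.le (m + 1) (k + 3)
  have p2 := A_nonneg hr.le (m + 1) (k + 2)
  have s1 : t * A r (m + 1) (k + 3) ≤ r * A r (m + 1) (k + 2) := by
    refine le_of_mul_le_mul_left ?_ (show (0 : ℝ) < m + 1 + (k + 2) by positivity)
    nlinarith [mul_le_mul_of_nonneg_right c1 p3]
  have s2 : t' * A r (m + 1) (k + 2) ≤ r * A r (m + 1) (k + 1) := by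
    refine le_of_mul_le_mul_left ?_ (show (0 : ℝ) < m + 1 + (k + 1) by positivity)
    nlinarith [mul_le_mul_of_nonneg_right c2 p2]
  have hn : (0 : ℝ) ≤ m + 2 := by positivity
  have u0 : A r (m + 1) (k + 3) ≤ (2 - κ) * (r * A r (m + 1) (k + 2)) := by
    nlinarith [mul_le_mul_of_nonneg_right c3 p3, mul_le_mul_of_nonneg_left s1
      (show 0 ≤ 2 - κ by linarith)]
  have u1 : A r (m + 1) (k + 3) ≤
      (1 - κ) * (r * A r (m + 1) (k + 2) + r * (r * A r (m + 1) (k + 1))) := by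
    have q1 := mul_le_mul_of_nonneg_left s2 hr.le
    have q2 := mul_le_mul_of_nonneg_left s1 ht'
    have q3 : t * (1 + t') * A r (m + 1) (k + 3) ≤
        r * A r (m + 1) (k + 2) + r * (r * A r (m + 1) (k + 1)) := by nlinarith
    nlinarith [mul_le_mul_of_nonneg_right c4 p3, mul_le_mul_of_nonneg_left q3
      (show 0 ≤ 1 - κ by linarith)]
  constructor
  · nlinarith [mul_le_mul_of_nonneg_left u0 hn, hV (k + 2)]
  · nlinarith [mul_le_mul_of_nonneg_left u1 hn, hV (k + 2),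
      mul_le_mul_of_nonneg_left (hV (k + 1)) hr.le]

theorem ineqs {r : ℝ} (hr : 0 < r) (h1 : r ≤ 1) (m k : ℕ) (hk : k + 2 = (m + 1) ^ 2)
    (h2 : 2 ≤ (1 + r) ^ (m + 2)) (h : (1 - r) ^ (m + 2) + 2 * (m + 2 : ℕ) * r ≤ 2) :
    (m + 2) * A r (m + 1) (k + 3) ≤ (m + 2) * r * A r (m + 1) (k + 2) + V r (m + 1) (k + 2) ∧
    (m + 2) * A r (m + 1) (k + 3) ≤ V r (m + 1) (k + 2) + r * V r (m + 1) (k + 1) := by
  have hp : 0 ≤ (1 - r) ^ (m + 2) := pow_nonneg (by linarith) _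
  have hk' : (k : ℝ) + 2 = (m + 1) ^ 2 := by exact_mod_cast hk
  rcases m with _ | _ | _ | m
  · omega
  · have e : (k : ℝ) = 2 := by norm_num at hk'; linarith
    refine gen (κ := 1 / 16) (t := 2 / 3) (t' := 3 / 5) hr _ _ h2 ?_ (by norm_num) (by norm_num)
      (by rw [e]; norm_num) (by rw [e]; norm_num) (by norm_num) (by norm_num)
    norm_num at h hp ⊢
    have : r ≤ 0.3 := by
      by_contra hc
      push Not at hc
      nlinarith [mul_nonneg (sub_nonneg.2 hc.le) (sub_nonneg.2 h1)]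
    nlinarith [mul_pos hr hr]
  · have e : (k : ℝ) = 7 := by norm_num at hk'; linarith
    refine gen (κ := 1 / 5) (t := 3 / 4) (t' := 8 / 11) hr _ _ h2 ?_ (by norm_num) (by norm_num)
      (by rw [e]; norm_num) (by rw [e]; norm_num) (by norm_num) (by norm_num)
    norm_num at h hp ⊢
    have : r ≤ 1 / 4 := by linarith
    nlinarith [mul_pos hr hr]
  · have hm : (0 : ℝ) ≤ m := by positivity
    have := kap5 (by omega) hr.le h1 h
    push_cast at hk' this
    refine gen (κ := 3 / 10) (t := 4 / 5) (t' := 15 / 19) hr _ _ h2 ?_ (by norm_num) (by norm_num)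
      ?_ ?_ (by norm_num) (by norm_num)
    · push_cast; linarith
    · push_cast; nlinarith
    · push_cast; nlinarith

end Pool.Agent.MP_c71a08_an.H32
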