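import Mathlib

namespace Pool.Agent.MP_c71a08_an.H32

variable (r : ℝ)

noncomputable def tm (n q : ℕ) : ℝ := (q.choose n : ℝ) * r ^ (q - n) * (1 + r) ^ n

noncomputable def a : ℕ → ℕ → ℝ
  | 0, _ => 0
  | n + 1, q => tm r n q - a n q

theorem a_succ (n q : ℕ) : a r (n + 1) q = tm r n q - a r n q := rfl

theorem tm_pascal (n q : ℕ) : tm r (n + 1) (q + 1) = r * tm r (n + 1) q + (1 + r) * tm r n q := by
  unfold tm
  rw [Nat.choose_succ_succ', Nat.add_sub_add_right]
  rcases lt_or_ge n q with h | h
  · obtain ⟨d, rfl⟩ := Nat.exists_eq_add_of_lt h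
    rw [show n + d + 1 - n = d + 1 by omega, show n + d + 1 - (n + 1) = d by omega]
    push_cast; ring
  · rw [Nat.choose_eq_zero_of_lt (show q < n + 1 by omega)]
    push_cast; ring

theorem a_pascal (n q : ℕ) : a r (n + 1) (q + 1) = r * a r (n + 1) q + (1 + r) * a r n q := by
  induction n with
  | zero => simp [a, tm, pow_succ, mul_comm]
  | succ n ih => rw [a_succ, ih, tm_pascal, a_succ r (n + 1) q, a_succ r n q]; ring

theorem a_diag (q : ℕ) : a r (q + 1) q = 1 := by
  induction q with
  | zero => simp [a, tm]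
  | succ q ih => rw [a_pascal, a_succ r (q + 1) q, ih]; simp [tm]

theorem a_closed (n q : ℕ) : a r n q =
    ∑ i ∈ Finset.range n, (-1) ^ (n - 1 - i) * (q.choose i : ℝ) * r ^ (q - i) * (1 + r) ^ i := by
  induction n with
  | zero => simp [a]
  | succ n ih =>
    rw [a_succ, ih, Finset.sum_range_succ, sub_eq_neg_add, ← Finset.sum_neg_distrib]
    congr 1
    · refine Finset.sum_congr rfl fun i hi => ?_
      rw [show n + 1 - 1 - i = n - 1 - i + 1 by have := Finset.mem_range.1 hi; omega]
      ring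
    · simp [tm]

noncomputable def A (m k : ℕ) : ℝ := a r (m + 1) (m + k)
noncomputable def E (m k : ℕ) : ℝ := ((m + k).choose m : ℝ) * r ^ k
noncomputable def G (m k : ℕ) : ℝ := (m + 1) * r * A r m k - E r m k * ((1 + r) ^ (m + 1) - 1)

theorem A_zero (m : ℕ) : A r m 0 = 1 := a_diag r m
theorem A_zero' (k : ℕ) : A r 0 k = r ^ k := by simp [A, a, tm]
theorem A_succ (m k : ℕ) : A r (m + 1) (k + 1) = r * A r (m + 1) k + (1 + r) * A r m (k + 1) := by
  unfold A
  rw [← add_assoc, a_pascal, show m + (k + 1) = m + 1 + k by omega]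
theorem E_zero (m : ℕ) : E r m 0 = 1 := by simp [E]
theorem E_zero' (k : ℕ) : E r 0 k = r ^ k := by simp [E]
theorem E_succ (m k : ℕ) : E r (m + 1) (k + 1) = r * E r (m + 1) k + E r m (k + 1) := by
  unfold E
  rw [← add_assoc, Nat.choose_succ_succ', show m + (k + 1) = m + 1 + k by omega]
  push_cast; ring
theorem E_one (m : ℕ) : E r m 1 = (m + 1) * r := by simp [E]
theorem A_one (m : ℕ) : A r m 1 = (1 + r) ^ (m + 1) - 1 := by
  induction m with
  | zero => simp [A_zero']
  | succ m ih => rw [show 1 = 0 + 1 from rfl, A_succ, A_zero, zero_add, ih]; ring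
theorem G_one (m : ℕ) : G r m 1 = 0 := by rw [G, A_one, E_one]; ring
theorem G_zero' (k : ℕ) : G r 0 k = 0 := by simp [G, A_zero', E_zero', mul_comm]
theorem G_succ (m k : ℕ) : G r (m + 1) (k + 1) = r * G r (m + 1) k + ((1 + r) * G r m (k + 1) +
    r * ((1 + r) * (A r m (k + 1) - E r m (k + 1)) + r * E r m (k + 1))) := by
  simp only [G, A_succ, E_succ]; push_cast; ring

variable {r}

theorem E_nonneg (hr : 0 ≤ r) (m k : ℕ) : 0 ≤ E r m k := by unfold E; positivity

theorem E_le_A (hr : 0 ≤ r) (m k : ℕ) : E r m k ≤ A r m k := by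
  induction m generalizing k with
  | zero => rw [A_zero', E_zero']
  | succ m ih =>
    induction k with
    | zero => rw [A_zero, E_zero]
    | succ k ihk =>
      rw [A_succ, E_succ]
      have h1 := ih (k + 1)
      have h2 := E_nonneg hr m (k + 1)
      nlinarith [mul_le_mul_of_nonneg_left ihk hr, mul_le_mul_of_nonneg_left (h2.trans h1) hr]

theorem A_nonneg (hr : 0 ≤ r) (m k : ℕ) : 0 ≤ A r m k := (E_nonneg hr m k).trans (E_le_A hr m k)

theorem A_ratio (hr : 0 ≤ r) (m k : ℕ) : k * A r m (k + 1) ≤ (m + k) * (r * A r m k) := by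
  induction m generalizing k with
  | zero => simp [A_zero', pow_succ, mul_comm]
  | succ m ih =>
    have key : ∀ k : ℕ, k * ((1 + r) * A r m (k + 1)) ≤ (m + 1) * (r * A r (m + 1) k) := by
      intro k
      induction k with
      | zero => rw [A_zero]; simp; positivity
      | succ k ihk =>
        rw [A_succ]
        have h1 := mul_le_mul_of_nonneg_left (ih (k + 1)) (show 0 ≤ 1 + r by linarith)
        have h2 := mul_le_mul_of_nonneg_left ihk hr
        push_cast at h1 ⊢
        nlinarith
    rw [A_succ]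
    have := key k
    push_cast
    nlinarith

end Pool.Agent.MP_c71a08_an.H32
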