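import Pool.Agent.MP_c71a08_an.H32.Defs
import Pool.Agent.MP_c71a08_an.H32.Num

namespace Pool.Agent.MP_c71a08_an.H32

open Finset Matrix

theorem cc_eq {n k : ℕ} (r : ℝ) (hk : k < n) : cc n r k = -((n.choose k : ℝ) * (-r) ^ (n - k)) := by
  obtain ⟨d, rfl⟩ := Nat.exists_eq_add_of_lt hk
  rw [cc, show k + d + 1 - 1 - k = d by omega, show k + d + 1 - k = d + 1 by omega, neg_pow r]
  ring

theorem sum_cc {K : Type} [CommRing K] [Algebra ℝ K] (n : ℕ) (r : ℝ) (μ : K) :
    ∑ k ∈ range n, algebraMap ℝ K (cc n r k) * μ ^ k = μ ^ n - (μ - algebraMap ℝ K r) ^ n := by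
  rw [sub_eq_add_neg μ, add_pow, sum_range_succ]
  simp only [Nat.sub_self, pow_zero, Nat.choose_self, Nat.cast_one, mul_one]
  rw [sub_add_cancel_right, ← sum_neg_distrib]
  refine sum_congr rfl fun k hk => ?_
  rw [cc_eq r (mem_range.1 hk)]
  simp only [map_neg, map_mul, map_natCast, map_pow]
  ring

theorem rec_of {r β : ℝ} (f : ℕ → ℕ → ℝ) (h0 : ∀ q, f 0 q = 0)
    (hf : ∀ n q, f (n + 1) (q + 1) = r * f (n + 1) q + β * f n q) (n j : ℕ) :
    ∑ k ∈ range (n + 1), (n.choose k : ℝ) * ((-r) ^ (n - k) * f n (j + k)) = 0 := by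
  induction n with
  | zero => simp [h0]
  | succ n ih =>
    rw [sum_choose_succ_mul (fun i l => (-r) ^ l * f (n + 1) (j + i)), ← sum_add_distrib,
      ← mul_zero β, ← ih, mul_sum]
    refine sum_congr rfl fun k hk => ?_
    rw [← add_assoc, hf, show n + 1 - k = n - k + 1 by have := mem_range.1 hk; omega]
    ring

theorem rec_cc {r β : ℝ} (f : ℕ → ℕ → ℝ) (h0 : ∀ q, f 0 q = 0)
    (hf : ∀ n q, f (n + 1) (q + 1) = r * f (n + 1) q + β * f n q) (n j : ℕ) :
    f n (j + n) = ∑ k ∈ range n, cc n r k * f n (j + k) := by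
  have h := rec_of f h0 hf n j
  rw [sum_range_succ] at h
  simp only [Nat.sub_self, pow_zero, Nat.choose_self, Nat.cast_one, one_mul] at h
  rw [eq_neg_of_add_eq_zero_right h, ← sum_neg_distrib]
  refine sum_congr rfl fun k hk => ?_
  rw [cc_eq r (mem_range.1 hk)]; ring

noncomputable def e (r : ℝ) : ℕ → ℕ → ℝ
  | 0, _ => 0
  | n + 1, q => (q.choose n : ℝ) * r ^ (q - n)

theorem e_pascal (r : ℝ) (n q : ℕ) : e r (n + 1) (q + 1) = r * e r (n + 1) q + 1 * e r n q := by
  cases n with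
  | zero => simp [e, pow_succ']
  | succ n =>
    simp only [e]
    rw [Nat.choose_succ_succ', Nat.add_sub_add_right]
    rcases lt_or_ge n q with h | h
    · obtain ⟨d, rfl⟩ := Nat.exists_eq_add_of_lt h
      rw [show n + d + 1 - n = d + 1 by omega, show n + d + 1 - (n + 1) = d by omega]
      push_cast; ring
    · rw [Nat.choose_eq_zero_of_lt (show q < n + 1 by omega)]
      push_cast; ring

theorem a_low (r : ℝ) (k d : ℕ) : a r (k + 1 + d) k = (-1) ^ d := by
  induction d with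
  | zero => simp [a_diag]
  | succ d ih =>
    rw [← add_assoc, a_succ, ih, tm, Nat.choose_eq_zero_of_lt (by omega)]
    ring

/-- state vector of a sequence -/
noncomputable def St (n : ℕ) (r : ℝ) (u : ℕ → ℂ) (k : ℕ) : ℂ :=
  if k + 1 = n then (u k + ∑ l ∈ range (n - 1), (yy n r l : ℂ) * u l) / (1 - (al n r : ℂ))
  else u k

theorem yy_last (m : ℕ) {r : ℝ} (hr : 0 ≤ r) : yy (m + 2) r m = 0 := by
  have : cc (m + 2) r m ≤ 0 := by
    rw [cc, show m + 2 - 1 - m = 1 by omega, pow_one, neg_one_mul, neg_nonpos]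
    positivity
  rw [yy, max_eq_right this, mul_zero]

theorem cc_last (m : ℕ) (r : ℝ) : cc (m + 2) r (m + 1) = (m + 2 : ℕ) * r := by
  rw [cc, Nat.choose_succ_self_right, show m + 2 - 1 - (m + 1) = 0 by omega,
    show m + 2 - (m + 1) = 1 by omega]
  push_cast; ring

theorem step_St (m : ℕ) {r : ℝ} (hr : 0 ≤ r) (ha : al (m + 2) r ≠ 1) (u : ℕ → ℂ)
    (hu : u (m + 2) = ∑ k ∈ range (m + 2), (cc (m + 2) r k : ℂ) * u k) :
    Tex (m + 2) r *ᵥ (fun k => St (m + 2) r u k) =
      fun k : Fin (m + 2) => St (m + 2) r (fun i => u (i + 1)) k := by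
  have ha' : (1 : ℂ) - (al (m + 2) r : ℂ) ≠ 0 := by
    rw [sub_ne_zero]; exact_mod_cast ha.symm
  ext ⟨j, hj⟩
  simp only [mulVec, dotProduct, Tex, of_apply]
  rw [Fin.sum_univ_eq_sum_range (fun k => (ent (m + 2) r j k : ℂ) * St (m + 2) r u k), sum_range_succ]
  have hS : ∀ g : ℕ → ℂ, ∑ k ∈ range (m + 1), g k * St (m + 2) r u k =
      ∑ k ∈ range (m + 1), g k * u k := fun g => sum_congr rfl fun k hk => by
    rw [St, if_neg (by have := mem_range.1 hk; omega)]
  rw [hS]
  rcases lt_trichotomy j m with h | rfl | h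
  · have : ∀ k, ent (m + 2) r j k = if k = j + 1 then 1 else 0 := fun k => if_pos (by omega)
    simp only [this]
    rw [sum_eq_single (j + 1) (fun b _ hb => by simp [hb]) (fun hb => absurd (mem_range.2 (by omega)) hb),
      if_neg (show ¬ m + 1 = j + 1 by omega), St, St, if_neg (show ¬ j + 1 = m + 2 by omega)]
    simp
  · have h1 : ∀ k ∈ range (j + 1), (ent (j + 2) r j k : ℂ) * u k = -((yy (j + 2) r k : ℂ) * u k) := by
      intro k hk
      have := mem_range.1 hk
      rw [ent, if_neg (by omega), if_pos rfl, if_neg (by omega)]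
      simp
    rw [sum_congr rfl h1, sum_neg_distrib, ent, if_neg (by omega), if_pos rfl, if_pos rfl, St, St,
      if_pos rfl, if_neg (by omega)]
    push_cast
    rw [mul_div_cancel₀ _ ha']
    simp
  · obtain rfl : j = m + 1 := by omega
    have h1 : ∀ k ∈ range (m + 1), (ent (m + 2) r (m + 1) k : ℂ) * u k =
        ((cc (m + 2) r k : ℂ) * u k + ((if k = 0 then 0 else yy (m + 2) r (k - 1) : ℝ) : ℂ) * u k -
          (m + 2 : ℕ) * r * ((yy (m + 2) r k : ℂ) * u k)) / (1 - (al (m + 2) r : ℂ)) := by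
      intro k hk
      have := mem_range.1 hk
      rw [ent, if_neg (by omega), if_neg (by omega), if_neg (by omega)]
      push_cast; ring
    rw [sum_congr rfl h1, ← sum_div, sum_sub_distrib, sum_add_distrib, ← mul_sum, ent,
      if_neg (by omega), if_neg (by omega), if_pos rfl, St, St, if_pos rfl, if_pos rfl, hu,
      sum_range_succ _ (m + 1), cc_last, show m + 2 - 1 = m + 1 from rfl,
      sum_range_succ' (fun k => ((if k = 0 then 0 else yy (m + 2) r (k - 1) : ℝ) : ℂ) * u k),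
      sum_range_succ (fun l => (yy (m + 2) r l : ℂ) * u (l + 1)), yy_last m hr]
    simp only [Nat.add_eq_zero_iff, one_ne_zero, and_false, if_false, if_true, Nat.add_sub_cancel]
    push_cast
    ring

end Pool.Agent.MP_c71a08_an.H32
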