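import Pool.Agent.MP_c71a08_an.H32.Low1

namespace Pool.Agent.MP_c71a08_an.H32

open Finset Matrix

structure Hyp (m : ℕ) (r : ℝ) : Prop where
  h0 : 0 < r
  h1 : r ≤ 1
  h2 : 2 ≤ (1 + r) ^ (m + 2)
  h3 : (1 - r) ^ (m + 2) + 2 * (m + 2 : ℕ) * r ≤ 2

variable {m : ℕ} {r : ℝ}

theorem Hyp.al_eq (H : Hyp m r) : 2 * ((m + 2 : ℕ) * r) * al (m + 2) r = (1 + r) ^ (m + 2) - 2 := by
  have := H.h0
  rw [al]; field_simp

theorem Hyp.al_nonneg (H : Hyp m r) : 0 ≤ al (m + 2) r :=
  div_nonneg (sub_nonneg.2 H.h2) (by have := H.h0; positivity)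

theorem Hyp.al_lt (H : Hyp m r) : al (m + 2) r < 1 := by
  have h0 := H.h0
  have hp : 0 ≤ (1 - r) ^ (m + 2) := pow_nonneg (by linarith [H.h1]) _
  have hx0 : 0 < ((m + 2 : ℕ) : ℝ) * r := by positivity
  have hx1 : ((m + 2 : ℕ) : ℝ) * r ≤ 1 := by nlinarith [H.h3]
  have b3 : (1 + r) ^ (m + 2) ≤ Real.exp ((m + 2 : ℕ) * r) := by
    rw [Real.exp_nat_mul]
    exact pow_le_pow_left₀ (by linarith) (by linarith [Real.add_one_le_exp r]) _
  have b4 := (abs_le.1 (Real.abs_exp_sub_one_sub_id_le (abs_le.2 ⟨by linarith, hx1⟩))).2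
  rw [al, div_lt_one (by positivity)]
  nlinarith

theorem cc_abs (hr : 0 ≤ r) (n k : ℕ) : |cc n r k| = (n.choose k : ℝ) * r ^ (n - k) := by
  rw [cc, abs_mul, abs_pow, abs_neg, abs_one, one_pow, one_mul, abs_of_nonneg (by positivity)]

theorem S_eq (hr : 0 ≤ r) : 2 * ∑ l ∈ range (m + 2 - 1), max (cc (m + 2) r l) 0 =
    (1 + r) ^ (m + 2) - (1 - r) ^ (m + 2) - 2 * ((m + 2 : ℕ) * r) := by
  have h1 := sum_cc (m + 2) r (1 : ℝ)
  have h2 := add_pow 1 r (m + 2)
  simp only [one_pow, mul_one, one_mul, Algebra.algebraMap_self, RingHom.id_apply] at h1 h2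
  rw [sum_range_succ, cc_last] at h1
  rw [sum_range_succ, sum_range_succ, Nat.choose_succ_self_right,
    show m + 2 - (m + 1) = 1 by omega] at h2
  simp only [Nat.sub_self, pow_zero, Nat.choose_self, Nat.cast_one, mul_one, pow_one] at h2
  have h3 : ∀ l ∈ range (m + 1), 2 * max (cc (m + 2) r l) 0 =
      r ^ (m + 2 - l) * ((m + 2).choose l : ℝ) + cc (m + 2) r l := by
    intro l _
    rw [mul_comm (r ^ _), ← cc_abs hr]
    rcases le_total (cc (m + 2) r l) 0 with h | h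
    · rw [max_eq_right h, abs_of_nonpos h]; ring
    · rw [max_eq_left h, abs_of_nonneg h]; ring
  rw [show m + 2 - 1 = m + 1 from rfl, mul_sum, sum_congr rfl h3, sum_add_distrib]
  linarith

theorem Hyp.le_S (H : Hyp m r) : (m + 2 : ℕ) * r * al (m + 2) r ≤
    ∑ l ∈ range (m + 2 - 1), max (cc (m + 2) r l) 0 := by
  have := S_eq (m := m) H.h0.le
  linarith [H.al_eq, H.h3]

/-- `yy = τ * max cc 0` with `0 ≤ τ`, `n r τ ≤ 1`. -/
theorem Hyp.tau (H : Hyp m r) : ∃ τ : ℝ, 0 ≤ τ ∧ (m + 2 : ℕ) * r * τ ≤ 1 ∧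
    ∀ k, yy (m + 2) r k = τ * max (cc (m + 2) r k) 0 := by
  have hS : 0 ≤ ∑ l ∈ range (m + 2 - 1), max (cc (m + 2) r l) 0 :=
    sum_nonneg fun _ _ => le_max_right _ _
  refine ⟨_, div_nonneg H.al_nonneg hS, ?_, fun k => rfl⟩
  rw [← mul_div_assoc]
  exact div_le_one_of_le₀ H.le_S hS

theorem Hyp.sum_yy (H : Hyp m r) : ∑ l ∈ range (m + 1), yy (m + 2) r l = al (m + 2) r := by
  simp only [yy]
  rw [← mul_sum, show m + 2 - 1 = m + 1 from rfl]
  rcases eq_or_ne (∑ l ∈ range (m + 1), max (cc (m + 2) r l) 0) 0 with h | h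
  · have h1 := H.le_S
    rw [show m + 2 - 1 = m + 1 from rfl, h] at h1
    have h0 := H.h0
    have : al (m + 2) r = 0 := le_antisymm (by
      by_contra hc
      push Not at hc
      exact absurd h1 (not_le.2 (by positivity))) H.al_nonneg
    rw [h, this, mul_zero]
  · exact div_mul_cancel₀ _ h

theorem Hyp.yy_nonneg (H : Hyp m r) (k : ℕ) : 0 ≤ yy (m + 2) r k := by
  obtain ⟨τ, h0, -, h⟩ := H.tau
  rw [h]; exact mul_nonneg h0 (le_max_right _ _)

theorem Hyp.yy_sign (H : Hyp m r) (k : ℕ) :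
    yy (m + 2) r k * (-1) ^ (m + 1 - k) = yy (m + 2) r k := by
  obtain ⟨τ, -, -, h⟩ := H.tau
  have h0 := H.h0
  rcases neg_one_pow_eq_or ℝ (m + 1 - k) with e | e
  · rw [e, mul_one]
  · rw [h, cc, show m + 2 - 1 - k = m + 1 - k from rfl, e, max_eq_right, mul_zero, zero_mul]
    rw [neg_one_mul, neg_nonpos]; positivity

theorem Hyp.ent_sign (H : Hyp m r) {k : ℕ} (hk : k < m + 2) :
    |ent (m + 2) r (m + 1) k| = ent (m + 2) r (m + 1) k * (-1) ^ (m + 1 - k) := by
  have h0 := H.h0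
  have key : 0 ≤ ent (m + 2) r (m + 1) k * (-1) ^ (m + 1 - k) := by
    rw [ent, if_neg (by omega), if_neg (by omega)]
    split_ifs with h1 h2
    · rw [show m + 1 - k = 0 by omega]; positivity
    all_goals
      rw [div_mul_eq_mul_div]
      refine div_nonneg ?_ (sub_nonneg.2 H.al_lt.le)
      obtain ⟨τ, t0, t1, t⟩ := H.tau
      have hb : 0 ≤ ((m + 2).choose k : ℝ) * r ^ (m + 2 - k) := by positivity
      rw [t k, cc, show m + 2 - 1 - k = m + 1 - k from rfl]
    · rcases neg_one_pow_eq_or ℝ (m + 1 - k) with e | e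
      · rw [e, one_mul, max_eq_left hb]; nlinarith
      · rw [e, max_eq_right (by linarith)]; nlinarith
    · obtain ⟨l, rfl⟩ := Nat.exists_eq_succ_of_ne_zero h2
      simp only [Nat.succ_eq_add_one, Nat.add_sub_cancel] at *
      have hb' : 0 ≤ ((m + 2).choose l : ℝ) * r ^ (m + 2 - l) := by positivity
      rw [t l, cc, show m + 2 - 1 - l = m + 1 - (l + 1) + 1 by omega, pow_succ (-1 : ℝ)]
      rcases neg_one_pow_eq_or ℝ (m + 1 - (l + 1)) with e | e
      · rw [e, max_eq_right (by linarith), one_mul (_ * _), max_eq_left hb]; nlinarith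
      · rw [e, max_eq_left (by linarith), max_eq_right (by linarith)]
        have c1 : ((m + 2).choose l : ℝ) ≤ (m + 2 : ℕ) * ((m + 2).choose (l + 1) : ℝ) := by
          have := Nat.choose_succ_right_eq (m + 2) l
          have c2 : (m + 2).choose l ≤ (m + 2) * (m + 2).choose (l + 1) := by
            calc (m + 2).choose l ≤ (m + 2).choose l * (m + 2 - l) :=
                Nat.le_mul_of_pos_right _ (by omega)
              _ = (m + 2).choose (l + 1) * (l + 1) := this.symm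
              _ ≤ _ := by rw [mul_comm]; exact Nat.mul_le_mul_right _ (by omega)
          exact_mod_cast c2
        rw [show m + 2 - l = m + 2 - (l + 1) + 1 by omega, pow_succ]
        have c3 := mul_le_mul_of_nonneg_right c1
          (show 0 ≤ τ * r * r ^ (m + 2 - (l + 1)) by positivity)
        nlinarith [mul_le_mul_of_nonneg_right t1 hb]
  rw [← abs_of_nonneg key, abs_mul, abs_pow, abs_neg, abs_one, one_pow, mul_one]

end Pool.Agent.MP_c71a08_an.H32
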