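import Pool.Agent.MP_c71a08_an.H32.Low2

namespace Pool.Agent.MP_c71a08_an.H32

open Finset Matrix

variable {m : ℕ} {r : ℝ}

theorem Hyp.spec (H : Hyp m r) {μ : ℂ} (hμ : μ ∈ spectrum ℂ (Tex (m + 2) r)) : μ = r := by
  have ha' : (1 : ℂ) - (al (m + 2) r : ℂ) ≠ 0 := by
    rw [sub_ne_zero]; exact_mod_cast H.al_lt.ne'
  rw [spectrum.mem_iff, isUnit_iff_isUnit_det, isUnit_iff_ne_zero, not_not,
    ← exists_mulVec_eq_zero_iff] at hμ
  obtain ⟨Y, hY0, hY⟩ := hμ
  rw [sub_mulVec, Algebra.algebraMap_eq_smul_one, smul_mulVec, one_mulVec, sub_eq_zero] at hY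
  let y : ℕ → ℂ := fun k => if h : k < m + 2 then Y ⟨k, h⟩ else 0
  let w : ℕ → ℂ := fun k => if k < m + 1 then y k else
    (1 - (al (m + 2) r : ℂ)) * y (m + 1) - ∑ l ∈ range (m + 1), (yy (m + 2) r l : ℂ) * y l
  let u : ℕ → ℂ := fun k => if k < m + 2 then w k else
    ∑ l ∈ range (m + 2), (cc (m + 2) r l : ℂ) * w l
  have hu : u (m + 2) = ∑ l ∈ range (m + 2), (cc (m + 2) r l : ℂ) * u l := by
    simp only [u, lt_irrefl, if_false]
    exact sum_congr rfl fun l hl => by rw [if_pos (mem_range.1 hl)]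
  have hlow : ∀ k < m + 1, u k = y k := fun k hk => by
    simp only [u, w, if_pos hk, if_pos (show k < m + 2 by omega)]
  have hSt : (fun k : Fin (m + 2) => St (m + 2) r u k) = Y := by
    ext ⟨k, hk⟩
    simp only [St]
    split_ifs with h
    · obtain rfl : k = m + 1 := by omega
      rw [show m + 2 - 1 = m + 1 from rfl,
        sum_congr rfl fun l hl => by rw [hlow l (mem_range.1 hl)]]
      simp only [u, w, lt_irrefl, if_false, if_pos hk, y, dif_pos hk]
      field_simp
      ring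
    · rw [hlow k (by omega)]; simp only [y, dif_pos hk]
  have h := step_St m H.h0.le H.al_lt.ne u hu
  rw [hSt, ← hY, ← hSt] at h
  have h1 : ∀ k < m + 1, u (k + 1) = μ * u k := fun k hk => by
    have := congrFun h ⟨k, by omega⟩
    simp only [Pi.smul_apply, smul_eq_mul, St, if_neg (show ¬ k + 1 = m + 2 by omega)] at this
    exact this.symm
  have h2 : u (m + 1 + 1) = μ * u (m + 1) := by
    have := congrFun h ⟨m + 1, by omega⟩
    simp only [Pi.smul_apply, smul_eq_mul, St, if_true, ← mul_div_assoc,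
      show m + 2 - 1 = m + 1 from rfl] at this
    rw [div_left_inj' ha', mul_add, mul_sum,
      sum_congr rfl fun l hl => by rw [mul_left_comm, ← h1 l (mem_range.1 hl)]] at this
    exact (add_right_cancel this).symm
  have h3 : ∀ k ≤ m + 2, u k = μ ^ k * u 0 := by
    intro k hk
    induction k with
    | zero => simp
    | succ k ih =>
      rw [pow_succ', mul_assoc, ← ih (by omega)]
      rcases Nat.lt_succ_iff_lt_or_eq.1 (show k < m + 1 + 1 by omega) with h | rfl
      exacts [h1 k h, h2]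
  have h4 : u 0 ≠ 0 := fun h0 => hY0 (by
    have : ∀ k < m + 2, u k = 0 := fun k hk => by rw [h3 k hk.le, h0, mul_zero]
    rw [← hSt]
    ext ⟨k, hk⟩
    simp only [St, this k hk, Pi.zero_apply]
    rw [sum_eq_zero fun l hl => by rw [this l (by have := mem_range.1 hl; omega), mul_zero]]
    simp)
  have h5 := sum_cc (m + 2) r μ
  rw [h3 _ le_rfl, sum_congr rfl fun l hl => by rw [h3 l (mem_range.1 hl).le, ← mul_assoc],
    ← sum_mul, mul_left_inj' h4] at hu
  simp only [Complex.coe_algebraMap] at h5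
  rw [← hu, eq_comm, sub_eq_self] at h5
  exact sub_eq_zero.1 (pow_eq_zero_iff (by omega) |>.1 h5)

/-- the extremal sequence -/
noncomputable def uu (m : ℕ) (r : ℝ) (j : ℕ) : ℝ :=
  a r (m + 2) j - 2 * al (m + 2) r * e r (m + 2) j

theorem uu_rec (j : ℕ) : uu m r (j + (m + 2)) =
    ∑ k ∈ range (m + 2), cc (m + 2) r k * uu m r (j + k) := by
  rw [uu, rec_cc (a r) (fun _ => rfl) (a_pascal r), rec_cc (e r) (fun _ => rfl) (e_pascal r),
    mul_sum, ← sum_sub_distrib]
  exact sum_congr rfl fun k _ => by rw [uu]; ring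

theorem uu_low {k : ℕ} (hk : k < m + 1) : uu m r k = (-1) ^ (m + 1 - k) := by
  have := a_low r k (m + 1 - k)
  rw [show k + 1 + (m + 1 - k) = m + 2 by omega] at this
  rw [uu, this, e, Nat.choose_eq_zero_of_lt hk]; simp

theorem uu_mid : uu m r (m + 1) = 1 - 2 * al (m + 2) r := by
  rw [uu, a_diag, e]; simp

theorem Hyp.uu_top (H : Hyp m r) : uu m r (m + 2) = 1 := by
  have h1 := A_one r (m + 1)
  rw [A] at h1
  have h2 := H.al_eq
  rw [uu, h1, e, Nat.choose_succ_self_right, show m + 2 - (m + 1) = 1 by omega, pow_one]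
  linarith

theorem Hyp.St_uu (H : Hyp m r) {k : ℕ} (hk : k < m + 2) :
    St (m + 2) r (fun j => (uu m r j : ℂ)) k = (((-1) ^ (m + 1 - k) : ℝ) : ℂ) := by
  have ha' : (1 : ℂ) - (al (m + 2) r : ℂ) ≠ 0 := by
    rw [sub_ne_zero]; exact_mod_cast H.al_lt.ne'
  rw [St]
  split_ifs with h
  · obtain rfl : k = m + 1 := by omega
    rw [show m + 2 - 1 = m + 1 from rfl, uu_mid, sum_congr rfl fun l hl => by
      rw [uu_low (mem_range.1 hl), ← Complex.ofReal_mul, H.yy_sign], ← Complex.ofReal_sum, H.sum_yy,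
      div_eq_iff ha']
    simp; ring
  · rw [uu_low (by omega)]

theorem Hyp.pow_St (H : Hyp m r) (j : ℕ) :
    Tex (m + 2) r ^ j *ᵥ (fun k : Fin (m + 2) => St (m + 2) r (fun i => (uu m r i : ℂ)) k) =
      fun k : Fin (m + 2) => St (m + 2) r (fun i => (uu m r (j + i) : ℂ)) k := by
  induction j with
  | zero => simp
  | succ j ih =>
    rw [pow_succ', ← mulVec_mulVec, ih, step_St m H.h0.le H.al_lt.ne _
      (by rw [uu_rec]; push_cast; rfl)]
    simp only [add_assoc, add_comm 1]

theorem Hyp.row (H : Hyp m r) (j : Fin (m + 2)) : ∑ k, ‖Tex (m + 2) r j k‖ = 1 := by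
  obtain ⟨j, hj⟩ := j
  simp only [Tex, of_apply, Complex.norm_real, Real.norm_eq_abs]
  rcases lt_trichotomy j m with h | rfl | h
  · rw [Fin.sum_univ_eq_sum_range (fun k => |ent (m + 2) r j k|)]
    have : ∀ k, ent (m + 2) r j k = if k = j + 1 then 1 else 0 := fun k => if_pos (by omega)
    simp only [this]
    rw [sum_eq_single (j + 1) (fun b _ hb => by simp [hb])
      (fun hb => absurd (mem_range.2 (by omega)) hb)]
    simp
  · rw [Fin.sum_univ_eq_sum_range (fun k => |ent (j + 2) r j k|), sum_range_succ,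
      sum_congr rfl fun k hk => by
        rw [ent, if_neg (by omega), if_pos rfl, if_neg (by have := mem_range.1 hk; omega), abs_neg,
          abs_of_nonneg (H.yy_nonneg k)],
      H.sum_yy, ent, if_neg (by omega), if_pos rfl, if_pos rfl,
      abs_of_nonneg (sub_nonneg.2 H.al_lt.le)]
    ring
  · obtain rfl : j = m + 1 := by omega
    have ha' : (1 : ℂ) - (al (m + 2) r : ℂ) ≠ 0 := by
      rw [sub_ne_zero]; exact_mod_cast H.al_lt.ne'
    have h1 := congrFun (H.pow_St 1) ⟨m + 1, hj⟩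
    simp only [pow_one, mulVec, dotProduct, Tex, of_apply, H.St_uu (Fin.is_lt _),
      ← Complex.ofReal_mul, ← H.ent_sign (Fin.is_lt _), ← Complex.ofReal_sum] at h1
    have h2 : ∀ l ∈ range (m + 1), (yy (m + 2) r l : ℂ) * (uu m r (1 + l) : ℂ) =
        -(yy (m + 2) r l : ℂ) := by
      intro l hl
      rcases Nat.lt_succ_iff_lt_or_eq.1 (mem_range.1 hl) with h | rfl
      · have := H.yy_sign l
        rw [show m + 1 - l = m + 1 - (1 + l) + 1 by omega, pow_succ] at this
        rw [uu_low (by omega), ← Complex.ofReal_mul, ← Complex.ofReal_neg]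
        congr 1; linarith
      · rw [yy_last l H.h0.le]; simp
    rw [St, if_pos rfl, show m + 2 - 1 = m + 1 from rfl, sum_congr rfl h2, sum_neg_distrib,
      ← Complex.ofReal_sum, H.sum_yy, show 1 + (m + 1) = m + 2 by omega, H.uu_top,
      ← sub_eq_add_neg, Complex.ofReal_one, div_self ha'] at h1
    exact_mod_cast h1

theorem Hyp.val (H : Hyp m r) (q : ℕ) : uu m r q ≤ ∑ k, ‖(Tex (m + 2) r ^ q) 0 k‖ := by
  have h1 := congrFun (H.pow_St q) 0
  simp only [mulVec, dotProduct, H.St_uu (Fin.is_lt _)] at h1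
  rw [St, if_neg (by simp)] at h1
  simp only [Fin.val_zero, add_zero] at h1
  refine (le_abs_self _).trans ?_
  rw [← Real.norm_eq_abs, ← Complex.norm_real, ← h1]
  refine (norm_sum_le _ _).trans (sum_le_sum fun k _ => ?_)
  simp

end Pool.Agent.MP_c71a08_an.H32
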