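import Pool.Agent.MP_c71a08_an.H32.Num

namespace Pool.Agent.MP_c71a08_an.H32

open Polynomial

/-- complete homogeneous symmetric polynomial of a multiset -/
noncomputable def hh (k : ℕ) (s : Multiset ℂ) : ℂ :=
  PowerSeries.coeff k (s.map fun x => PowerSeries.mk fun i => x ^ i).prod

theorem hh_zero (s : Multiset ℂ) : hh 0 s = 1 := by
  induction s using Multiset.induction_on with
  | empty => simp [hh]
  | cons x s ih =>
    simp only [hh, PowerSeries.coeff_zero_eq_constantCoeff] at ih ⊢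
    simp [ih]

theorem hh_nil (k : ℕ) : hh (k + 1) 0 = 0 := by simp [hh, PowerSeries.coeff_one]

theorem hh_cons (k : ℕ) (x : ℂ) (s : Multiset ℂ) :
    hh (k + 1) (x ::ₘ s) = x * hh k (x ::ₘ s) + hh (k + 1) s := by
  have h : (PowerSeries.mk fun i => x ^ i) =
      PowerSeries.C x * (PowerSeries.mk fun i => x ^ i) * PowerSeries.X + 1 := by
    ext i
    cases i with
    | zero => simp
    | succ i => simp [PowerSeries.coeff_succ_mul_X, pow_succ', PowerSeries.coeff_one]
  simp only [hh, Multiset.map_cons, Multiset.prod_cons]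
  conv_lhs => rw [h]
  rw [add_mul, one_mul, map_add, mul_right_comm, PowerSeries.coeff_succ_mul_X, mul_assoc,
    PowerSeries.coeff_C_mul]

theorem hh_single (k : ℕ) (x : ℂ) : hh k (x ::ₘ 0) = x ^ k := by
  induction k with
  | zero => simp [hh_zero]
  | succ k ih => rw [hh_cons, ih, hh_nil, pow_succ', add_zero]

theorem hh_one (s : Multiset ℂ) : hh 1 s = s.sum := by
  induction s using Multiset.induction_on with
  | empty => simpa using hh_nil 0
  | cons x s ih => rw [show 1 = 0 + 1 from rfl, hh_cons, hh_zero, zero_add, ih]; simp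

theorem hh_le {r : ℝ} (hr : 0 ≤ r) (m : ℕ) : ∀ s : Multiset ℂ, s.card = m + 1 →
    (∀ x ∈ s, ‖x‖ ≤ r) → ∀ k, ‖hh k s‖ ≤ E r m k := by
  induction m with
  | zero =>
    intro s hs hx k
    obtain ⟨x, rfl⟩ := Multiset.card_eq_one.1 hs
    rw [← Multiset.cons_zero, hh_single, E_zero', norm_pow]
    exact pow_le_pow_left₀ (norm_nonneg _) (hx x (by simp)) k
  | succ m ih =>
    intro s hs hx k
    obtain ⟨x, hxs⟩ := Multiset.card_pos_iff_exists_mem.1 (show 0 < s.card by omega)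
    obtain ⟨t, rfl⟩ := Multiset.exists_cons_of_mem hxs
    have h1 := ih t (by simpa using hs) fun y hy => hx y (Multiset.mem_cons_of_mem hy)
    induction k with
    | zero => simp [hh_zero, E_zero]
    | succ k ihk =>
      rw [hh_cons, E_succ]
      refine (norm_add_le _ _).trans (add_le_add ?_ (h1 _))
      rw [norm_mul]
      exact mul_le_mul (hx x hxs) ihk (norm_nonneg _) hr

/-- the sequence `u` satisfies the recurrence with characteristic roots `s` -/
def Rec (s : Multiset ℂ) (u : ℕ → ℂ) : Prop :=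
  aeval (LinearMap.funLeft ℂ ℂ Nat.succ : Module.End ℂ (ℕ → ℂ))
    (s.map fun x => X - C x).prod u = 0

theorem Rec.nil {u : ℕ → ℂ} (h : Rec 0 u) : u = 0 := by simpa [Rec] using h

theorem Rec.cons {x : ℂ} {s : Multiset ℂ} {u : ℕ → ℂ} (h : Rec (x ::ₘ s) u) :
    Rec s fun j => u (j + 1) - x * u j := by
  unfold Rec at h ⊢
  rw [Multiset.map_cons, Multiset.prod_cons, mul_comm, map_mul, Module.End.mul_apply] at h
  convert h using 2
  ext j
  simp [LinearMap.funLeft_apply, Module.algebraMap_end_apply]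

/-- the three bounds -/
def Bd (r : ℝ) (m : ℕ) (s : Multiset ℂ) (u : ℕ → ℂ) (c : ℝ) (k : ℕ) : Prop :=
  ‖u (m + k)‖ ≤ c * A r m k ∧ ‖u (m + k) - hh k s * u m‖ ≤ c * (A r m k - E r m k) ∧
    ‖s.sum * u (m + (k + 1)) - hh (k + 1) s * u (m + 1)‖ ≤ c * G r m (k + 1)

theorem step {r : ℝ} (hr : 0 ≤ r) {m : ℕ} {x : ℂ} {s : Multiset ℂ} {u : ℕ → ℂ} {c : ℝ}
    (hx : ‖x‖ ≤ r) (hE : ∀ k, ‖hh k s‖ ≤ E r m k) (hu : ∀ j, ‖u j‖ ≤ c)
    (hB : ∀ k, Bd r m s (fun j => u (j + 1) - x * u j) (c * (1 + r)) k) (k : ℕ) :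
    ‖u (m + 1 + (k + 1)) - x * u (m + 1 + k)‖ ≤ c * (A r (m + 1) (k + 1) - r * A r (m + 1) k) ∧
    ‖(u (m + 1 + (k + 1)) - hh (k + 1) (x ::ₘ s) * u (m + 1)) -
      x * (u (m + 1 + k) - hh k (x ::ₘ s) * u (m + 1))‖ ≤
      c * ((A r (m + 1) (k + 1) - E r (m + 1) (k + 1)) - r * (A r (m + 1) k - E r (m + 1) k)) ∧
    ‖((x ::ₘ s).sum * u (m + 1 + (k + 1)) - hh (k + 1) (x ::ₘ s) * u (m + 1 + 1)) -
      x * ((x ::ₘ s).sum * u (m + 1 + k) - hh k (x ::ₘ s) * u (m + 1 + 1))‖ ≤
      c * (G r (m + 1) (k + 1) - r * G r (m + 1) k) := by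
  obtain ⟨b1, b2, -⟩ := hB (k + 1)
  obtain ⟨-, -, b3⟩ := hB k
  have hc : 0 ≤ c := (norm_nonneg _).trans (hu 0)
  have e1 : m + 1 + (k + 1) = m + (k + 1) + 1 := by omega
  have e2 : m + 1 + k = m + (k + 1) := by omega
  simp only [e1, e2, hh_cons, A_succ, E_succ, G_succ, Multiset.sum_cons] at *
  have b4 : ‖x * (hh (k + 1) s * u m)‖ ≤ r * (E r m (k + 1) * c) := by
    rw [norm_mul, norm_mul]
    exact mul_le_mul hx (mul_le_mul (hE _) (hu _) (norm_nonneg _) (E_nonneg hr _ _))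
      (by positivity) hr
  have b5 := (norm_sub_le _ _).trans (add_le_add b2 b4)
  refine ⟨b1.trans_eq (by ring), ?_, ?_⟩
  · exact le_of_eq_of_le (congrArg _ (by ring)) (b5.trans_eq (by ring))
  · have b6 := mul_le_mul hx b5 (norm_nonneg _) hr
    rw [← norm_mul] at b6
    exact le_of_eq_of_le (congrArg _ (by ring))
      (((norm_add_le _ _).trans (add_le_add b3 b6)).trans_eq (by ring))

theorem lin {r : ℝ} (hr : 0 ≤ r) {x z w : ℂ} {p q : ℝ} (hx : ‖x‖ ≤ r) (h : ‖z - x * w‖ ≤ p)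
    (hw : ‖w‖ ≤ q) : ‖z‖ ≤ p + r * q := by
  have h1 : ‖x * w‖ ≤ r * q := by rw [norm_mul]; exact mul_le_mul hx hw (norm_nonneg _) hr
  simpa using (norm_add_le (z - x * w) (x * w)).trans (add_le_add h h1)

theorem bd {r : ℝ} (hr : 0 ≤ r) (m : ℕ) : ∀ s : Multiset ℂ, s.card = m + 1 →
    (∀ x ∈ s, ‖x‖ ≤ r) → ∀ (u : ℕ → ℂ) (c : ℝ), Rec s u → (∀ j, ‖u j‖ ≤ c) →
    ∀ k, Bd r m s u c k := by
  induction m with
  | zero =>
    intro s hs hx u c hu hc k
    obtain ⟨x, rfl⟩ := Multiset.card_eq_one.1 hs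
    have h1 : ∀ j, u j = x ^ j * u 0 := by
      intro j
      induction j with
      | zero => simp
      | succ j ih =>
        have := congrFun (Rec.cons (s := 0) hu).nil j
        simp only [Pi.zero_apply, sub_eq_zero] at this
        rw [this, ih]; ring
    have h2 : ∀ k, hh k {x} = x ^ k := fun k => hh_single k x
    refine ⟨?_, ?_, ?_⟩
    · rw [h1, A_zero', zero_add, norm_mul, norm_pow, mul_comm c]
      exact mul_le_mul (pow_le_pow_left₀ (norm_nonneg _) (hx x (by simp)) k) (hc 0)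
        (norm_nonneg _) (by positivity)
    · rw [h1, h2, A_zero', E_zero']; simp
    · rw [h1, h1 (0 + 1), h2, G_zero', Multiset.sum_singleton, mul_zero]
      refine (norm_eq_zero.2 ?_).le
      ring
  | succ m ih =>
    intro s hs hx u c hu hc k
    obtain ⟨x, hxs⟩ := Multiset.card_pos_iff_exists_mem.1 (show 0 < s.card by omega)
    obtain ⟨t, rfl⟩ := Multiset.exists_cons_of_mem hxs
    have ht : ∀ y ∈ t, ‖y‖ ≤ r := fun y hy => hx y (Multiset.mem_cons_of_mem hy)
    have hct : t.card = m + 1 := by simpa using hs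
    have hst := step hr (hx x hxs) (hh_le hr m t hct ht) hc (ih t hct ht _ _ hu.cons fun j => by
      have := lin hr (z := u (j + 1) - x * u j) (x := -x) (w := u j) (p := c) (q := c)
        (by simpa using hx x hxs) (by simpa using hc _) (hc _)
      linarith)
    have hG : ∀ k, ‖(x ::ₘ t).sum * u (m + 1 + (k + 1)) - hh (k + 1) (x ::ₘ t) * u (m + 1 + 1)‖ ≤
        c * G r (m + 1) (k + 1) := by
      intro k
      induction k with
      | zero => simp [hh_one, G_one]
      | succ k ihk => exact (lin hr (hx x hxs) (hst (k + 1)).2.2 ihk).trans_eq (by ring)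
    induction k with
    | zero => exact ⟨by simpa [A_zero] using hc _, by simp [A_zero, E_zero, hh_zero], hG 0⟩
    | succ k ihk =>
      exact ⟨(lin hr (hx x hxs) (hst k).1 ihk.1).trans_eq (by ring),
        (lin hr (hx x hxs) (hst k).2.1 ihk.2.1).trans_eq (by ring), hG _⟩

end Pool.Agent.MP_c71a08_an.H32
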