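import Pool.Agent.MP_c71a08_an.H32.Big7

namespace Pool.Agent.MP_c71a08_an.H32

open Polynomial Matrix Finset Lagrange

theorem abs2 {V : Type} [Fintype V] [DecidableEq V] (P : ℂ[X]) (Λ : ℂ[X] →ₗ[ℂ] ℂ)
    (hΛ : ∀ f, Λ (f * P) = 0) (φ : V → ℂ[X]) (T : Matrix V V ℂ) (e : V → ℂ)
    (h : ∀ a, X * φ a = ∑ b, C (T a b) * φ b + C (e a) * P)
    (hind : ∀ c : V → ℂ, ∑ a, C (c a) * φ a = 0 → c = 0) :
    (∀ μ ∈ spectrum ℂ T, P.eval μ = 0) ∧
      ∀ f, aeval T f *ᵥ (fun a => Λ (φ a)) = fun a => Λ (f * φ a) := by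
  have hC : ∀ c f, Λ (C c * f) = c * Λ f := fun c f => by rw [← smul_eq_C_mul, map_smul, smul_eq_mul]
  constructor
  · intro μ hμ
    rw [spectrum.mem_iff, isUnit_iff_isUnit_det, isUnit_iff_ne_zero, not_not,
      ← exists_vecMul_eq_zero_iff] at hμ
    obtain ⟨c, hc0, hc⟩ := hμ
    rw [vecMul_sub, Algebra.algebraMap_eq_smul_one, vecMul_smul, vecMul_one, sub_eq_zero] at hc
    have h1 : (X - C μ) * ∑ a, C (c a) * φ a = C (∑ a, c a * e a) * P := by
      have h2 : ∀ b, C μ * (C (c b) * φ b) = ∑ a, C (c a) * (C (T a b) * φ b) := fun b => by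
        have := congrFun hc b
        simp only [Pi.smul_apply, smul_eq_mul, vecMul, dotProduct] at this
        rw [← mul_assoc, ← C_mul, this, map_sum, sum_mul]
        simp only [C_mul, mul_assoc]
      rw [sub_mul, mul_sum, mul_sum, sum_congr rfl fun b _ => h2 b, sum_comm, ← sum_sub_distrib,
        map_sum, sum_mul]
      refine sum_congr rfl fun a _ => ?_
      rw [mul_left_comm, h, ← mul_sum, C_mul]; ring
    by_contra hne
    have h3 := congrArg (eval μ) h1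
    simp only [eval_mul, eval_sub, eval_X, eval_C, sub_self, zero_mul] at h3
    rw [(mul_eq_zero.1 h3.symm).resolve_right hne, C_0, zero_mul] at h1
    exact hc0 (hind c ((mul_eq_zero.1 h1).resolve_left (X_sub_C_ne_zero μ)))
  · have key : ∀ q, T ^ q *ᵥ (fun a => Λ (φ a)) = fun a => Λ (X ^ q * φ a) := by
      intro q
      induction q with
      | zero => simp
      | succ q ih =>
        rw [pow_succ', ← mulVec_mulVec, ih]
        ext a
        rw [pow_succ, mul_assoc, h, mul_add, map_add, ← mul_assoc, hΛ, add_zero, mul_sum, map_sum]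
        exact sum_congr rfl fun b _ => by rw [mul_left_comm, hC]
    intro f
    induction f using Polynomial.induction_on' with
    | add p q hp hq => ext a; simp [add_mulVec, hp, hq, add_mul]
    | monomial l c =>
      ext a
      rw [aeval_monomial, Algebra.algebraMap_eq_smul_one, smul_mul_assoc, one_mul, smul_mulVec, key,
        ← C_mul_X_pow_eq_monomial, mul_assoc, hC]
      rfl

theorem gl2 {ι : Type} [Fintype ι] [DecidableEq ι] [Nonempty ι] (P : ℂ[X]) (Λ : ℂ[X] →ₗ[ℂ] ℂ)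
    (hΛ : ∀ f, Λ (f * P) = 0) (s : ℕ)
    (hΛ' : ∀ f : ℂ[X], f.natDegree ≤ s + Fintype.card ι → Λ f = f.coeff (s + Fintype.card ι))
    {ρ : ℝ} (hρ : ρ < 1) (μ : ι → ℂ) (hμ : Function.Injective μ) (hn : ∀ k, ‖μ k‖ = ρ) (g : ℂ[X])
    (hg : g.natDegree ≤ s) (b : ι → ℂ)
    (hP : P = (X ^ (s + 1) - g) * nodal univ μ -
      ∑ k, C (b k * (1 - ρ : ℝ)) * nodal (univ.erase k) μ)
    (hb : ∑ j ∈ range (s + 1), ‖g.coeff j‖ + ∑ k, ‖b k‖ ≤ 1) :
    ∃ T : Matrix (Fin (s + 1) ⊕ ι) (Fin (s + 1) ⊕ ι) ℂ, (∀ a, ∑ b, ‖T a b‖ ≤ 1) ∧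
      (∀ z ∈ spectrum ℂ T, P.eval z = 0) ∧ ∀ f,
      aeval T f (Sum.inl 0) (Sum.inl (Fin.last s)) = Λ (f * nodal univ μ) := by
  have hc : ((1 - ρ : ℝ) : ℂ) ≠ 0 := by exact_mod_cast (sub_pos.2 hρ).ne'
  let T : Matrix (Fin (s + 1) ⊕ ι) (Fin (s + 1) ⊕ ι) ℂ := fromBlocks
    (of fun j j' => if (j : ℕ) = s then g.coeff j' else if (j' : ℕ) = j + 1 then 1 else 0)
    (of fun j k => if (j : ℕ) = s then b k else 0)
    (of fun _ j' => if j' = 0 then ((1 - ρ : ℝ) : ℂ) else 0) (diagonal μ)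
  have H := abs2 P Λ hΛ
    (Sum.elim (fun j : Fin (s + 1) => X ^ (j : ℕ) * nodal univ μ)
      fun k => C ((1 - ρ : ℝ) : ℂ) * nodal (univ.erase k) μ) T
    (Sum.elim (fun j => if (j : ℕ) = s then 1 else 0) fun _ => 0) ?_ ?_
  · refine ⟨T, ?_, H.1, fun f => ?_⟩
    swap
    · have h1 := congrFun (H.2 f) (Sum.inl 0)
      have h2 : ∀ j : Fin (s + 1), Λ (X ^ (j : ℕ) * nodal univ μ) =
          if j = Fin.last s then 1 else 0 := fun j => by
        have m1 : (X ^ (j : ℕ) * nodal univ μ).Monic := (monic_X_pow _).mul nodal_monic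
        have d : (X ^ (j : ℕ) * nodal univ μ).natDegree = j + Fintype.card ι := by
          rw [(monic_X_pow _).natDegree_mul nodal_monic, natDegree_X_pow, natDegree_nodal, card_univ]
        rw [hΛ' _ (by omega)]
        split_ifs with h
        · subst h; rw [Fin.val_last] at d m1 ⊢; rw [← d, m1.coeff_natDegree]
        · exact coeff_eq_zero_of_natDegree_lt (by have := Fin.val_lt_last h; omega)
      have h3 : ∀ k, Λ (C ((1 - ρ : ℝ) : ℂ) * nodal (univ.erase k) μ) = 0 := fun k => by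
        have d := natDegree_C_mul_le ((1 - ρ : ℝ) : ℂ) (nodal (univ.erase k) μ)
        rw [natDegree_nodal, card_erase_of_mem (mem_univ k), card_univ] at d
        have := Fintype.card_pos (α := ι)
        rw [hΛ' _ (by omega)]
        exact coeff_eq_zero_of_natDegree_lt (by omega)
      simp only [mulVec, dotProduct, Fintype.sum_sum_type, Sum.elim_inl, Sum.elim_inr, h2, h3] at h1
      simpa using h1
    rintro (j | k)
    · simp only [T, Fintype.sum_sum_type, fromBlocks_apply₁₁, fromBlocks_apply₁₂, of_apply]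
      split_ifs with h
      · rwa [Fin.sum_univ_eq_sum_range (fun j => ‖g.coeff j‖)]
      · rw [sum_eq_single ⟨j + 1, by omega⟩ (fun b _ hb => by
          rw [if_neg fun h => hb (Fin.ext h), norm_zero]) (by simp)]
        simp
    · simp only [T, Fintype.sum_sum_type, fromBlocks_apply₂₁, fromBlocks_apply₂₂, of_apply,
        diagonal_apply, apply_ite norm, norm_zero, sum_ite_eq, sum_ite_eq', mem_univ, if_true, hn,
        Complex.norm_real]
      rw [Real.norm_of_nonneg (by linarith)]; linarith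
  · rintro (j | k)
    · simp only [T, Fintype.sum_sum_type, fromBlocks_apply₁₁, fromBlocks_apply₁₂, of_apply,
        Sum.elim_inl, Sum.elim_inr]
      split_ifs with h
      · rw [hP, Fin.sum_univ_eq_sum_range (fun j => C (g.coeff j) * (X ^ j * nodal univ μ)), h]
        simp only [← mul_assoc, ← C_mul, ← sum_mul]
        rw [← as_sum_range_C_mul_X_pow' g (by omega), C_1]
        ring
      · rw [sum_eq_single ⟨j + 1, by omega⟩ (fun b _ hb => by
          rw [if_neg fun h => hb (Fin.ext h), C_0, zero_mul]) (by simp)]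
        simp; ring
    · simp only [T, Fintype.sum_sum_type, fromBlocks_apply₂₁, fromBlocks_apply₂₂, of_apply,
        Sum.elim_inl, Sum.elim_inr, diagonal_apply, apply_ite C, C_0, ite_mul, zero_mul,
        sum_ite_eq, sum_ite_eq', mem_univ, if_true]
      rw [nodal_eq_mul_nodal_erase (mem_univ k)]
      simp; ring
  · intro c h
    rw [Fintype.sum_sum_type] at h
    simp only [Sum.elim_inl, Sum.elim_inr] at h
    have h1 : ∀ k, c (Sum.inr k) = 0 := fun k => by
      have := congrArg (eval (μ k)) h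
      simp only [eval_add, eval_finsetSum, eval_mul, eval_C, eval_nodal_at_node (mem_univ k),
        mul_zero, sum_const_zero, zero_add, eval_zero] at this
      rw [sum_eq_single k (fun l _ hl => by
        rw [eval_nodal_at_node (mem_erase.2 ⟨hl.symm, mem_univ _⟩), mul_zero, mul_zero])
        (by simp)] at this
      exact (mul_eq_zero.1 this).resolve_right (mul_ne_zero hc (eval_nodal_not_at_node
        fun l hl h => (mem_erase.1 hl).1 (hμ h).symm))
    simp only [h1, C_0, zero_mul, sum_const_zero, add_zero, ← mul_assoc, ← sum_mul] at h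
    have h2 := (mul_eq_zero.1 h).resolve_right nodal_ne_zero
    ext (j | k)
    · have := congrArg (coeff · j) h2
      simpa [finsetSum_coeff, coeff_X_pow, Fin.val_inj] using this
    · exact h1 k

theorem coeff_taylor_top (r : ℂ) {N : ℕ} {f : ℂ[X]} (h : f.natDegree ≤ N) :
    (taylor r f).coeff N = f.coeff N := by
  rcases h.lt_or_eq with h | rfl
  · rw [coeff_eq_zero_of_natDegree_lt h, coeff_eq_zero_of_natDegree_lt (by rwa [natDegree_taylor])]
  · exact coeff_taylor_natDegree _ _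

theorem exists_Lam (r : ℂ) (s m : ℕ) : ∃ Λ : ℂ[X] →ₗ[ℂ] ℂ,
    (∀ f, Λ (f * (X ^ (s + 1) * (X - C r) ^ (m + 1))) = 0) ∧
    (∀ f : ℂ[X], f.natDegree ≤ s + (m + 1) → Λ f = f.coeff (s + (m + 1))) ∧
    ∀ g, Λ (X ^ (s + 1) * g) = (taylor r g).coeff m := by
  have m0 : ((X - C r) ^ (m + 1)).Monic := (monic_X_sub_C r).pow _
  have d0 : ((X - C r) ^ (m + 1)).natDegree = m + 1 := by simp [natDegree_pow]
  have m1 : (X ^ (s + 1) * (X - C r) ^ (m + 1)).Monic := (monic_X_pow _).mul m0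
  have d1 : (X ^ (s + 1) * (X - C r) ^ (m + 1)).natDegree = s + 1 + (m + 1) := by
    rw [(monic_X_pow _).natDegree_mul m0, natDegree_X_pow, d0]
  obtain ⟨Λ, h1, h2⟩ : ∃ Λ : ℂ[X] →ₗ[ℂ] ℂ,
      (∀ f, Λ (f * (X ^ (s + 1) * (X - C r) ^ (m + 1))) = 0) ∧
      (∀ f : ℂ[X], f.natDegree ≤ s + (m + 1) → Λ f = f.coeff (s + (m + 1))) :=
    ⟨(lcoeff ℂ (s + (m + 1))).comp (modByMonicHom (X ^ (s + 1) * (X - C r) ^ (m + 1))),
      fun f => by
        simp [(modByMonic_eq_zero_iff_dvd m1).2 (dvd_mul_left _ f)],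
      fun f hf => by
        simp [(modByMonic_eq_self_iff m1).2 (degree_lt_degree (by omega : f.natDegree < _))]⟩
  refine ⟨Λ, h1, h2, fun g => ?_⟩
  have e := modByMonic_add_div g ((X - C r) ^ (m + 1))
  have d : (g %ₘ (X - C r) ^ (m + 1)).natDegree ≤ m := by
    have := natDegree_modByMonic_lt g m0 (fun h => by rw [h] at d0; simp at d0)
    omega
  generalize g %ₘ (X - C r) ^ (m + 1) = ρ at e d
  generalize g /ₘ (X - C r) ^ (m + 1) = q at e
  rw [← Lam_apply, ← e, map_add, mul_comm _ q, Lam_kill, add_zero, Lam_apply, coeff_taylor_top r d,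
    mul_add, map_add, mul_left_comm, h1, add_zero,
    h2 _ (natDegree_mul_le.trans (by rw [natDegree_X_pow]; omega)),
    show s + (m + 1) = m + (s + 1) by omega, coeff_X_pow_mul]

theorem transfer2 {V : Type} [Fintype V] [DecidableEq V] {n : ℕ} (h : Fintype.card V = n)
    (T : Matrix V V ℂ) : ∃ (T' : Matrix (Fin n) (Fin n) ℂ) (e : V ≃ Fin n),
    spectrum ℂ T' = spectrum ℂ T ∧ (∀ a, ∑ j, ‖T' (e a) j‖ = ∑ b, ‖T a b‖) ∧
      ∀ (f : ℂ[X]) a b, aeval T' f (e a) (e b) = aeval T f a b := by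
  let e := Fintype.equivFinOfCardEq h
  refine ⟨Matrix.reindexAlgEquiv ℂ ℂ e T, e, AlgEquiv.spectrum_eq _ _, fun a => ?_, fun f a b => ?_⟩
  · rw [← e.sum_comp]; simp
  · rw [aeval_algHom_apply]; simp

theorem core2 {p ρ R θ : ℝ} {s : ℕ} {u : Multiset ℂ} (Λ : ℂ[X] →ₗ[ℂ] ℂ)
    (hΛ : ∀ f, Λ (f * (X ^ (s + 1) * Uu u)) = 0)
    (hΛ' : ∀ f : ℂ[X], f.natDegree ≤ s + u.card → Λ f = f.coeff (s + u.card))
    (hp0 : 0 ≤ p) (hp : p < ρ)
    (hρ : ρ < 1) (hR : 1 < R) (hθ : p / ρ ≤ θ) (hu : ∀ x ∈ u, ‖x‖ ≤ p) (h0 : u ≠ 0)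
    (hτ : (p / ρ) ^ u.card ≤ 1 / 2)
    (H2 : 4 * R ^ (s + 1) * (θ * R + 1) ^ u.card ≤ (R - 1) ^ u.card / 2)
    (H3 : 8 * ρ ^ (s + 1) ≤ 1 - ρ) {κ : ℂ} (hκ : ‖κ‖ = 1) :
    ∃ T : Matrix (Fin (s + u.card + 1)) (Fin (s + u.card + 1)) ℂ, (∀ a, ∑ b, ‖T a b‖ ≤ 1) ∧
      (∀ z ∈ spectrum ℂ T, (X ^ (s + 1) * Uu u).eval z = 0) ∧ ∃ i j, ∃ l : ℂ, 1 / 2 ≤ ‖l‖ ∧
      ‖l‖ ≤ 2 ∧ ∀ f, l * aeval T f i j = Λ (f * (Uu u - C κ * Us ρ u)) := by
  have hρ0 : 0 < ρ := hp0.trans_lt hp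
  have hR0 : 0 ≤ R := by linarith
  obtain ⟨Z, l, hZ, hn, hl, hN, hS⟩ := clark hρ0 hp u hu h0 hτ hκ
  have hc : Fintype.card Z = u.card := by rw [Fintype.card_coe, hZ]
  have l1 : ‖l‖ ≤ 2 := by
    have := norm_sub_norm_le l 1
    rw [norm_sub_rev, norm_one] at this; linarith
  have l2 : 1 / 2 ≤ ‖l‖ := by
    have := norm_sub_norm_le 1 l
    rw [norm_one] at this; linarith
  have l0 : l ≠ 0 := fun h => by rw [h] at l2; norm_num at l2
  set N := nodal univ (Subtype.val : Z → ℂ) with hNd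
  obtain ⟨g, Rm, e1, e2, e3⟩ := Nt_div hR.le (Subtype.val : Z → ℂ)
    (fun k => (hn k k.2).le.trans hρ.le) (X ^ (s + 1) * Uu u - X ^ (s + 1) * N) univ
  rw [← hNd] at e1
  rw [card_univ, hc] at e3
  have hNm : N.Monic := nodal_monic
  have hUm : (Uu u).Monic := monic_multisetProd_X_sub_C u
  have hUd : (Uu u).natDegree = u.card := natDegree_multiset_prod_X_sub_C_eq_card u
  have : Nonempty Z := by rw [← Fintype.card_pos_iff, hc]; exact Multiset.card_pos.2 h0
  have hNdeg : N.natDegree = u.card := by rw [hNd, natDegree_nodal, card_univ, hc]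
  have hg : g.natDegree ≤ s := by
    rcases eq_or_ne g 0 with rfl | g0
    · simp
    have m1 : (X ^ (s + 1) * Uu u).Monic := (monic_X_pow _).mul hUm
    have d1 : (X ^ (s + 1) * Uu u).degree = ((s + u.card + 1 : ℕ) : WithBot ℕ) := by
      rw [degree_mul, degree_X_pow, degree_eq_natDegree hUm.ne_zero, hUd]; norm_cast; omega
    have d2 := degree_sub_lt_left (q := X ^ (s + 1) * N) (p := X ^ (s + 1) * Uu u)
      (by rw [d1, degree_mul, degree_X_pow, degree_eq_natDegree hNm.ne_zero, hNdeg]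
          norm_cast; omega) m1.ne_zero
      (by rw [m1.leadingCoeff, ((monic_X_pow _).mul hNm).leadingCoeff])
    have d3 : (g * N).degree < ((s + u.card + 1 : ℕ) : WithBot ℕ) := by
      rw [← sub_eq_iff_eq_add.2 e1]
      refine (degree_sub_le _ _).trans_lt (max_lt (d1 ▸ d2) (e2.trans_le ?_))
      rw [card_univ, hc]; norm_cast; omega
    rw [degree_mul, degree_eq_natDegree g0, degree_eq_natDegree hNm.ne_zero, hNdeg] at d3
    norm_cast at d3; omega
  have n1 : Nt R (Uu u) ≤ (R + p) ^ u.card := Nt_prod_le hR0 u _ fun x hx => by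
    have := Nt_lin hR0 1 (-x)
    simp only [map_one, one_mul, map_neg, norm_one, norm_neg, ← sub_eq_add_neg] at this
    linarith [hu x hx]
  have n2 : Nt R (Us ρ u) ≤ (θ * R + 1) ^ u.card := Nt_prod_le hR0 u _ fun x hx => by
    refine (Nt_lin hR0 _ _).trans (add_le_add (mul_le_mul_of_nonneg_right ?_ hR0) ?_)
    · simp only [norm_div, norm_neg, Complex.norm_conj, Complex.norm_real,
        Real.norm_of_nonneg hρ0.le]
      exact (div_le_div_of_nonneg_right (hu x hx) hρ0.le).trans hθ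
    · rw [Complex.norm_real, Real.norm_of_nonneg hρ0.le]; exact hρ.le
  have n3 : (p / ρ) ^ u.card * (R + p) ^ u.card ≤ (θ * R + 1) ^ u.card := by
    rw [← mul_pow]
    refine pow_le_pow_left₀ (by positivity) ?_ _
    have : p / ρ ≤ 1 := (div_le_one hρ0).2 hp.le
    nlinarith [mul_le_mul_of_nonneg_right hθ hR0, div_nonneg hp0 hρ0.le]
  have n4 : Nt R (Uu u - N) ≤ 4 * (θ * R + 1) ^ u.card := by
    have e : Uu u - N = C l⁻¹ * (C κ * Us ρ u - C (1 - l) * Uu u) := by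
      have : C l⁻¹ * C l = (1 : ℂ[X]) := by rw [← C_mul, inv_mul_cancel₀ l0, C_1]
      rw [map_sub, C_1]
      linear_combination C l⁻¹ * hN - (Uu u - N) * this
    have a1 := Nt_C_mul hR0 κ (Us ρ u)
    have a2 := (Nt_C_mul hR0 (1 - l) (Uu u)).trans
      (mul_le_mul hl n1 (Nt_nonneg hR0 _) (by positivity))
    have a3 := Nt_sub hR0 (C κ * Us ρ u) (C (1 - l) * Uu u)
    have a4 : ‖l⁻¹‖ ≤ 2 := by rw [norm_inv]; exact inv_le_of_inv_le₀ two_pos (by linarith)
    rw [hκ, one_mul] at a1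
    rw [e]
    exact (Nt_C_mul hR0 _ _).trans ((mul_le_mul a4 (a3.trans (add_le_add (a1.trans n2)
      (a2.trans n3))) (Nt_nonneg hR0 _) two_pos.le).trans_eq (by ring))
  have n5 : Nt R g ≤ 1 / 2 := by
    rw [← mul_sub] at e3
    have a1 := (Nt_X_pow_mul hR0 (s + 1) _).trans
      (mul_le_mul_of_nonneg_left n4 (by positivity))
    exact le_of_mul_le_mul_left (by linarith) (pow_pos (sub_pos.2 hR) u.card)
  have hcρ : ((1 - ρ : ℝ) : ℂ) ≠ 0 := by exact_mod_cast (sub_pos.2 hρ).ne'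
  have ev : ∀ k : Z, Rm.eval (k : ℂ) = (k : ℂ) ^ (s + 1) * (Uu u).eval (k : ℂ) := fun k => by
    have := congrArg (eval (k : ℂ)) e1
    have h0 : N.eval (k : ℂ) = 0 := eval_nodal_at_node (mem_univ k)
    simpa [h0] using this.symm
  obtain ⟨T, t1, t2, t3⟩ := gl2 _ Λ hΛ s (hc ▸ hΛ') hρ (Subtype.val : Z → ℂ) Subtype.val_injective
    (fun k => hn k k.2) (-g) (by simpa using hg)
    (fun k => -(nodalWeight univ (Subtype.val : Z → ℂ) k * Rm.eval (k : ℂ)) / (1 - ρ : ℝ))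
    (by
      have e := eq_interpolate Subtype.val_injective.injOn e2
      rw [interpolate_eq_nodalWeight_mul_nodal_div_X_sub_C] at e
      have e' : ∑ k : Z, C (-(nodalWeight univ (Subtype.val : Z → ℂ) k * Rm.eval (k : ℂ)) /
          (1 - ρ : ℝ) * (1 - ρ : ℝ)) * nodal (univ.erase k) (Subtype.val : Z → ℂ) = -Rm := by
        rw [e, ← sum_neg_distrib, ← e]
        refine sum_congr rfl fun k _ => ?_
        rw [div_mul_cancel₀ _ hcρ, nodal_erase_eq_nodal_div (mem_univ k), map_neg, C_mul]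
        ring
      rw [e', ← hNd]
      linear_combination e1)
    (by
      have a1 : ∑ j ∈ range (s + 1), ‖(-g).coeff j‖ ≤ 1 / 2 := by
        have := sum_le_Nt zero_le_one g (range (s + 1))
        simp only [one_pow, mul_one] at this
        simpa using (this.trans (Nt_mono zero_le_one hR.le g)).trans n5
      have a2 : ∀ k : Z, ‖-(nodalWeight univ (Subtype.val : Z → ℂ) k * Rm.eval (k : ℂ)) /
          ((1 - ρ : ℝ) : ℂ)‖ ≤
          ‖nodalWeight univ (Subtype.val : Z → ℂ) k * (Uu u).eval (k : ℂ)‖ / 4 := fun k => by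
        rw [norm_div, norm_neg, norm_mul, norm_mul, ev, norm_mul, norm_pow, hn k k.2,
          Complex.norm_real, Real.norm_of_nonneg (by linarith), div_le_iff₀ (by linarith)]
        have b4 := mul_le_mul_of_nonneg_right H3 (norm_nonneg ((Uu u).eval (k : ℂ)))
        have b3 : 0 ≤ ρ ^ (s + 1) * ‖(Uu u).eval (k : ℂ)‖ := by positivity
        have b5 : ρ ^ (s + 1) * ‖(Uu u).eval (k : ℂ)‖ ≤ ‖(Uu u).eval (k : ℂ)‖ / 4 * (1 - ρ) := by
          linarith
        exact (mul_le_mul_of_nonneg_left b5 (norm_nonneg _)).trans_eq (by ring)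
      have a3 := sum_le_sum fun k (_ : k ∈ univ) => a2 k
      rw [← sum_div] at a3
      linarith)
  obtain ⟨T', e, s1, s2, s3⟩ := transfer2 (n := s + u.card + 1) (by simp [hZ]; omega) T
  refine ⟨T', fun a => ?_, fun z hz => t2 z (s1 ▸ hz), e (Sum.inl 0), e (Sum.inl (Fin.last s)), l,
    l2, l1, fun f => ?_⟩
  · have := s2 (e.symm a)
    rw [e.apply_symm_apply] at this
    exact this ▸ t1 _
  · rw [s3, t3, hN, mul_left_comm, ← smul_eq_C_mul, map_smul, smul_eq_mul]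

theorem Us_replicate (ρ r : ℝ) (m : ℕ) :
    Us ρ (Multiset.replicate m (r : ℂ)) = (C (-r / ρ : ℂ) * X + C (ρ : ℂ)) ^ m := by
  simp [Us]

theorem base {r0 ρ : ℝ} (h0 : 0 ≤ r0) (h1 : r0 < ρ) (hρ : ρ < 1) : ∃ s m0 : ℕ, ∀ m ≥ m0,
    ∀ r : ℝ, 0 ≤ r → r ≤ r0 → ∃ T : Matrix (Fin (s + m + 1)) (Fin (s + m + 1)) ℂ,
      (∀ a, ∑ b, ‖T a b‖ ≤ 1) ∧ (∀ z ∈ spectrum ℂ T, z = 0 ∨ z = r) ∧ ∃ i j, ∃ L : ℂ,
      1 / 2 ≤ ‖L‖ ∧ ‖L‖ ≤ 2 ∧ ∀ g : ℂ[X], L * aeval T (X ^ (s + 1) * g) i j =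
        -(taylor (r : ℂ) (g * (C (-r / ρ : ℂ) * X + C (ρ : ℂ)) ^ m)).coeff (m - 1) := by
  have ρ0 : 0 < ρ := h0.trans_lt h1
  obtain ⟨s, hs⟩ := exists_pow_lt_of_lt_one (show 0 < (1 - ρ) / 8 by linarith) hρ
  have θ0 : 0 ≤ r0 / ρ := by positivity
  have θ1 : r0 / ρ < 1 := (div_lt_one ρ0).2 h1
  obtain ⟨R, hR⟩ : ∃ R, R = 4 / (1 - r0 / ρ) := ⟨_, rfl⟩
  have R0 : R * (1 - r0 / ρ) = 4 := by rw [hR]; exact div_mul_cancel₀ _ (by linarith)
  have R1 : 4 ≤ R := by rw [hR, le_div_iff₀ (by linarith)]; linarith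
  obtain ⟨L1, l1⟩ := small θ0 θ1 zero_le_one
  obtain ⟨L3, l3⟩ := small (β := (r0 / ρ * R + 1) / (R - 1)) (Γ := 10 * R)
    (div_nonneg (by positivity) (by linarith)) ((div_lt_one (by linarith)).2 (by linarith))
    (by positivity)
  refine ⟨s, L1 * 1 + L3 * (s + 1) + 1, fun m hm r r1 r2 => ?_⟩
  obtain ⟨m, rfl⟩ : ∃ k, m = k + 1 := ⟨m - 1, by omega⟩
  obtain ⟨Λ, a1, a2, a3⟩ := exists_Lam (r : ℂ) s m
  have eU : Uu (Multiset.replicate (m + 1) (r : ℂ)) = (X - C (r : ℂ)) ^ (m + 1) := by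
    rw [Uu, Multiset.map_replicate, Multiset.prod_replicate]
  have H := core2 (u := Multiset.replicate (m + 1) (r : ℂ)) (R := R) (s := s) Λ (eU ▸ a1)
    (by rwa [Multiset.card_replicate]) h0 h1 hρ (by linarith) le_rfl
    (fun x hx => by rwa [Multiset.eq_of_mem_replicate hx, Complex.norm_real, Real.norm_of_nonneg r1])
    (by simp) (by simpa using l1 1 (m + 1) (by omega))
    (by
      rw [Multiset.card_replicate]
      have a := l3 (s + 1) (m + 1) (by omega)
      rw [div_pow, div_mul_eq_mul_div, div_le_iff₀ (pow_pos (by linarith) _), mul_pow] at a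
      have b : (10 : ℝ) ≤ 10 ^ (s + 1) := le_self_pow₀ (by norm_num) (by omega)
      have c := mul_le_mul_of_nonneg_right b
        (show 0 ≤ R ^ (s + 1) * (r0 / ρ * R + 1) ^ (m + 1) by positivity)
      have d : 0 ≤ (R - 1) ^ (m + 1) := pow_nonneg (by linarith) _
      have e := mul_le_of_le_one_left d (pow_le_one₀ (n := s + 1) (show (0 : ℝ) ≤ 1 / 2 by norm_num)
        (by norm_num))
      linarith)
    (by rw [pow_succ]; nlinarith [pow_pos ρ0 s]) norm_one
  rw [Multiset.card_replicate, eU, Us_replicate] at H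
  obtain ⟨T, t1, t2, i, j, l, l1, l2, t3⟩ := H
  refine ⟨T, t1, fun z hz => ?_, i, j, l, l1, l2, fun g => ?_⟩
  · have := t2 z hz
    simp only [eval_mul, eval_pow, eval_X, eval_sub, eval_C, mul_eq_zero, sub_eq_zero,
      pow_eq_zero_iff (Nat.succ_ne_zero _)] at this
    exact this
  · rw [t3, C_1, one_mul, mul_sub, map_sub, mul_right_comm, mul_comm _ g, a1, zero_sub, mul_assoc,
      a3, Nat.add_sub_cancel]

end Pool.Agent.MP_c71a08_an.H32
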