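import Mathlib

namespace Pool.Agent.MP_c71a08_an.H32

theorem two_real {r m X Y a0 : ℝ} (h1 : 0.414 ≤ r) (h2 : r ≤ 0.515) (ha1 : 3 * a0 ≤ r)
    (hm : r - 0.12 ≤ m) (hX : 0 ≤ X) (hc : X ^ 2 + Y ^ 2 + 2 * m * X + m ^ 2 ≤ r ^ 2) :
    3 * m ^ 2 + 5 * X ^ 2 - 3 / 4 * Y ^ 2 + 2 * m ^ 2 * (m - 3 * (a0 - 1.8 * (r - m))) +
      (X ^ 2 + Y ^ 2) * (2 * m + 2 * (a0 - 1.8 * (r - m))) ≤
      3 * r ^ 2 + 2 * r ^ 3 - 6 * a0 * r ^ 2 := by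
  obtain ⟨y, rfl⟩ : ∃ y, m = r - y := ⟨r - m, by ring⟩
  have hm0 : 0 < r - y := by linarith
  have hy : X ≤ y := by nlinarith [sq_nonneg Y]
  have hy0 : 0 ≤ y := hX.trans hy
  have hy1 : y ≤ 0.12 := by linarith
  have hZ : X ^ 2 + Y ^ 2 ≤ y * (2 * r - y) := by nlinarith [mul_nonneg hm0.le hX]
  have e1 : (X ^ 2 + Y ^ 2) * (2 * (r - y) + 2 * (a0 - 1.8 * y) - 3 / 4) ≤
      y * (2 * r - y) * (0.6234 - 5 * y) :=
    (mul_le_mul_of_nonneg_left (show _ ≤ 0.6234 - 5 * y by linarith) (by positivity)).trans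
      (mul_le_mul_of_nonneg_right hZ (by linarith))
  have e2 : X ^ 2 ≤ y ^ 2 := pow_le_pow_left₀ hX hy 2
  have e3 : 6 * a0 * (y * (2 * r - y)) ≤ 2 * r * (y * (2 * r - y)) :=
    mul_le_mul_of_nonneg_right (by linarith) (mul_nonneg hy0 (by linarith))
  have e4 : 0 ≤ y * (4.7532 * r - 8.8 * r ^ 2 + y * (27.6 * r - 8.1266 - 13.8 * y)) := by
    refine mul_nonneg hy0 (add_nonneg (by nlinarith) (mul_nonneg hy0 (by linarith)))
  nlinarith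

theorem two_b7 {r m a0 σ : ℝ} (h1 : 0.414 ≤ r) (h2 : r ≤ 0.515) (ha1 : 3 * a0 ≤ r)
    (ha : 2 * (r - a0) ^ 2 = (1 - r) ^ 2) (hs : r - 0.12 ≤ m) (y0 : 0 ≤ r - m)
    (b6 : 2 * σ ^ 2 ≤ (1 - m) ^ 2 + (r - m) ^ 2) : a0 - 1.8 * (r - m) ≤ m - σ := by
  by_contra hcon
  push Not at hcon
  have u1 : 0.707 * (1 - r) ≤ r - a0 := by nlinarith
  have u2 : r - a0 + 0.8 * (r - m) < σ := by linarith
  have u3 := pow_lt_pow_left₀ u2 (by linarith) two_ne_zero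
  nlinarith [mul_le_mul_of_nonneg_right u1 y0, mul_nonneg y0 (sub_nonneg.2 hs),
    mul_nonneg y0 (sub_nonneg.2 h2)]

theorem refl_le {z : ℂ} {α : ℝ} (h0 : 0 ≤ α) (h : α ≤ z.re) : ‖z - 2 * α‖ ≤ ‖z‖ := by
  refine (pow_le_pow_iff_left₀ (norm_nonneg _) (norm_nonneg _) two_ne_zero).1 ?_
  rw [Complex.sq_norm, Complex.sq_norm, Complex.normSq_apply, Complex.normSq_apply]
  simp
  nlinarith [mul_nonneg h0 (sub_nonneg.2 h)]

theorem two_core {r m a0 β γ : ℝ} {s w : ℂ} (h1 : 0.414 ≤ r) (h2 : r ≤ 0.515) 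
    (ha1 : 3 * a0 ≤ r) (ha : 2 * (r - a0) ^ 2 = (1 - r) ^ 2) (hm : 0 ≤ m) (hβ : 0 ≤ β) (hγ : 0 ≤ γ)
    (c1 : ‖m - s‖ + β ≤ 1) (c2 : ‖m + s‖ + γ ≤ 1) (c3 : ‖w ^ 2 - s ^ 2‖ ≤ β * γ)
    (c4 : ‖m + w‖ ≤ r) (c5 : ‖m - w‖ ≤ r) :
    ‖(3 * m ^ 2 + w ^ 2) * (m - s) - 2 * m * (m ^ 2 - w ^ 2)‖ + β * ‖3 * (m : ℂ) ^ 2 + w ^ 2‖ ≤
      3 * r ^ 2 + 2 * r ^ 3 - 6 * a0 * r ^ 2 := by
  have key : ∀ α : ℝ, ‖m - s - 2 * α‖ ≤ ‖m - s‖ →
      ‖(3 * m ^ 2 + w ^ 2) * (m - s) - 2 * m * (m ^ 2 - w ^ 2)‖ + β * ‖3 * (m : ℂ) ^ 2 + w ^ 2‖ ≤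
      ‖3 * (m : ℂ) ^ 2 + w ^ 2‖ +
        ‖((2 * m ^ 2 * (m - 3 * α) : ℝ) : ℂ) - w ^ 2 * ((2 * m + 2 * α : ℝ) : ℂ)‖ := by
    intro α hα
    have e : (3 * m ^ 2 + w ^ 2) * (m - s) - 2 * m * (m ^ 2 - w ^ 2) =
        (3 * m ^ 2 + w ^ 2) * (m - s - 2 * α) -
        (((2 * m ^ 2 * (m - 3 * α) : ℝ) : ℂ) - w ^ 2 * ((2 * m + 2 * α : ℝ) : ℂ)) := by
      push_cast; ring
    rw [e]
    have t1 := norm_sub_le ((3 * m ^ 2 + w ^ 2) * (m - s - 2 * α))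
      (((2 * m ^ 2 * (m - 3 * α) : ℝ) : ℂ) - w ^ 2 * ((2 * m + 2 * α : ℝ) : ℂ))
    rw [norm_mul] at t1
    have t2 := norm_nonneg (3 * (m : ℂ) ^ 2 + w ^ 2)
    nlinarith [mul_le_mul_of_nonneg_left hα t2, mul_le_mul_of_nonneg_left c1 t2]
  have hW : ‖w ^ 2‖ = w.re ^ 2 + w.im ^ 2 := by
    rw [norm_pow, Complex.sq_norm, Complex.normSq_apply]; ring
  have d4 := pow_le_pow_left₀ (norm_nonneg _) c4 2
  have d5 := pow_le_pow_left₀ (norm_nonneg _) c5 2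
  rw [Complex.sq_norm, Complex.normSq_apply] at d4 d5
  simp only [Complex.add_re, Complex.sub_re, Complex.ofReal_re, Complex.add_im, Complex.sub_im,
    Complex.ofReal_im, zero_add, zero_sub] at d4 d5
  have hc : |w.re| ^ 2 + w.im ^ 2 + 2 * m * |w.re| + m ^ 2 ≤ r ^ 2 := by
    rcases abs_cases w.re with h | h <;> rw [h.1] <;> nlinarith
  have hX := abs_nonneg w.re
  have hy : |w.re| ≤ r - m := by nlinarith [sq_nonneg w.im]
  have sec : ∀ α : ℝ, 0 ≤ α → 3 * α ≤ m →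
      ‖((2 * m ^ 2 * (m - 3 * α) : ℝ) : ℂ) - w ^ 2 * ((2 * m + 2 * α : ℝ) : ℂ)‖ ≤
      2 * m ^ 2 * (m - 3 * α) + (|w.re| ^ 2 + w.im ^ 2) * (2 * m + 2 * α) := by
    intro α h0 h3
    refine (norm_sub_le _ _).trans (le_of_eq ?_)
    rw [norm_mul, hW, Complex.norm_real, Complex.norm_real, sq_abs,
      Real.norm_of_nonneg (mul_nonneg (by positivity) (by linarith)),
      Real.norm_of_nonneg (by positivity)]
  rcases le_total m (r - 0.12) with hs | hs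
  · have k0 := key 0 (by simp)
    have s0 := sec 0 le_rfl (by linarith)
    have n1 : ‖3 * (m : ℂ) ^ 2 + w ^ 2‖ ≤ 3 * m ^ 2 + (|w.re| ^ 2 + w.im ^ 2) := by
      refine (norm_add_le _ _).trans (le_of_eq ?_)
      rw [hW, sq_abs]; simp
    have hZ : |w.re| ^ 2 + w.im ^ 2 ≤ r ^ 2 - m ^ 2 := by nlinarith [mul_nonneg hm hX]
    have e1 := mul_le_mul_of_nonneg_right hZ (show 0 ≤ 2 * m + 2 * 0 by linarith)
    have e2 : 6 * a0 * r ^ 2 ≤ 2 * r * r ^ 2 := mul_le_mul_of_nonneg_right (by linarith) (by positivity)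
    have e3 : m ^ 2 ≤ (r - 0.12) ^ 2 := pow_le_pow_left₀ hm hs 2
    have e4 : m * r ^ 2 ≤ (r - 0.12) * r ^ 2 := mul_le_mul_of_nonneg_right hs (by positivity)
    nlinarith [mul_nonneg (sub_nonneg.2 h1) (sub_nonneg.2 h2)]
  · have main := two_real h1 h2 ha1 hs hX hc
    have hZ : |w.re| ^ 2 + w.im ^ 2 ≤ 3 * m ^ 2 := by nlinarith [mul_nonneg hm hX]
    have n1 : ‖3 * (m : ℂ) ^ 2 + w ^ 2‖ ≤ 3 * m ^ 2 + 5 * |w.re| ^ 2 - 3 / 4 * w.im ^ 2 := by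
      refine (Complex.norm_le_abs_re_add_abs_im _).trans ?_
      have r1 : (3 * (m : ℂ) ^ 2 + w ^ 2).re = 3 * m ^ 2 + w.re ^ 2 - w.im ^ 2 := by
        simp [pow_two]; ring
      have r2 : (3 * (m : ℂ) ^ 2 + w ^ 2).im = 2 * w.re * w.im := by simp [pow_two]; ring
      rw [r1, r2, abs_of_nonneg (by nlinarith [sq_nonneg w.re, sq_nonneg |w.re|]), sq_abs]
      have : |2 * w.re * w.im| ≤ 4 * w.re ^ 2 + 1 / 4 * w.im ^ 2 :=
        abs_le.2 ⟨by nlinarith [sq_nonneg (2 * w.re + w.im / 2)],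
          by nlinarith [sq_nonneg (2 * w.re - w.im / 2)]⟩
      linarith
    rcases le_total (a0 - 1.8 * (r - m)) 0 with hα | hα
    · have k0 := key 0 (by simp)
      have s0 := sec 0 le_rfl (by linarith)
      nlinarith [mul_nonneg (neg_nonneg.2 hα) (sub_nonneg.2 hZ)]
    · have s0 := sec _ hα (by linarith)
      have b1 : β ≤ 1 - m + s.re := by
        have := Complex.re_le_norm (m - s); simp at this; linarith
      have b2 : γ ≤ 1 - m - s.re := by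
        have := Complex.re_le_norm (m + s); simp at this; linarith
      have b3 : |s.re ^ 2 - w.re ^ 2| ≤ β * γ := by
        refine le_trans ?_ c3
        rw [show w ^ 2 - s ^ 2 = -((s - w) * (s + w)) by ring, norm_neg, norm_mul,
          show s.re ^ 2 - w.re ^ 2 = (s - w).re * (s + w).re by simp; ring, abs_mul]
        exact mul_le_mul (Complex.abs_re_le_norm _) (Complex.abs_re_le_norm _) (abs_nonneg _)
          (norm_nonneg _)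
      have b4 := mul_le_mul b1 b2 hγ (hβ.trans b1)
      have b5 : w.re ^ 2 ≤ (r - m) ^ 2 := by rw [← sq_abs]; exact pow_le_pow_left₀ hX hy 2
      have b6 : 2 * s.re ^ 2 ≤ (1 - m) ^ 2 + (r - m) ^ 2 := by linarith [(abs_le.1 b3).2]
      have k0 := key (a0 - 1.8 * (r - m)) (refl_le hα (by
        simpa using two_b7 h1 h2 ha1 ha hs (hX.trans hy) b6))
      linarith

end Pool.Agent.MP_c71a08_an.H32
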