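import Pool.Agent.MP_c71a08_an.H32.Two

namespace Pool.Agent.MP_c71a08_an.H32

open Matrix

theorem two_abcd {r a0 : ℝ} (h1 : 0.414 ≤ r) (h2 : r ≤ 0.515) (ha1 : 3 * a0 ≤ r)
    (ha : 2 * (r - a0) ^ 2 = (1 - r) ^ 2) {a b c d : ℂ} (r1 : ‖a‖ + ‖b‖ ≤ 1) (r2 : ‖d‖ + ‖c‖ ≤ 1)
    (hs : ∀ μ : ℂ, (μ - a) * (μ - d) = b * c → ‖μ‖ ≤ r) :
    ‖a ^ 3 + 2 * a * b * c + b * c * d‖ + ‖b * (a ^ 2 + a * d + d ^ 2 + b * c)‖ ≤
      3 * r ^ 2 + 2 * r ^ 3 - 6 * a0 * r ^ 2 := by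
  obtain ⟨ω, hω, hm⟩ := Complex.exists_norm_mul_eq_self ((a + d) / 2)
  have hm0 := norm_nonneg ((a + d) / 2)
  generalize ‖(a + d) / 2‖ = m at hm hm0
  have ω0 : ω ≠ 0 := by rintro rfl; simp at hω
  obtain ⟨s, hs0⟩ : ∃ s, (d - a) / 2 = ω * s := ⟨(d - a) / 2 / ω, by field_simp⟩
  obtain ⟨w, hw⟩ := IsAlgClosed.exists_pow_nat_eq (s ^ 2 + b * c / ω ^ 2) two_pos
  have ea : a = ω * (m - s) := by linear_combination -hm - hs0
  have ed : d = ω * (m + s) := by linear_combination -hm + hs0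
  have ep : b * c = ω ^ 2 * (w ^ 2 - s ^ 2) := by rw [hw]; field_simp; ring
  have nm : ∀ (k : ℕ) (z : ℂ), ‖ω ^ k * z‖ = ‖z‖ := fun k z => by simp [hω]
  have nm1 : ∀ z : ℂ, ‖ω * z‖ = ‖z‖ := fun z => by simp [hω]
  have := two_core (β := ‖b‖) (γ := ‖c‖) (s := s) (w := w) h1 h2 ha1 ha hm0 (norm_nonneg _)
    (norm_nonneg _) (by rwa [ea, nm1] at r1) (by rwa [ed, nm1] at r2)
    (by rw [← norm_mul, ep, nm])
    (by rw [← nm1]; exact hs _ (by rw [ep, ea, ed]; ring))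
    (by rw [← nm1]; exact hs _ (by rw [ep, ea, ed]; ring))
  rw [← nm 3, ← nm 2 (3 * (m : ℂ) ^ 2 + w ^ 2), ← norm_mul] at this
  refine le_of_eq_of_le ?_ this
  congr 2
  · rw [mul_assoc (2 * a), ep, ea, ed]; ring
  · rw [ep, ea, ed]; ring

theorem spec_two (T : Matrix (Fin 2) (Fin 2) ℂ) (μ : ℂ) :
    μ ∈ spectrum ℂ T ↔ (μ - T 0 0) * (μ - T 1 1) = T 0 1 * T 1 0 := by
  rw [spectrum.mem_iff, isUnit_iff_isUnit_det, isUnit_iff_ne_zero, not_not, det_fin_two,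
    sub_eq_zero]
  simp [Algebra.algebraMap_eq_smul_one]

theorem two_upper {r a0 : ℝ} (h1 : 0.414 ≤ r) (h2 : r ≤ 0.515) (ha1 : 3 * a0 ≤ r)
    (ha : 2 * (r - a0) ^ 2 = (1 - r) ^ 2) (T : Matrix (Fin 2) (Fin 2) ℂ)
    (hT : ∀ i, ∑ j, ‖T i j‖ ≤ 1) (hs : ∀ μ ∈ spectrum ℂ T, ‖μ‖ ≤ r) (i : Fin 2) :
    ∑ j, ‖(T ^ 3) i j‖ ≤ 3 * r ^ 2 + 2 * r ^ 3 - 6 * a0 * r ^ 2 := by
  have t0 := hT 0
  have t1 := hT 1
  rw [Fin.sum_univ_two] at t0 t1 ⊢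
  fin_cases i
  · refine le_of_eq_of_le ?_ (two_abcd h1 h2 ha1 ha t0 ((add_comm _ _).trans_le t1)
      fun μ h => hs μ ((spec_two T μ).2 h))
    congr 2 <;> simp [pow_succ, mul_apply, Fin.sum_univ_two] <;> ring
  · refine le_of_eq_of_le ?_ (two_abcd h1 h2 ha1 ha ((add_comm _ _).trans_le t1) t0
      fun μ h => hs μ ((spec_two T μ).2 (by linear_combination h)))
    rw [add_comm]
    congr 2 <;> simp [pow_succ, mul_apply, Fin.sum_univ_two] <;> ring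

theorem two_lower {r a0 : ℝ} (h0 : 0 ≤ a0) (h2 : r ≤ 0.515) (ha1 : 3 * a0 ≤ r)
    (ha : 2 * (r - a0) ^ 2 = (1 - r) ^ 2) : ∃ T : Matrix (Fin 2) (Fin 2) ℂ,
    (∀ i, ∑ j, ‖T i j‖ ≤ 1) ∧ (∀ μ ∈ spectrum ℂ T, ‖μ‖ ≤ r) ∧
    3 * r ^ 2 + 2 * r ^ 3 - 6 * a0 * r ^ 2 ≤ ∑ j, ‖(T ^ 3) 0 j‖ := by
  have hc : 2 * ((r : ℂ) - a0) ^ 2 = (1 - r) ^ 2 := by exact_mod_cast ha
  have hd : 2 * r - a0 ≤ 1 := by nlinarith
  refine ⟨!![(a0 : ℂ), ((1 - a0 : ℝ) : ℂ); ((2 * r - a0 - 1 : ℝ) : ℂ), ((2 * r - a0 : ℝ) : ℂ)],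
    fun i => ?_, fun μ hμ => ?_, ?_⟩
  · fin_cases i <;> simp only [Fin.sum_univ_two, Fin.zero_eta, Fin.mk_one, Fin.isValue, of_apply,
      cons_val', cons_val_zero, cons_val_one, cons_val_fin_one, Complex.norm_real,
      Real.norm_eq_abs]
    · rw [abs_of_nonneg h0, abs_of_nonneg (by linarith)]; linarith
    · rw [abs_of_nonpos (by linarith), abs_of_nonneg (by linarith)]; linarith
  · rw [spec_two] at hμ
    simp only [Fin.isValue, of_apply, cons_val', cons_val_zero, cons_val_one,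
      cons_val_fin_one] at hμ
    push_cast at hμ
    have : (μ - r) ^ 2 = 0 := by linear_combination hμ + hc
    rw [sub_eq_zero.1 (pow_eq_zero_iff two_ne_zero |>.1 this), Complex.norm_real,
      Real.norm_of_nonneg (by linarith)]
  · rw [Fin.sum_univ_two]
    refine le_of_eq_of_le (b := (2 * r ^ 3 - 3 * a0 * r ^ 2) + (3 * r ^ 2 * (1 - a0))) (by ring)
      (add_le_add ?_ ?_)
    · refine (neg_le_abs _).trans' (le_of_eq (neg_neg _).symm) |>.trans (le_of_eq ?_)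
      rw [← Real.norm_eq_abs, ← Complex.norm_real]
      congr 1
      simp [pow_succ, mul_apply, Fin.sum_univ_two]
      linear_combination (-(2 * r + a0 : ℂ)) * hc
    · refine (le_abs_self _).trans (le_of_eq ?_)
      rw [← Real.norm_eq_abs, ← Complex.norm_real]
      congr 1
      simp [pow_succ, mul_apply, Fin.sum_univ_two]
      linear_combination (-(1 - a0 : ℂ)) * hc

end Pool.Agent.MP_c71a08_an.H32
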