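import Pool.Agent.MP_c71a08_an.H32.Fixed
import Pool.Agent.MP_c71a08_an.H32.Up
import Pool.Agent.MP_c71a08_an.H38.Defs

namespace Pool.Agent.MP_c71a08_an.H32

open Polynomial Matrix Finset Filter

theorem A_le (r : ℝ) (hr : 0 ≤ r) (m k : ℕ) : A r m k ≤ (1 + r) ^ m * E r m k := by
  induction m generalizing k with
  | zero => simp [A_zero', E_zero']
  | succ m ih =>
    induction k with
    | zero => rw [A_zero, E_zero, mul_one]; exact one_le_pow₀ (by linarith)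
    | succ k ihk =>
      rw [A_succ, E_succ]
      exact (add_le_add (mul_le_mul_of_nonneg_left ihk hr)
        (mul_le_mul_of_nonneg_left (ih _) (by linarith))).trans_eq (by ring)

theorem dost {r : ℝ} (hr : 0 ≤ r) (m k : ℕ) (T : Matrix (Fin (m + 1)) (Fin (m + 1)) ℂ)
    (hT : ∀ i, ∑ j, ‖T i j‖ ≤ 1) (hs : ∀ μ ∈ spectrum ℂ T, ‖μ‖ ≤ r) (i : Fin (m + 1)) :
    ∑ j, ‖(T ^ (m + k)) i j‖ ≤ (1 + r) ^ m * E r m k := by
  choose x hx1 hx2 using fun j => Complex.exists_norm_eq_mul_self ((T ^ (m + k)) i j)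
  have hu := (bd hr m T.charpoly.roots
    (by rw [IsAlgClosed.card_roots_eq_natDegree, charpoly_natDegree_eq_dim, Fintype.card_fin])
    (fun a ha => hs a (mem_spectrum_iff_isRoot_charpoly.2 (isRoot_of_mem_roots ha)))
    (fun j => (T ^ j *ᵥ x) i) 1
    (by
      unfold Rec
      rw [aeval_shift, ← (IsAlgClosed.splits T.charpoly).eq_prod_roots_of_monic T.charpoly_monic,
        aeval_self_charpoly]
      ext j; simp)
    (fun j => pow_le T hT x (fun l => (hx1 l).le) j i) k).1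
  have : (T ^ (m + k) *ᵥ x) i = ((∑ j, ‖(T ^ (m + k)) i j‖ : ℝ) : ℂ) := by
    simp only [mulVec, dotProduct, Complex.ofReal_sum, hx2, mul_comm]
  simp only at hu
  rw [this, Complex.norm_real, Real.norm_of_nonneg (by positivity), one_mul] at hu
  exact hu.trans (A_le r hr m k)

theorem le_H {n : ℕ} {r x c : ℝ} (h1 : r < 1) (hc : 0 < c) (h : ∀ s, r < s → s ≤ 1 →
    x ≤ c * (s ^ (n ^ 2 - n + 1) * ((1 - r * s) / (s - r)) ^ (n - 1))) : x ≤ c * H n r := by
  rw [← div_le_iff₀' hc]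
  refine le_csInf ⟨_, 1, h1, le_rfl, rfl⟩ ?_
  rintro t ⟨s, s1, s2, rfl⟩
  exact (div_le_iff₀' hc).2 (h s s1 s2)

theorem H_le {n : ℕ} {r s : ℝ} (h0 : 0 ≤ r) (s1 : r < s) (s2 : s ≤ 1) :
    H n r ≤ s ^ (n ^ 2 - n + 1) * ((1 - r * s) / (s - r)) ^ (n - 1) := by
  refine csInf_le ⟨0, ?_⟩ ⟨s, s1, s2, rfl⟩
  rintro t ⟨s, s1, s2, rfl⟩
  exact mul_nonneg (pow_nonneg (by linarith) _)
    (pow_nonneg (div_nonneg (by nlinarith) (by linarith)) _)

theorem q_eq (m : ℕ) : (m + 1) ^ 2 - (m + 1) + 1 = m + (m ^ 2 + 1) := by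
  have : (m + 1) ^ 2 = m + 1 + (m ^ 2 + m) := by ring
  omega

theorem up_small {r η : ℝ} (h0 : 0 < r) (h1 : r ≤ η) (h2 : η ≤ 1 / 2) (m : ℕ) :
    M (m + 1) r ≤ Real.exp (3 * η * m) * H (m + 1) r := by
  refine le_H (by linarith) (Real.exp_pos _) fun s s1 s2 => ?_
  have a1 : M (m + 1) r ≤ (1 + r) ^ m * E r m (m ^ 2 + 1) :=
    M_le (by have := E_nonneg h0.le m (m ^ 2 + 1); positivity) fun T t1 t2 i => by
      rw [q_eq]; exact dost h0.le m _ T t1 t2 i
  rw [q_eq, Nat.add_sub_cancel]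
  have sr := sub_pos.2 s1
  have a2 : E r m (m ^ 2 + 1) * (s - r) ^ m ≤ s ^ (m + (m ^ 2 + 1)) := by
    have := single_le_sum (f := fun i => (s - r) ^ i * r ^ (m + (m ^ 2 + 1) - i) *
      ((m + (m ^ 2 + 1)).choose i : ℝ)) (fun i _ => by positivity)
      (mem_range.2 (show m < m + (m ^ 2 + 1) + 1 by omega))
    rw [← add_pow, sub_add_cancel, Nat.add_sub_cancel_left] at this
    rw [E]; linarith
  have a3 : 1 + r ≤ Real.exp (3 * η) * (1 - r * s) := by
    have b1 := exp_le_one_sub (x := η) (by linarith) h2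
    have b2 : Real.exp (3 * η) * Real.exp (-(2 * η)) = Real.exp η := by
      rw [← Real.exp_add]; ring_nf
    have b3 := mul_le_mul_of_nonneg_left (b1.trans (show 1 - η ≤ 1 - r * s by nlinarith))
      (Real.exp_pos (3 * η)).le
    linarith [Real.add_one_le_exp η]
  have a4 := pow_le_pow_left₀ (by linarith) a3 m
  rw [mul_pow, ← Real.exp_nat_mul, mul_comm (m : ℝ)] at a4
  rw [div_pow, ← mul_div_assoc, ← mul_div_assoc, le_div_iff₀ (by positivity)]
  calc _ ≤ (1 + r) ^ m * (E r m (m ^ 2 + 1) * (s - r) ^ m) := by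
        rw [← mul_assoc]; exact mul_le_mul_of_nonneg_right a1 (by positivity)
    _ ≤ _ := (mul_le_mul a4 a2 (by have := E_nonneg h0.le m (m ^ 2 + 1); positivity)
        (le_trans (by positivity) a4)).trans_eq (by ring)

theorem one_le_kap {r s : ℝ} (h0 : 0 ≤ r) (s1 : r < s) (s2 : s ≤ 1) :
    1 ≤ (1 - r * s) / (s - r) := by
  rw [le_div_iff₀ (by linarith)]; nlinarith

theorem one_add_inv_pow {q : ℕ} (hq : 0 < q) : (1 + 1 / (q : ℝ)) ^ q ≤ Real.exp 1 := by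
  have := pow_le_pow_left₀ (by positivity) (Real.add_one_le_exp (1 / (q : ℝ))) q
  rwa [add_comm, ← Real.exp_nat_mul, mul_one_div_cancel (by positivity)] at this

theorem up_big {r η : ℝ} (h0 : 0 < η) (h1 : η ≤ r) (h2 : r < 1) (m : ℕ) (hm : 3 / η ≤ m) :
    M (m + 1) r ≤ 2 * Real.exp 1 ^ 2 / η * (m + 1) ^ 5 * H (m + 1) r := by
  have r0 : 0 < r := h0.trans_le h1
  have e1 : 1 ≤ Real.exp 1 := Real.one_le_exp zero_le_one
  rw [div_le_iff₀ h0] at hm
  have m3 : (3 : ℝ) ≤ m := by nlinarith [Nat.cast_nonneg (α := ℝ) m]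
  refine le_H h2 (by positivity) fun s s1 s2 => ?_
  rw [Nat.add_sub_cancel]
  obtain ⟨q, hq⟩ : ∃ q, q = (m + 1) ^ 2 - (m + 1) + 1 := ⟨_, rfl⟩
  have q0 : 0 < q := by omega
  have q1 : (q : ℝ) ≤ (m + 1) ^ 2 := by exact_mod_cast (show q ≤ (m + 1) ^ 2 by
    rw [hq, q_eq]; nlinarith)
  have qq := one_add_inv_pow q0
  have k1 := one_le_kap r0.le s1 s2
  have c0 : 1 ≤ 2 * Real.exp 1 / η * (m + 1) ^ 5 := by
    refine one_le_mul_of_one_le_of_one_le ?_ (one_le_pow₀ (by linarith))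
    rw [le_div_iff₀ h0]; linarith
  have sq : (r * (1 + 1 / q)) ^ q ≤ Real.exp 1 * s ^ q := by
    rw [mul_pow, mul_comm]
    exact mul_le_mul qq (pow_le_pow_left₀ r0.le s1.le q) (by positivity) (by positivity)
  rw [← hq]
  rcases le_total 1 (r * (1 + 1 / q)) with h | h
  · have a1 : M (m + 1) r ≤ 1 := M_le zero_le_one fun T t1 _ => row_pow_le T t1 _
    have a2 := one_le_mul_of_one_le_of_one_le c0 (one_le_mul_of_one_le_of_one_le
      ((one_le_pow₀ h).trans sq) (one_le_pow₀ (n := m) k1))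
    exact a1.trans (a2.trans_eq (by ring))
  obtain ⟨σ, σ1, σ2, σ3, σ4⟩ : ∃ σ, s ≤ σ ∧ σ ≤ 1 ∧ r * (1 + 1 / q) ≤ σ ∧
      σ ^ q ≤ Real.exp 1 * s ^ q := by
    rcases le_total s (r * (1 + 1 / q)) with h' | h'
    · exact ⟨_, h', h, le_rfl, sq⟩
    · exact ⟨s, le_rfl, s2, h', le_mul_of_one_le_left (by have := r0.trans s1; positivity) e1⟩
  have σr : η / (m + 1) ^ 2 ≤ σ - r := by
    have : η / (m + 1) ^ 2 ≤ r / q := div_le_div₀ r0.le h1 (by positivity) q1
    rw [mul_add, mul_one, mul_one_div] at σ3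
    linarith
  have σ0 : 0 < σ - r := lt_of_lt_of_le (by positivity) σr
  obtain ⟨δ, hδ⟩ : ∃ δ : ℝ, δ = 1 / (m + 1) ^ 4 := ⟨_, rfl⟩
  have δ0 : 0 < δ := by rw [hδ]; positivity
  have δ1 : δ ≤ 1 / 2 := by
    rw [hδ]; exact one_div_le_one_div_of_le two_pos
      (le_trans (by linarith) (le_self_pow₀ (by linarith) (by norm_num)))
  have i1 : (1 - δ)⁻¹ ≤ 1 + 2 * δ := by
    rw [inv_le_iff_one_le_mul₀ (by linarith)]; nlinarith
  have rs : r * σ ≤ 1 := mul_le_one₀ h2.le (by linarith) σ2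
  have rs0 : 0 ≤ r * σ := mul_nonneg r0.le (by linarith)
  obtain ⟨K, hK⟩ : ∃ K, K = ((1 - δ)⁻¹ - (1 - δ) * r * σ) / (σ - r) := ⟨_, rfl⟩
  have K0 : 0 ≤ K := hK ▸ div_nonneg (by
    have := one_le_inv₀ (show 0 < 1 - δ by linarith) |>.2 (by linarith)
    nlinarith) σ0.le
  have K1 : K ≤ 2 / η * (m + 1) ^ 2 := by
    rw [hK, div_le_iff₀ σ0]
    have := mul_le_mul_of_nonneg_left σr (show 0 ≤ 2 / η * (m + 1) ^ 2 by positivity)
    rw [show 2 / η * (m + 1) ^ 2 * (η / (m + 1) ^ 2) = 2 by field_simp] at this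
    nlinarith
  have K2 : K ≤ (1 - r * s) / (s - r) * Real.exp (1 / m) := by
    have b1 : (1 - r * σ) / (σ - r) ≤ (1 - r * s) / (s - r) :=
      div_le_div₀ (by nlinarith) (by nlinarith) (by linarith) (by linarith)
    have b2 : 3 * δ / (σ - r) ≤ 1 / m := by
      refine (div_le_div_of_nonneg_left (by positivity) (by positivity) σr).trans ?_
      rw [hδ, show 3 * (1 / ((m : ℝ) + 1) ^ 4) / (η / (m + 1) ^ 2) = 3 / (η * (m + 1) ^ 2) by
        field_simp, div_le_div_iff₀ (by positivity) (by linarith)]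
      nlinarith
    have b3 : K ≤ (1 - r * σ) / (σ - r) + 3 * δ / (σ - r) := by
      rw [hK, ← add_div]
      exact div_le_div_of_nonneg_right (by nlinarith) σ0.le
    have b4 := mul_le_mul_of_nonneg_left (Real.add_one_le_exp (1 / (m : ℝ))) (zero_le_one.trans k1)
    have b5 := mul_le_mul_of_nonneg_right k1 (show 0 ≤ 1 / (m : ℝ) by positivity)
    linarith
  have K3 := pow_le_pow_left₀ K0 K2 m
  rw [mul_pow, ← Real.exp_nat_mul, mul_one_div_cancel (by linarith)] at K3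
  refine M_le (by have := r0.trans s1; positivity) fun T t1 t2 i => ?_
  have key := H38.up_gen T t1 r0.le (sub_pos.1 σ0) σ2 (θ := 1 - δ) (by linarith) (by linarith) t2 q i
  rw [← hK, sub_sub_cancel, hδ, one_div, inv_inv] at key
  push_cast at key
  have key2 : (∑ j, ‖(T ^ q) i j‖) ^ 2 ≤ ((m + 1) ^ 3 * (σ ^ q * K ^ (m + 1))) ^ 2 := by
    rw [mul_pow _ (σ ^ q * _)]
    refine key.trans (mul_le_mul_of_nonneg_right ?_ (by positivity))
    rw [← pow_succ', ← pow_mul]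
    exact pow_le_pow_right₀ (by linarith) (by norm_num)
  have σp : 0 < σ := by linarith
  rw [← hq]
  refine ((pow_le_pow_iff_left₀ (by positivity) (by positivity) two_ne_zero).1 key2).trans ?_
  rw [pow_succ K]
  have := r0.trans s1
  calc _ ≤ ((m : ℝ) + 1) ^ 3 * (Real.exp 1 * s ^ q *
        (((1 - r * s) / (s - r)) ^ m * Real.exp 1 * (2 / η * (m + 1) ^ 2))) := by gcongr
    _ = _ := by ring

theorem poly_le_exp {ε : ℝ} (hε : 0 < ε) (c : ℝ) (k : ℕ) :
    ∀ᶠ n : ℕ in atTop, c * (n : ℝ) ^ k ≤ Real.exp (ε * n) := by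
  have h := ((isLittleO_pow_exp_pos_mul_atTop k hε).const_mul_left c).bound one_pos
  filter_upwards [tendsto_natCast_atTop_atTop.eventually h] with n hn
  rw [one_mul, Real.norm_of_nonneg (Real.exp_pos _).le] at hn
  exact (le_abs_self _).trans hn

theorem H_nonneg (n : ℕ) {r : ℝ} (h0 : 0 ≤ r) (h1 : r < 1) : 0 ≤ H n r := by
  simpa using le_H (n := n) (x := 0) h1 one_pos fun s s1 s2 => by
    have := zero_le_one.trans (one_le_kap h0 s1 s2)
    have := h0.trans s1.le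
    positivity

theorem unif_upper {ε : ℝ} (hε : 0 < ε) : ∃ n0 : ℕ, ∀ n ≥ n0, ∀ r : ℝ, 0 < r → r < 1 →
    M n r ≤ Real.exp (ε * n) * H n r := by
  obtain ⟨η, η0, η1, η2⟩ : ∃ η : ℝ, 0 < η ∧ η ≤ 1 / 2 ∧ 3 * η ≤ ε :=
    ⟨min (1 / 2) (ε / 3), by positivity, min_le_left _ _, by linarith [min_le_right (1 / 2) (ε / 3)]⟩
  refine eventually_atTop.1 ?_
  filter_upwards [poly_le_exp hε (2 * Real.exp 1 ^ 2 / η) 5, eventually_ge_atTop 1,
    (tendsto_natCast_atTop_atTop (R := ℝ)).eventually_ge_atTop (3 / η + 1)] with n n1 n2 n3 r r0 r1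
  obtain ⟨m, rfl⟩ : ∃ m, n = m + 1 := ⟨n - 1, by omega⟩
  have hH := H_nonneg (m + 1) r0.le r1
  push_cast at n1 n3 ⊢
  rcases le_total r η with h | h
  · refine (up_small r0 h η1 m).trans (mul_le_mul_of_nonneg_right (Real.exp_le_exp.2 ?_) hH)
    nlinarith [Nat.cast_nonneg (α := ℝ) m]
  · exact (up_big η0 h r1 m (by linarith)).trans (mul_le_mul_of_nonneg_right n1 hH)

theorem jordan {r : ℝ} (h0 : 0 ≤ r) (h1 : r < 1) (N q : ℕ) :
    ∃ T : Matrix (Fin (N + 1)) (Fin (N + 1)) ℂ, (∀ a, ∑ b, ‖T a b‖ ≤ 1) ∧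
      (∀ z ∈ spectrum ℂ T, ‖z‖ ≤ r) ∧
      (1 - r) ^ N * (r ^ (q - N) * q.choose N) ≤ ∑ b, ‖(T ^ q) 0 b‖ := by
  have hc : ((1 - r : ℝ) : ℂ) ≠ 0 := by exact_mod_cast (sub_pos.2 h1).ne'
  have nc : ‖((1 - r : ℝ) : ℂ)‖ = 1 - r := by
    rw [Complex.norm_real, Real.norm_of_nonneg (by linarith)]
  let T : Matrix (Fin (N + 1)) (Fin (N + 1)) ℂ := of fun j k =>
    (if j = k then (r : ℂ) else 0) + if (k : ℕ) = j + 1 then ((1 - r : ℝ) : ℂ) else 0
  have hs : ∀ {β : Type} [AddCommMonoid β] (j : Fin (N + 1)) (f : Fin (N + 1) → β),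
      ∑ k : Fin (N + 1), (if (k : ℕ) = j + 1 then f k else 0) =
        if h : (j : ℕ) < N then f ⟨j + 1, by omega⟩ else 0 := fun j f => by
    split_ifs with h
    · rw [sum_eq_single ⟨j + 1, by omega⟩ (fun b _ hb => if_neg fun h => hb (Fin.ext h)) (by simp)]
      simp
    · exact sum_eq_zero fun k _ => if_neg (by omega)
  have H := abs_lemma r N (fun j : Fin (N + 1) => C (((1 - r : ℝ) : ℂ) ^ (N - j)) * (X - C (r : ℂ)) ^ (j : ℕ))
    T (fun j => if (j : ℕ) < N then 0 else 1) ?_ ?_ ?_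
  · refine ⟨T, fun j => ?_, fun z hz => by
      rw [H.1 z hz, Complex.norm_real, Real.norm_of_nonneg h0], le_of_eq_of_le ?_ (H.2 q 0)⟩
    · refine (sum_le_sum fun k _ => norm_add_le _ _).trans ?_
      simp only [sum_add_distrib, apply_ite norm, norm_zero, sum_ite_eq, mem_univ, if_true, hs, nc,
        Complex.norm_real, Real.norm_of_nonneg h0]
      split_ifs <;> linarith
    · rw [mul_left_comm (X ^ q), Lam_C, Fin.val_zero, pow_zero, mul_one, Lam_apply, taylor_X_pow,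
        coeff_X_add_C_pow, Nat.sub_zero, norm_mul, norm_mul, norm_pow, norm_pow, nc,
        Complex.norm_real, Real.norm_of_nonneg h0, Complex.norm_natCast]
  · intro j
    simp only [T, of_apply, map_add, add_mul, sum_add_distrib, apply_ite C, C_0, ite_mul, zero_mul,
      sum_ite_eq, mem_univ, if_true, hs]
    split_ifs with h
    · rw [show N - j = N - (j + 1) + 1 by omega]
      simp only [map_pow]; ring
    · rw [show (j : ℕ) = N by omega]; simp only [Nat.sub_self, pow_zero, C_1]; ring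
  · intro c h
    ext j
    have := congrArg (fun f => (taylor (r : ℂ) f).coeff j) h
    simp only [map_sum, taylor_mul, taylor_C, taylor_pow, map_sub, taylor_X, add_sub_cancel_right,
      finsetSum_coeff, coeff_C_mul, coeff_X_pow, Fin.val_inj, mul_ite, mul_one, mul_zero, sum_ite_eq,
      mem_univ, if_true, map_zero, coeff_zero] at this
    exact (mul_eq_zero.1 this).resolve_right (pow_ne_zero _ hc)
  · intro j
    rw [Lam_C, norm_mul, norm_pow, nc]
    exact mul_le_one₀ (pow_le_one₀ (by linarith) (by linarith)) (norm_nonneg _)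
      (Lam_monic _ ((monic_X_sub_C _).pow _) (by simpa [natDegree_pow] using Fin.is_le j))

theorem binom_est (k p : ℕ) (hp : (k + 1) ^ 2 ≤ p) :
    (1 + (k + 1 : ℝ) / p) ^ (k + 1 + p) * (p / (k + 1 : ℝ)) ^ (k + 1) ≤
      Real.exp 1 ^ 2 * (k + 1) * ((k + 1 + p).choose (k + 1) : ℝ) := by
  have hp' : (k + 1 : ℝ) ^ 2 ≤ p := by exact_mod_cast hp
  have hp0 : (0 : ℝ) < p := lt_of_lt_of_le (by positivity) hp'
  have c1 : (1 + (k + 1 : ℝ) / p) ^ (k + 1 + p) ≤ Real.exp (k + 1) * Real.exp 1 := by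
    have h := pow_le_pow_left₀ (by positivity) (Real.add_one_le_exp ((k + 1 : ℝ) / p)) (k + 1 + p)
    rw [add_comm, ← Real.exp_nat_mul] at h
    refine h.trans ?_
    rw [← Real.exp_add, Real.exp_le_exp]
    push_cast
    rw [add_mul _ (p : ℝ), mul_div_cancel₀ _ hp0.ne', ← mul_div_assoc, add_comm, add_le_add_iff_left,
      div_le_one hp0]
    linarith
  have c4 : (p : ℝ) ^ (k + 1) ≤ (k + 1).factorial * ((k + 1 + p).choose (k + 1) : ℝ) := by
    have h := Nat.pow_le_choose (α := ℝ) (k + 1) (k + 1 + p)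
    rw [show k + 1 + p + 1 - (k + 1) = p + 1 by omega, div_le_iff₀' (by positivity)] at h
    refine le_trans ?_ h
    push_cast
    exact pow_le_pow_left₀ hp0.le (by linarith) _
  have c5 := H38.fact_le k
  rw [div_pow (p : ℝ), ← mul_div_assoc, div_le_iff₀ (by positivity)]
  calc _ ≤ Real.exp (k + 1) * Real.exp 1 *
        ((k + 1).factorial * ((k + 1 + p).choose (k + 1) : ℝ)) := by gcongr
    _ = ((k + 1).factorial * Real.exp (k + 1)) *
        (Real.exp 1 * ((k + 1 + p).choose (k + 1) : ℝ)) := by ring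
    _ ≤ _ := (mul_le_mul_of_nonneg_right c5 (by positivity)).trans_eq (by ring)

theorem unif_small {ε : ℝ} (hε : 0 < ε) : ∃ η : ℝ, 0 < η ∧ ∃ n0 : ℕ, ∀ n ≥ n0, ∀ r : ℝ,
    0 < r → r ≤ η → Real.exp (-(ε * n)) * H n r ≤ M n r := by
  obtain ⟨η, η0, η1, η2⟩ : ∃ η : ℝ, 0 < η ∧ η ≤ 1 / 2 ∧ 4 * η ≤ ε :=
    ⟨min (1 / 2) (ε / 4), by positivity, min_le_left _ _, by linarith [min_le_right (1 / 2) (ε / 4)]⟩
  refine ⟨η, η0, eventually_atTop.1 ?_⟩
  filter_upwards [poly_le_exp (half_pos hε) (Real.exp 1 ^ 2) 1, eventually_ge_atTop 2]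
    with n n1 n2 r r0 r1
  obtain ⟨k, rfl⟩ : ∃ k, n = k + 1 + 1 := ⟨n - 2, by omega⟩
  obtain ⟨T, t1, t2, t3⟩ := jordan r0.le (by linarith) (k + 1) ((k + 1 + 1) ^ 2 - (k + 1 + 1) + 1)
  replace t3 := t3.trans (le_M T t1 t2 0)
  obtain ⟨p, hp⟩ : ∃ p, p = (k + 1) ^ 2 + 1 := ⟨_, rfl⟩
  have hp' : (p : ℝ) = (k + 1) ^ 2 + 1 := by rw [hp]; push_cast; ring
  have k0 : (0 : ℝ) ≤ k := by positivity
  have p0 : (0 : ℝ) < p := by rw [hp']; positivity
  have x1 : (k + 1 : ℝ) / p ≤ 1 := by rw [div_le_one p0, hp']; nlinarith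
  have x0 : 0 < (k + 1 : ℝ) / p := by positivity
  have a1 := H_le (n := k + 1 + 1) (s := r * (1 + (k + 1 : ℝ) / p)) r0.le (by nlinarith) (by nlinarith)
  rw [q_eq, ← hp, Nat.add_sub_cancel_left] at t3
  rw [q_eq, ← hp, Nat.add_sub_cancel] at a1
  have a2 : (1 - r * (r * (1 + (k + 1 : ℝ) / p))) / (r * (1 + (k + 1 : ℝ) / p) - r) ≤
      r⁻¹ * (p / (k + 1 : ℝ)) := by
    refine (div_le_div_of_nonneg_right (show _ ≤ (1 : ℝ) from sub_le_self _ (by positivity))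
      (by nlinarith)).trans_eq ?_
    field_simp; ring
  have a3 := pow_le_pow_left₀ (zero_le_one.trans (one_le_kap r0.le (by nlinarith) (by nlinarith)))
    a2 (k + 1)
  have a4 : H (k + 1 + 1) r ≤ Real.exp 1 ^ 2 * (k + 1) * (r ^ p * (k + 1 + p).choose (k + 1)) := by
    refine (a1.trans (mul_le_mul_of_nonneg_left a3 (by positivity))).trans ?_
    refine le_of_eq_of_le ?_ ((mul_le_mul_of_nonneg_left (binom_est k p (by omega))
      (pow_pos r0 p).le).trans_eq (by ring))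
    rw [mul_pow, mul_pow, pow_add r, inv_pow]; field_simp
  have a5 : Real.exp (-(2 * r)) ^ (k + 1) ≤ (1 - r) ^ (k + 1) :=
    pow_le_pow_left₀ (Real.exp_pos _).le (exp_le_one_sub r0.le (by linarith)) _
  rw [← Real.exp_nat_mul] at a5
  push_cast at n1 a5 ⊢
  have a6 : Real.exp (-(ε * (k + 1 + 1))) * Real.exp (ε / 2 * (k + 1 + 1)) ≤
      Real.exp ((k + 1) * -(2 * r)) := by
    rw [← Real.exp_add]; exact Real.exp_le_exp.2 (by nlinarith)
  have a7 : Real.exp 1 ^ 2 * (k + 1) ≤ Real.exp (ε / 2 * (k + 1 + 1)) :=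
    le_trans (by rw [pow_one]; gcongr; linarith) n1
  calc _ ≤ Real.exp (-(ε * (k + 1 + 1))) * (Real.exp (ε / 2 * (k + 1 + 1)) *
        (r ^ p * (k + 1 + p).choose (k + 1))) :=
        mul_le_mul_of_nonneg_left (a4.trans (by gcongr)) (Real.exp_pos _).le
    _ ≤ _ := by
        rw [← mul_assoc]
        exact (mul_le_mul_of_nonneg_right (a6.trans a5) (by positivity)).trans t3

end Pool.Agent.MP_c71a08_an.H32
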